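import Pool.Agent.P.MP_cb5d8b_an.Defs

/-! Arcs as sets. -/

namespace Pool.Agent.P.MP_cb5d8b_an

open Set Metric Filter Topology

variable {X Y : Type*} [TopologicalSpace X] [TopologicalSpace Y]

/-- `A` is an arc from `x` to `y`, possibly a single point. -/
def ArcSet (A : Set X) (x y : X) : Prop :=
  ∃ (c : ℝ → X) (s t : ℝ), s ≤ t ∧ Continuous c ∧ InjOn c (Icc s t) ∧ c s = x ∧ c t = y ∧
    c '' Icc s t = A

namespace ArcSet

variable {A A' : Set X} {x y z : X}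

theorem point (x : X) : ArcSet {x} x x :=
  ⟨fun _ => x, 0, 0, le_rfl, continuous_const, by simp, rfl, rfl, by simp⟩

theorem left (h : ArcSet A x y) : x ∈ A := by
  obtain ⟨c, s, t, hst, -, -, rfl, -, rfl⟩ := h
  exact ⟨s, left_mem_Icc.2 hst, rfl⟩

theorem right (h : ArcSet A x y) : y ∈ A := by
  obtain ⟨c, s, t, hst, -, -, -, rfl, rfl⟩ := h
  exact ⟨t, right_mem_Icc.2 hst, rfl⟩

theorem compact (h : ArcSet A x y) : IsCompact A := by
  obtain ⟨c, s, t, -, hc, -, -, -, rfl⟩ := h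
  exact isCompact_Icc.image hc

theorem preconn (h : ArcSet A x y) : IsPreconnected A := by
  obtain ⟨c, s, t, -, hc, -, -, -, rfl⟩ := h
  exact isPreconnected_Icc.image c hc.continuousOn

theorem inner (h : ArcSet A x y) : IsPreconnected (A \ {x, y}) := by
  obtain ⟨c, s, t, hst, hc, hi, rfl, rfl, rfl⟩ := h
  have : c '' Icc s t \ {c s, c t} = c '' Ioo s t := by
    ext w
    constructor
    · rintro ⟨⟨u, hu, rfl⟩, hn⟩
      refine ⟨u, ⟨lt_of_le_of_ne hu.1 ?_, lt_of_le_of_ne hu.2 ?_⟩, rfl⟩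
      · rintro rfl; exact hn (Or.inl rfl)
      · rintro rfl; exact hn (Or.inr rfl)
    · rintro ⟨u, hu, rfl⟩
      refine ⟨⟨u, Ioo_subset_Icc_self hu, rfl⟩, ?_⟩
      rintro (h | h)
      · exact hu.1.ne' (hi (Ioo_subset_Icc_self hu) (left_mem_Icc.2 hst) h)
      · exact hu.2.ne (hi (Ioo_subset_Icc_self hu) (right_mem_Icc.2 hst) h)
  rw [this]
  exact isPreconnected_Ioo.image c hc.continuousOn

/-- A nondegenerate arc is the closure of its inner part. -/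
theorem subset_closure_inner (h : ArcSet A x y) (hxy : x ≠ y) : A ⊆ closure (A \ {x, y}) := by
  obtain ⟨c, s, t, hst, hc, hi, rfl, rfl, rfl⟩ := h
  have hlt : s < t := lt_of_le_of_ne hst fun e => hxy (by rw [e])
  rw [← closure_Ioo hlt.ne]
  refine (image_closure_subset_closure_image hc).trans (closure_mono ?_)
  rw [closure_Ioo hlt.ne]
  rintro _ ⟨u, hu, rfl⟩
  refine ⟨⟨u, Ioo_subset_Icc_self hu, rfl⟩, ?_⟩
  rintro (h | h)
  · exact hu.1.ne' (hi (Ioo_subset_Icc_self hu) (left_mem_Icc.2 hst) h)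
  · exact hu.2.ne (hi (Ioo_subset_Icc_self hu) (right_mem_Icc.2 hst) h)

theorem symm (h : ArcSet A x y) : ArcSet A y x := by
  obtain ⟨c, s, t, hst, hc, hi, rfl, rfl, rfl⟩ := h
  refine ⟨fun u => c (-u), -t, -s, neg_le_neg hst, by fun_prop, ?_, by simp, by simp, ?_⟩
  · intro u hu v hv e
    exact neg_injective (hi ⟨by linarith [hu.2], by linarith [hu.1]⟩
      ⟨by linarith [hv.2], by linarith [hv.1]⟩ e)
  · ext w
    constructor
    · rintro ⟨u, hu, rfl⟩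
      exact ⟨-u, ⟨by linarith [hu.2], by linarith [hu.1]⟩, rfl⟩
    · rintro ⟨u, hu, rfl⟩
      exact ⟨-u, ⟨by linarith [hu.2], by linarith [hu.1]⟩, by simp⟩

theorem image (h : ArcSet A x y) {g : X → Y} (hg : Continuous g) (hi : InjOn g A) :
    ArcSet (g '' A) (g x) (g y) := by
  obtain ⟨c, s, t, hst, hc, hj, rfl, rfl, rfl⟩ := h
  exact ⟨fun u => g (c u), s, t, hst, hg.comp hc,
    hi.comp hj (mapsTo_image _ _), rfl, rfl, (image_image g c _).symm⟩

/-- Cutting an arc at one of its points. -/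
theorem split (h : ArcSet A x y) (hz : z ∈ A) :
    ∃ A₁ A₂, ArcSet A₁ x z ∧ ArcSet A₂ z y ∧ A₁ ∪ A₂ = A ∧ A₁ ∩ A₂ ⊆ {z} := by
  obtain ⟨c, s, t, hst, hc, hi, rfl, rfl, rfl⟩ := h
  obtain ⟨u, hu, rfl⟩ := hz
  refine ⟨c '' Icc s u, c '' Icc u t,
    ⟨c, s, u, hu.1, hc, hi.mono (Icc_subset_Icc_right hu.2), rfl, rfl, rfl⟩,
    ⟨c, u, t, hu.2, hc, hi.mono (Icc_subset_Icc_left hu.1), rfl, rfl, rfl⟩, ?_, ?_⟩
  · rw [← image_union, Icc_union_Icc_eq_Icc hu.1 hu.2]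
  · rintro _ ⟨⟨a, ha, rfl⟩, ⟨b, hb, e⟩⟩
    have : b = a := hi ⟨hu.1.trans hb.1, hb.2⟩ ⟨ha.1, ha.2.trans hu.2⟩ e
    subst this
    rw [le_antisymm ha.2 hb.1]
    rfl

/-- Two arcs meeting only in a common end form an arc. -/
theorem concat (h : ArcSet A x z) (h' : ArcSet A' z y) (hi : A ∩ A' ⊆ {z}) :
    ArcSet (A ∪ A') x y := by
  obtain ⟨c, s, t, hst, hc, hj, rfl, rfl, rfl⟩ := h
  obtain ⟨c', s', t', hst', hc', hj', e', rfl, rfl⟩ := h'
  have key : ∀ u ∈ Icc s t, ∀ v, t < v → v ≤ t + (t' - s') → c u ≠ c' (v - t + s') := by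
    intro u hu v hv hv' e
    have m : v - t + s' ∈ Icc s' t' := ⟨by linarith, by linarith⟩
    have h1 : c u = c t := hi ⟨⟨u, hu, rfl⟩, ⟨_, m, e.symm⟩⟩
    have h2 := hj' m (left_mem_Icc.2 hst') (by rw [← e, h1, e'])
    linarith
  refine ⟨fun u => if u ≤ t then c u else c' (u - t + s'), s, t + (t' - s'), by linarith,
    Continuous.if_le hc (by fun_prop) continuous_id continuous_const ?_, ?_, by simp [hst], ?_, ?_⟩
  · rintro u rfl
    simp [e']
  · intro u hu v hv e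
    by_cases h1 : u ≤ t <;> by_cases h2 : v ≤ t <;> simp only [h1, h2, if_true, if_false] at e
    · exact hj ⟨hu.1, h1⟩ ⟨hv.1, h2⟩ e
    · exact absurd e (key u ⟨hu.1, h1⟩ v (not_le.1 h2) hv.2)
    · exact absurd e.symm (key v ⟨hv.1, h2⟩ u (not_le.1 h1) hu.2)
    · have := hj' ⟨by linarith [not_le.1 h1], by linarith [hu.2]⟩
        ⟨by linarith [not_le.1 h2], by linarith [hv.2]⟩ e
      linarith
  · by_cases h1 : t + (t' - s') ≤ t
    · have : s' = t' := by linarith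
      subst this
      simp [e']
    · simp only [h1, if_false]
      congr 1
      ring
  · ext w
    constructor
    · rintro ⟨u, hu, rfl⟩
      by_cases h1 : u ≤ t
      · exact Or.inl ⟨u, ⟨hu.1, h1⟩, by simp [h1]⟩
      · exact Or.inr ⟨u - t + s', ⟨by linarith [not_le.1 h1], by linarith [hu.2]⟩, by simp [h1]⟩
    · rintro (⟨u, hu, rfl⟩ | ⟨u, hu, rfl⟩)
      · exact ⟨u, ⟨hu.1, by linarith [hu.2]⟩, by simp [hu.2]⟩
      · refine ⟨u - s' + t, ⟨by linarith [hu.1], by linarith [hu.2]⟩, ?_⟩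
        by_cases h1 : u - s' + t ≤ t
        · have : u = s' := by linarith [hu.1]
          subst this
          simp [e']
        · simp only [h1, if_false]
          congr 1
          ring

/-- The part of an arc up to its first point in a closed set. -/
theorem first (h : ArcSet A x y) {K : Set X} (hK : IsClosed K) (hy : y ∈ K) :
    ∃ A₁ z, z ∈ K ∧ A₁ ⊆ A ∧ ArcSet A₁ x z ∧ A₁ ∩ K ⊆ {z} := by
  obtain ⟨c, s, t, hst, hc, hi, rfl, rfl, rfl⟩ := h
  have hcl : IsCompact (Icc s t ∩ c ⁻¹' K) := isCompact_Icc.inter_right (hK.preimage hc)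
  obtain ⟨u, hu, hmin⟩ := hcl.exists_isLeast ⟨t, right_mem_Icc.2 hst, hy⟩
  refine ⟨c '' Icc s u, c u, hu.2, image_mono (Icc_subset_Icc_right hu.1.2),
    ⟨c, s, u, hu.1.1, hc, hi.mono (Icc_subset_Icc_right hu.1.2), rfl, rfl, rfl⟩, ?_⟩
  rintro _ ⟨⟨a, ha, rfl⟩, hK'⟩
  rw [le_antisymm ha.2 (hmin ⟨⟨ha.1, ha.2.trans hu.1.2⟩, hK'⟩)]
  rfl

theorem trans [T2Space X] (h : ArcSet A x z) (h' : ArcSet A' z y) :
    ∃ B, B ⊆ A ∪ A' ∧ ArcSet B x y := by
  obtain ⟨A₁, w, hw, s1, a1, i1⟩ := h.first h'.compact.isClosed h'.left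
  obtain ⟨B₁, B₂, -, b2, e, -⟩ := h'.split hw
  have s2 : B₂ ⊆ A' := e ▸ subset_union_right
  exact ⟨A₁ ∪ B₂, union_subset_union s1 s2,
    a1.concat b2 ((inter_subset_inter_right _ s2).trans i1)⟩

/-- Two points of an arc are joined by a subarc. -/
theorem between [T2Space X] (h : ArcSet A x y) {p q : X} (hp : p ∈ A) (hq : q ∈ A) :
    ∃ B, B ⊆ A ∧ ArcSet B p q := by
  obtain ⟨B₁, B₂, b1, -, e, -⟩ := h.split hp
  obtain ⟨C₁, C₂, c1, -, e', -⟩ := h.split hq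
  obtain ⟨B, s, b⟩ := b1.symm.trans c1
  exact ⟨B, s.trans (union_subset (e ▸ subset_union_left) (e' ▸ subset_union_left)), b⟩

/-- The piece of an arc around a point outside a closed set that contains both ends. -/
theorem piece (h : ArcSet A x y) {K : Set X} (hK : IsClosed K) (hx : x ∈ K) (hy : y ∈ K)
    (hz : z ∈ A) (hzK : z ∉ K) :
    ∃ E p q, p ∈ K ∧ q ∈ K ∧ p ≠ q ∧ E ⊆ A ∧ ArcSet E p q ∧ z ∈ E ∧ E ∩ K ⊆ {p, q} := by
  obtain ⟨A₁, A₂, a1, a2, e, i⟩ := h.split hz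
  obtain ⟨B₁, p, hp, s1, b1, i1⟩ := a1.symm.first hK hx
  obtain ⟨B₂, q, hq, s2, b2, i2⟩ := a2.first hK hy
  refine ⟨B₁ ∪ B₂, p, q, hp, hq, ?_, e ▸ union_subset_union s1 s2,
    b1.symm.concat b2 ((inter_subset_inter s1 s2).trans i), Or.inl b1.left, ?_⟩
  · rintro rfl
    exact hzK ((i ⟨s1 b1.right, s2 b2.right⟩ : p = z) ▸ hp)
  · rintro w ⟨hw | hw, hwK⟩
    · exact Or.inl (i1 ⟨hw, hwK⟩)
    · exact Or.inr (i2 ⟨hw, hwK⟩)

end ArcSet

/-- `T` contains no two arcs with the same distinct ends and no other common point. -/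
def NoLoop (T : Set X) : Prop :=
  ∀ (A A' : Set X) (p q : X), ArcSet A p q → ArcSet A' p q → p ≠ q → A ⊆ T → A' ⊆ T →
    ¬ (A ∩ A' ⊆ {p, q})

/-- In a set without loops arcs are determined by their ends. -/
theorem NoLoop.unique [T2Space X] {T A A' : Set X} {p q : X} (hT : NoLoop T) (h : ArcSet A p q)
    (h' : ArcSet A' p q) (s : A ⊆ T) (s' : A' ⊆ T) : A = A' := by
  have key : ∀ {A A' : Set X}, ArcSet A p q → ArcSet A' p q → A ⊆ T → A' ⊆ T → A ⊆ A' := by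
    intro A A' h h' s s' z hz
    by_contra hn
    obtain ⟨E, a, b, ha, hb, hab, sE, hE, -, i⟩ :=
      h.piece h'.compact.isClosed h'.left h'.right hz hn
    obtain ⟨B, sB, hB⟩ := h'.between ha hb
    exact hT E B a b hE hB hab (sE.trans s) (sB.trans s')
      ((inter_subset_inter_right _ sB).trans i)
  exact (key h h' s s').antisymm (key h' h s' s)

end Pool.Agent.P.MP_cb5d8b_an
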