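import Pool.Agent.P.MP_cb5d8b_an.Log

/-! The pillowcase: lattice, cone points, the shear maps and the statements of the steps. -/

namespace Pool.Agent.P.MP_cb5d8b_an

open Set Metric Filter Topology

/-- The Gaussian integers. -/
def Lat : Set ℂ := {z | ∃ m n : ℤ, z.re = m ∧ z.im = n}

/-- The cone points. -/
def Cone : Set ℂ := {z | 2 * z ∈ Lat}

/-- Same orbit under the group of maps `z ↦ ± z + l`. -/
def Rel (z w : ℂ) : Prop := z - w ∈ Lat ∨ z + w ∈ Lat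

/-- The linear map with matrix rows `(a, c)` and `(0, a)`. -/
def Bm (a c : ℤ) (z : ℂ) : ℂ := ⟨a * z.re + c * z.im, a * z.im⟩

/-- A pillowcase map onto the sphere. -/
structure Pil (Θ : ℂ → S2) : Prop where
  cont : Continuous Θ
  surj : Function.Surjective Θ
  fib : ∀ z w, Θ z = Θ w ↔ Rel z w
  equ : ∀ z, (Θ z).1 2 = 0 ↔ (∃ m : ℤ, 2 * z.re = m) ∨ ∃ m : ℤ, 2 * z.im = m
  opn : IsOpenMap Θ
  unif : UniformContinuous Θ

/-- The plane theorem. -/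
def S_PLANE : Prop := ∀ (D : Set ℂ) (a c : ℤ), 1 ≤ a → IsCompact D → IsPathConnected D →
  (∀ x ∈ D, ∀ y ∈ D, Rel x y → x = y) → (∀ z ∈ Cone, ∃ x ∈ D, Rel x z) →
  (∀ x ∈ D, ∃ y ∈ D, Rel (Bm a c x) y) → |c| ≤ 160 * a ^ 2

/-- A pillowcase map exists. -/
def S_PIL : Prop := ∃ Θ, Pil Θ

/-- A tree contains no loop. -/
def S_JCT : Prop := ∀ T : Set S2, IsTree T → NoLoop T

/-- Arcs of the sphere lift. -/
def S_LIFT : Prop := ∀ Θ, Pil Θ → ∀ (A : Set S2) (p q : S2) (w : ℂ), ArcSet A p q → Θ w = p →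
  ∃ B w', ArcSet B w w' ∧ Θ '' B = A ∧ InjOn Θ B ∧ Θ w' = q

/-- A graph without loops has a section. -/
def S_SEC : Prop := ∀ Θ, Pil Θ → ∀ T : Set S2, IsGraph T → NoLoop T →
  ∃ D : Set ℂ, IsCompact D ∧ IsPathConnected D ∧ InjOn Θ D ∧ Θ '' D = T

/-- The quotient of the shear map is a branched covering. -/
def S_BR : Prop := ∀ Θ, Pil Θ → ∀ (b : ℤ) (f : S2 → S2), (∀ z, f (Θ z) = Θ (Bm 2 b z)) →
  IsBranchedCovering f

/-- Critical points, postcritical set and degree. -/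
def S_POST : Prop := ∀ Θ, Pil Θ → ∀ (j : ℤ) (f : S2 → S2), (∀ z, f (Θ z) = Θ (Bm 2 (2 * j) z)) →
  post f = Θ '' Cone ∧ (Θ '' Cone).ncard = 4 ∧ HasDegree f 4

/-- Expansion. -/
def S_EXP : Prop := ∀ Θ, Pil Θ → ∀ (b : ℤ) (f : S2 → S2), (∀ z, f (Θ z) = Θ (Bm 2 b z)) →
  post f ⊆ Θ '' Cone → IsExpanding f

theorem Lat.zero : (0 : ℂ) ∈ Lat := ⟨0, 0, by simp, by simp⟩

theorem Lat.add {z w : ℂ} (hz : z ∈ Lat) (hw : w ∈ Lat) : z + w ∈ Lat := by
  obtain ⟨m, n, h1, h2⟩ := hz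
  obtain ⟨m', n', h1', h2'⟩ := hw
  exact ⟨m + m', n + n', by simp [h1, h1'], by simp [h2, h2']⟩

theorem Lat.neg {z : ℂ} (hz : z ∈ Lat) : -z ∈ Lat := by
  obtain ⟨m, n, h1, h2⟩ := hz
  exact ⟨-m, -n, by simp [h1], by simp [h2]⟩

theorem Lat.sub {z w : ℂ} (hz : z ∈ Lat) (hw : w ∈ Lat) : z - w ∈ Lat := by
  rw [sub_eq_add_neg]; exact Lat.add hz (Lat.neg hw)

theorem Lat.eq_zero {z : ℂ} (hz : z ∈ Lat) (h : ‖z‖ < 1) : z = 0 := by
  obtain ⟨m, n, h1, h2⟩ := hz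
  have a1 := (Complex.abs_re_le_norm z).trans_lt h
  have a2 := (Complex.abs_im_le_norm z).trans_lt h
  rw [h1] at a1
  rw [h2] at a2
  have b1 : m = 0 := Int.abs_lt_one_iff.1 (by exact_mod_cast a1)
  have b2 : n = 0 := Int.abs_lt_one_iff.1 (by exact_mod_cast a2)
  exact Complex.ext (by simp [h1, b1]) (by simp [h2, b2])

theorem Lat.closed : IsClosed Lat := by
  have : Lat = Complex.re ⁻¹' range ((↑) : ℤ → ℝ) ∩ Complex.im ⁻¹' range ((↑) : ℤ → ℝ) := by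
    ext z
    exact ⟨fun ⟨m, n, h1, h2⟩ => ⟨⟨m, h1.symm⟩, ⟨n, h2.symm⟩⟩,
      fun ⟨⟨m, h1⟩, ⟨n, h2⟩⟩ => ⟨m, n, h1.symm, h2.symm⟩⟩
  rw [this]
  exact (Int.isClosedEmbedding_coe_real.isClosed_range.preimage Complex.continuous_re).inter
    (Int.isClosedEmbedding_coe_real.isClosed_range.preimage Complex.continuous_im)

theorem Cone.closed : IsClosed Cone := Lat.closed.preimage (by fun_prop : Continuous fun z : ℂ => 2 * z)

theorem Rel.refl (z : ℂ) : Rel z z := Or.inl (by simpa using Lat.zero)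

theorem Rel.cone {z w : ℂ} (h : Rel z w) (hw : w ∈ Cone) : z ∈ Cone := by
  rcases h with h | h
  · have := Lat.add (Lat.add h h) hw
    rwa [show z - w + (z - w) + 2 * w = 2 * z by ring] at this
  · have := Lat.sub (Lat.add h h) hw
    rwa [show z + w + (z + w) - 2 * w = 2 * z by ring] at this

theorem Bm_add (a c : ℤ) (z w : ℂ) : Bm a c (z + w) = Bm a c z + Bm a c w :=
  Complex.ext (by simp [Bm]; ring) (by simp [Bm]; ring)

theorem Bm_sub (a c : ℤ) (z w : ℂ) : Bm a c (z - w) = Bm a c z - Bm a c w :=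
  Complex.ext (by simp [Bm]; ring) (by simp [Bm]; ring)

theorem Bm_neg (a c : ℤ) (z : ℂ) : Bm a c (-z) = -Bm a c z :=
  Complex.ext (by simp [Bm]; ring) (by simp [Bm])

theorem Bm_two (a c : ℤ) (z : ℂ) : Bm a c (2 * z) = 2 * Bm a c z :=
  Complex.ext (by simp [Bm]; ring) (by simp [Bm]; ring)

theorem Bm_cont (a c : ℤ) : Continuous (Bm a c) := by
  have : Bm a c = fun z => ((a * z.re + c * z.im : ℝ) : ℂ) + ((a * z.im : ℝ) : ℂ) * Complex.I :=
    funext fun z => Complex.ext (by simp [Bm]) (by simp [Bm])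
  rw [this]
  fun_prop

theorem Bm_lat (a c : ℤ) {z : ℂ} (hz : z ∈ Lat) : Bm a c z ∈ Lat := by
  obtain ⟨m, n, h1, h2⟩ := hz
  exact ⟨a * m + c * n, a * n, by simp [Bm, h1, h2], by simp [Bm, h2]⟩

theorem Bm_cone (a c : ℤ) {z : ℂ} (hz : z ∈ Cone) : Bm a c z ∈ Cone := by
  have := Bm_lat a c hz
  rwa [Bm_two] at this

theorem Bm_rel (a c : ℤ) {z w : ℂ} (h : Rel z w) : Rel (Bm a c z) (Bm a c w) := by
  rcases h with h | h
  · exact Or.inl (Bm_sub a c z w ▸ Bm_lat a c h)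
  · exact Or.inr (Bm_add a c z w ▸ Bm_lat a c h)

theorem Bm_comp (a c a' c' : ℤ) (z : ℂ) :
    Bm a c (Bm a' c' z) = Bm (a * a') (a * c' + c * a') z :=
  Complex.ext (by simp [Bm]; ring) (by simp [Bm]; ring)

theorem Bm_one (z : ℂ) : Bm 1 0 z = z := Complex.ext (by simp [Bm]) (by simp [Bm])

/-- The iterates. -/
theorem iter {Θ : ℂ → S2} {b : ℤ} {f : S2 → S2} (hf : ∀ z, f (Θ z) = Θ (Bm 2 b z)) (n : ℕ)
    (z : ℂ) : f^[n + 1] (Θ z) = Θ (Bm (2 ^ (n + 1)) ((n + 1) * 2 ^ n * b) z) := by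
  induction n with
  | zero => simpa using hf z
  | succ n ih =>
    rw [Function.iterate_succ_apply', ih, hf, Bm_comp]
    congr 2
    · ring
    · push_cast; ring

end Pool.Agent.P.MP_cb5d8b_an
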