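import Pool.Agent.P.MP_cb5d8b_an.Chart

/-! The quotient of the shear map is an orientation-preserving branched covering. -/

namespace Pool.Agent.P.MP_cb5d8b_an

open Set Metric Filter Topology Complex

namespace BrA

open Ch

/-- `h` winds around `u` like the standard coordinate. -/
def Std (h : ℂ → ℂ) (u : ℂ) : Prop :=
  ∃ r, 0 < r ∧ ∃ G : ℂ → ℂ, ContinuousOn G (ball u r \ {u}) ∧
    (u ∈ Cone → ∀ z, G (2 * u - z) = G z) ∧
    ∀ z ∈ ball u r \ {u}, h z - h u = exp (G z) * (z - u) ^ ex u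

theorem logc {L : ℂ → ℂ} (hL : Lin L) (u : ℂ) (r : ℝ) :
    ContinuousOn (fun z => log (L (z - u) / (z - u))) (ball u r \ {u}) :=
  (ContinuousOn.div (hL.cont.comp (by fun_prop)).continuousOn (by fun_prop)
    fun _ hz => sub_ne_zero.2 hz.2).clog fun _ hz => hL.slit _ (sub_ne_zero.2 hz.2)

theorem std_chart {z₀ u : ℂ} {r : ℝ} (hr : Good z₀ r) {L h : ℂ → ℂ} (hL : Lin L)
    (hh : ∀ z ∈ ball z₀ r, h z = L (z - z₀) ^ ex z₀) (hu : u ∈ ball z₀ r) : Std h u := by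
  obtain ⟨s, hs, hb⟩ := Metric.isOpen_iff.1 isOpen_ball u hu
  have el : ∀ z ∈ ball u s \ {u}, exp (log (L (z - u) / (z - u))) * (z - u) = L (z - u) :=
    fun z hz => by
      rw [exp_log (slitPlane_ne_zero (hL.slit _ (sub_ne_zero.2 hz.2))),
        div_mul_cancel₀ _ (sub_ne_zero.2 hz.2)]
  by_cases e : u = z₀
  · subst e
    refine ⟨s, hs, fun z => ex u * log (L (z - u) / (z - u)),
      continuousOn_const.mul (logc hL u s), fun _ z => ?_, fun z hz => ?_⟩
    · beta_reduce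
      rw [show 2 * u - z - u = -(z - u) by ring, hL.neg, neg_div_neg_eq]
    · rw [hh z (hb hz.1), hh u hu, sub_self, hL.zero, zero_pow (ex_pos u).ne', sub_zero,
        exp_nat_mul, ← mul_pow, el z hz]
  have hc : u ∉ Cone := fun h => e (hr.2.2 u hu h)
  by_cases h0 : z₀ ∈ Cone
  · have hpos : 0 < ‖u - z₀‖ := norm_pos_iff.2 (sub_ne_zero.2 e)
    obtain ⟨M, hM, eM⟩ := Lg.conv (ball u ‖u - z₀‖) (fun z => L (z - z₀ - -(u - z₀)))
      (convex_ball _ _) (hL.cont.comp (by fun_prop)).continuousOn fun z hz => hL.ne fun h => by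
        rw [mem_ball, dist_eq_norm, show z - u = -2 * (u - z₀) by linear_combination h, norm_mul]
          at hz
        simp only [norm_neg, Complex.norm_ofNat] at hz
        linarith
    have s1 : ball u (min s ‖u - z₀‖) ⊆ ball u s := ball_subset_ball (min_le_left _ _)
    have s2 : ball u (min s ‖u - z₀‖) ⊆ ball u ‖u - z₀‖ := ball_subset_ball (min_le_right _ _)
    refine ⟨min s ‖u - z₀‖, lt_min hs hpos, fun z => log (L (z - u) / (z - u)) + M z,
      (logc hL u _).add (hM.mono fun z hz => s2 hz.1), fun h => absurd h hc, fun z hz => ?_⟩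
    rw [hh z (hb (s1 hz.1)), hh u hu, ex_of h0, ex_of_not hc, pow_one, exp_add, mul_right_comm,
      el z ⟨s1 hz.1, hz.2⟩, eM z (s2 hz.1)]
    beta_reduce
    rw [hL.sub (z - z₀), hL.neg,
      show z - u = z - z₀ - (u - z₀) by ring, hL.sub (z - z₀)]
    ring
  · refine ⟨s, hs, fun z => log (L (z - u) / (z - u)), logc hL u s, fun h => absurd h hc,
      fun z hz => ?_⟩
    rw [hh z (hb hz.1), hh u hu, ex_of_not h0, ex_of_not hc, pow_one, pow_one, pow_one, el z hz,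
      ← hL.sub, sub_sub_sub_cancel_right]

variable {Θ : ℂ → S2}

theorem std_rel (hΘ : Pil Θ) {φ : S2 → ℂ} {u u' : ℂ} (e : Rel u u') (h : Std (φ ∘ Θ) u') :
    Std (φ ∘ Θ) u := by
  obtain ⟨r, hr, G, hG, hev, hh⟩ := h
  have e' : Rel u' u := (hΘ.fib _ _).1 ((hΘ.fib _ _).2 e).symm
  have hex : ex u' = ex u := by
    by_cases hc : u ∈ Cone
    · rw [ex_of hc, ex_of (e'.cone hc)]
    · rw [ex_of_not hc, ex_of_not fun h => hc (e.cone h)]
  have hu : Θ u' = Θ u := (hΘ.fib _ _).2 e'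
  rcases e with e | e
  · have m : MapsTo (fun z => z - (u - u')) (ball u r \ {u}) (ball u' r \ {u'}) := fun z hz =>
      ⟨by
        have := hz.1
        rw [mem_ball, dist_eq_norm] at this ⊢
        rwa [show z - (u - u') - u' = z - u by ring],
      fun h => by
        have h2 : z - (u - u') = u' := h
        exact hz.2 (show z = u by linear_combination h2)⟩
    refine ⟨r, hr, fun z => G (z - (u - u')), hG.comp (by fun_prop) m, fun hc z => ?_,
      fun z hz => ?_⟩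
    · beta_reduce
      rw [← hev (e'.cone hc) (z - (u - u'))]
      congr 1
      ring
    · have := hh _ (m hz)
      simp only [Function.comp] at this ⊢
      rw [hu, (hΘ.fib (z - (u - u')) z).2 (Or.inl (by simpa using Lat.neg e)), hex,
        show z - (u - u') - u' = z - u by ring] at this
      exact this
  · have m : MapsTo (fun z => u + u' - z) (ball u r \ {u}) (ball u' r \ {u'}) := fun z hz =>
      ⟨by
        have := hz.1
        rw [mem_ball, dist_eq_norm] at this ⊢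
        rwa [show u + u' - z - u' = -(z - u) by ring, norm_neg],
      fun h => by
        have h2 : u + u' - z = u' := h
        exact hz.2 (show z = u by linear_combination -h2)⟩
    refine ⟨r, hr, fun z => G (u + u' - z) + ex u * (Real.pi * I),
      (hG.comp (by fun_prop) m).add continuousOn_const, fun hc z => ?_, fun z hz => ?_⟩
    · beta_reduce
      rw [← hev (e'.cone hc) (u + u' - z)]
      congr 2
      ring
    · have := hh _ (m hz)
      simp only [Function.comp] at this ⊢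
      rw [hu, (hΘ.fib (u + u' - z) z).2 (Or.inr (by simpa using e)), hex,
        show u + u' - z - u' = -1 * (z - u) by ring] at this
      rw [this, exp_add, exp_nat_mul, exp_pi_mul_I, mul_pow, mul_assoc]

theorem same (hΘ : Pil Θ) {φ ψ : OpenPartialHomeomorph S2 ℂ} {u : ℂ} (h : Std (φ ∘ Θ) u)
    (h' : Std (ψ ∘ Θ) u) : SameOrientation φ ψ (Θ u) := by
  obtain ⟨r, hr, G, hG, hev, hh⟩ := h
  obtain ⟨r', hr', G', hG', hev', hh'⟩ := h'
  obtain ⟨s, hs⟩ := exists_good u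
  have ht : 0 < min s (min r r') := lt_min hs.1 (lt_min hr hr')
  have gt := hs.mono ht (min_le_left _ _)
  set t := min s (min r r') with htd
  have s1 : ball u t \ {u} ⊆ ball u r \ {u} := sdiff_subset_sdiff_left
    (ball_subset_ball ((min_le_right _ _).trans (min_le_left _ _)))
  have s2 : ball u t \ {u} ⊆ ball u r' \ {u} := sdiff_subset_sdiff_left
    (ball_subset_ball ((min_le_right _ _).trans (min_le_right _ _)))
  obtain ⟨L, hL, e⟩ := descend hΘ (O := ball u t \ {u}) (isOpen_ball.sdiff isClosed_singleton)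
    (G := fun z => G z - G' z) ((hG.mono s1).sub (hG'.mono s2)) fun a ha b hb h => by
      rcases gt.rel ha.1 hb.1 ((hΘ.fib _ _).1 h) with rfl | ⟨hc, rfl⟩
      · rfl
      · rw [hev hc, hev' hc]
  have sub : Θ '' ball u t \ {Θ u} ⊆ Θ '' (ball u t \ {u}) := by
    rintro _ ⟨⟨z, hz, rfl⟩, hn⟩
    exact ⟨z, ⟨hz, fun h => hn (congrArg Θ h)⟩, rfl⟩
  refine ⟨Θ '' ball u t, (hΘ.opn _ isOpen_ball).mem_nhds ⟨u, mem_ball_self ht, rfl⟩, L,
    hL.mono sub, fun y hy => ?_⟩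
  obtain ⟨z, hz, rfl⟩ := sub hy
  have a1 := hh z (s1 hz)
  have a2 := hh' z (s2 hz)
  simp only [Function.comp] at a1 a2
  rw [a1, a2, e z hz, ← mul_assoc, ← exp_add, sub_add_cancel]

theorem chart' (hΘ : Pil Θ) {z₀ : ℂ} {r : ℝ} (hr : Good z₀ r) {L : ℂ → ℂ} (hL : Lin L) :
    ∃ φ : OpenPartialHomeomorph S2 ℂ, (∀ u, Θ u ∈ φ.source → Std (φ ∘ Θ) u) ∧
      Θ z₀ ∈ φ.source ∧ φ (Θ z₀) = 0 ∧ ∀ z ∈ ball z₀ r, φ (Θ z) = L (z - z₀) ^ ex z₀ := by
  obtain ⟨φ, hs, e⟩ := chart hΘ hr hL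
  refine ⟨φ, fun u hu => ?_, hs ▸ ⟨z₀, mem_ball_self hr.1, rfl⟩, ?_, e⟩
  · rw [hs] at hu
    obtain ⟨u', hu', h⟩ := hu
    exact std_rel hΘ ((hΘ.fib _ _).1 h.symm) (std_chart hr hL e hu')
  · rw [e z₀ (mem_ball_self hr.1), sub_self, hL.zero, zero_pow (ex_pos _).ne']

end BrA

open Ch BrA in
theorem p_BR : S_BR := by
  intro Θ hΘ b f hf
  have hq := hΘ.opn.isQuotientMap hΘ.cont hΘ.surj
  refine ⟨hq.continuous_iff.2 ?_, fun p => ?_,
    {φ | ∀ u, Θ u ∈ φ.source → Std (φ ∘ Θ) u}, ⟨fun x => ?_, fun φ hφ ψ hψ x hx => ?_⟩,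
    fun p => ?_⟩
  · rw [show f ∘ Θ = Θ ∘ Bm 2 b from funext hf]
    exact hΘ.cont.comp (Bm_cont _ _)
  · obtain ⟨w, rfl⟩ := hΘ.surj p
    refine ⟨Θ ⟨(w.re - b * w.im / 2) / 2, w.im / 2⟩, ?_⟩
    rw [hf]
    congr 1
    exact Complex.ext (by simp [Bm]; ring) (by simp [Bm]; ring)
  · obtain ⟨z, rfl⟩ := hΘ.surj x
    obtain ⟨r, hr⟩ := exists_good z
    obtain ⟨φ, h1, h2, -⟩ := chart' hΘ hr lin_id
    exact ⟨φ, h1, h2⟩
  · obtain ⟨z, rfl⟩ := hΘ.surj x
    exact same hΘ (hφ z hx.1) (hψ z hx.2)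
  · obtain ⟨z, rfl⟩ := hΘ.surj p
    obtain ⟨r, hr⟩ := exists_good z
    obtain ⟨s, hs⟩ := exists_good (Bm 2 b z)
    obtain ⟨φ, a1, a2, a3, a4⟩ := chart' hΘ hr (lin_Bm b)
    obtain ⟨ψ, b1, b2, b3, b4⟩ := chart' hΘ hs lin_id
    obtain ⟨d, hd, ed⟩ : ∃ d, 1 ≤ d ∧ ex (Bm 2 b z) = ex z * d := by
      by_cases hc : z ∈ Cone
      · exact ⟨1, le_rfl, by rw [ex_of hc, ex_of (Bm_cone _ _ hc)]⟩
      · exact ⟨_, ex_pos (Bm 2 b z), by rw [ex_of_not hc, one_mul]⟩
    refine ⟨φ, a1, ψ, b1, d, hd, a2, hf z ▸ b2, a3, hf z ▸ b3, ?_⟩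
    have ho : IsOpen (ball z r ∩ Bm 2 b ⁻¹' ball (Bm 2 b z) s) :=
      isOpen_ball.inter (isOpen_ball.preimage (Bm_cont _ _))
    filter_upwards [(hΘ.opn _ ho).mem_nhds ⟨z, ⟨mem_ball_self hr.1, mem_ball_self hs.1⟩, rfl⟩]
    rintro _ ⟨w, hw, rfl⟩
    rw [hf, b4 _ hw.2, a4 _ hw.1, ed, pow_mul, Bm_sub, id]

end Pool.Agent.P.MP_cb5d8b_an
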