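import Pool.Agent.P.MP_cb5d8b_an.Base

/-! Charts of the pillowcase. -/

namespace Pool.Agent.P.MP_cb5d8b_an

open Set Metric Filter Topology Complex

namespace Ch

open Classical in
/-- The order of the stabiliser. -/
noncomputable def ex (z : ℂ) : ℕ := if z ∈ Cone then 2 else 1

theorem ex_of {z : ℂ} (h : z ∈ Cone) : ex z = 2 := if_pos h
theorem ex_of_not {z : ℂ} (h : z ∉ Cone) : ex z = 1 := if_neg h
theorem ex_pos (z : ℂ) : 0 < ex z := by
  by_cases h : z ∈ Cone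
  · rw [ex_of h]; norm_num
  · rw [ex_of_not h]; norm_num

/-- A small disc. -/
def Good (z : ℂ) (r : ℝ) : Prop := 0 < r ∧ r ≤ 1 / 4 ∧ ∀ w ∈ ball z r, w ∈ Cone → w = z

theorem Good.mono {z : ℂ} {r s : ℝ} (h : Good z r) (hs : 0 < s) (hsr : s ≤ r) : Good z s :=
  ⟨hs, hsr.trans h.2.1, fun w hw => h.2.2 w (ball_subset_ball hsr hw)⟩

theorem exists_good (z : ℂ) : ∃ r, Good z r := by
  by_cases h : z ∈ Cone
  · refine ⟨1 / 4, by norm_num, le_rfl, fun w hw hc => ?_⟩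
    have := Lat.eq_zero (Lat.sub hc h) (by
      rw [← mul_sub, norm_mul, Complex.norm_two, ← dist_eq_norm]
      linarith [mem_ball.1 hw])
    linear_combination this / 2
  · obtain ⟨r, hr, hb⟩ := Metric.isOpen_iff.1 Cone.closed.isOpen_compl z h
    exact ⟨min r (1 / 4), lt_min hr (by norm_num), min_le_right _ _, fun w hw hc =>
      absurd hc (hb (ball_subset_ball (min_le_left _ _) hw))⟩

theorem Good.rel {z u v : ℂ} {r : ℝ} (h : Good z r) (hu : u ∈ ball z r) (hv : v ∈ ball z r)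
    (e : Rel u v) : u = v ∨ (z ∈ Cone ∧ u = 2 * z - v) := by
  rcases e with e | e
  · refine Or.inl (sub_eq_zero.1 (Lat.eq_zero e ?_))
    rw [← dist_eq_norm]
    linarith [dist_triangle_right u v z, mem_ball.1 hu, mem_ball.1 hv, h.2.1]
  · have hm : (1 / 2 : ℝ) • u + (1 / 2 : ℝ) • v ∈ ball z r :=
      convex_ball z r hu hv (by norm_num) (by norm_num) (by norm_num)
    have e2 : 2 * ((1 / 2 : ℝ) • u + (1 / 2 : ℝ) • v) = u + v := by
      simp only [real_smul]; push_cast; ring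
    have hc : (1 / 2 : ℝ) • u + (1 / 2 : ℝ) • v ∈ Cone := by
      show _ ∈ Lat
      rwa [e2]
    have := h.2.2 _ hm hc
    rw [this] at hc e2
    exact Or.inr ⟨hc, by rw [e2]; ring⟩

/-- Admissible linear coordinates. -/
structure Lin (L : ℂ → ℂ) : Prop where
  cont : Continuous L
  opn : IsOpenMap L
  sub : ∀ v w, L (v - w) = L v - L w
  slit : ∀ v, v ≠ 0 → L v / v ∈ slitPlane

theorem Lin.zero {L : ℂ → ℂ} (h : Lin L) : L 0 = 0 := by simpa using h.sub 0 0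

theorem Lin.neg {L : ℂ → ℂ} (h : Lin L) (v : ℂ) : L (-v) = -L v := by
  simpa [h.zero] using h.sub 0 v

theorem Lin.ne {L : ℂ → ℂ} (h : Lin L) {v : ℂ} (hv : v ≠ 0) : L v ≠ 0 := fun e =>
  slitPlane_ne_zero (h.slit v hv) (by rw [e, zero_div])

theorem Lin.inj {L : ℂ → ℂ} (h : Lin L) : Function.Injective L := fun v w e => by
  by_contra hn
  exact h.ne (sub_ne_zero.2 hn) (by rw [h.sub, e, sub_self])

theorem lin_id : Lin id :=
  ⟨continuous_id, IsOpenMap.id, fun _ _ => rfl, fun v hv => by simp [div_self hv]⟩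

theorem lin_Bm (b : ℤ) : Lin (Bm 2 b) := by
  refine ⟨Bm_cont _ _, ?_, Bm_sub _ _, fun v hv => ?_⟩
  · refine IsOpenMap.of_inverse (f := Bm 2 b)
      (f' := fun z : ℂ => (((z.re - b * z.im / 2) / 2 : ℝ) : ℂ) + ((z.im / 2 : ℝ) : ℂ) * I)
      (by fun_prop) (fun z => ?_) (fun z => ?_)
    · exact Complex.ext (by simp [Bm]; ring) (by simp [Bm]; ring)
    · exact Complex.ext (by simp [Bm]; ring) (by simp [Bm])
  · by_contra hn
    rw [mem_slitPlane_iff, not_or, not_lt, not_not] at hn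
    obtain ⟨t, ht⟩ : ∃ t, t = Bm 2 b v / v := ⟨_, rfl⟩
    rw [← ht] at hn
    have e : Bm 2 b v = t * v := by rw [ht, div_mul_cancel₀ _ hv]
    have e1 := congrArg re e
    have e2 := congrArg im e
    simp only [Bm, mul_re, mul_im, hn.2, zero_mul, sub_zero, add_zero] at e1 e2
    push_cast at e1 e2
    have y0 : v.im = 0 := by
      rcases mul_eq_zero.1 (show (2 - t.re) * v.im = 0 by linarith) with h | h
      · linarith [hn.1]
      · exact h
    have x0 : v.re = 0 := by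
      rw [y0] at e1
      rcases mul_eq_zero.1 (show (2 - t.re) * v.re = 0 by linarith) with h | h
      · linarith [hn.1]
      · exact h
    exact hv (Complex.ext x0 y0)

variable {Θ : ℂ → S2}

/-- Compatible functions descend to the sphere. -/
theorem descend (hΘ : Pil Θ) {O : Set ℂ} (hO : IsOpen O) {G : ℂ → ℂ} (hG : ContinuousOn G O)
    (hc : ∀ u ∈ O, ∀ v ∈ O, Θ u = Θ v → G u = G v) :
    ∃ L : S2 → ℂ, ContinuousOn L (Θ '' O) ∧ ∀ z ∈ O, L (Θ z) = G z := by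
  have e : ∀ z ∈ O, G (Function.invFunOn Θ O (Θ z)) = G z := fun z hz =>
    hc _ (Function.invFunOn_mem ⟨z, hz, rfl⟩) z hz (Function.invFunOn_eq ⟨z, hz, rfl⟩)
  refine ⟨fun y => G (Function.invFunOn Θ O y), ?_, e⟩
  rw [continuousOn_open_iff (hΘ.opn _ hO)]
  intro W hW
  have : Θ '' O ∩ (fun y => G (Function.invFunOn Θ O y)) ⁻¹' W = Θ '' (O ∩ G ⁻¹' W) := by
    ext y
    constructor
    · rintro ⟨⟨z, hz, rfl⟩, h⟩
      exact ⟨z, ⟨hz, by rwa [mem_preimage, e z hz] at h⟩, rfl⟩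
    · rintro ⟨z, hz, rfl⟩
      exact ⟨⟨z, hz.1, rfl⟩, by rw [mem_preimage, e z hz.1]; exact hz.2⟩
  rw [this]
  exact hΘ.opn _ (hG.isOpen_inter_preimage hO hW)

theorem chart (hΘ : Pil Θ) {z₀ : ℂ} {r : ℝ} (hr : Good z₀ r) {L : ℂ → ℂ} (hL : Lin L) :
    ∃ φ : OpenPartialHomeomorph S2 ℂ, φ.source = Θ '' ball z₀ r ∧
      ∀ z ∈ ball z₀ r, φ (Θ z) = L (z - z₀) ^ ex z₀ := by
  have hcont : Continuous fun z => L (z - z₀) ^ ex z₀ := (hL.cont.comp (by fun_prop)).pow _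
  obtain ⟨F, hF, e⟩ := descend hΘ isOpen_ball (O := ball z₀ r) hcont.continuousOn
    fun u hu v hv h => by
      rcases hr.rel hu hv ((hΘ.fib _ _).1 h) with rfl | ⟨hc, rfl⟩
      · rfl
      · rw [ex_of hc, show 2 * z₀ - v - z₀ = -(v - z₀) by ring, hL.neg, neg_sq]
  have hi : InjOn F (Θ '' ball z₀ r) := by
    rintro _ ⟨u, hu, rfl⟩ _ ⟨v, hv, rfl⟩ h
    rw [e u hu, e v hv] at h
    by_cases hc : z₀ ∈ Cone
    · rw [ex_of hc] at h
      rcases sq_eq_sq_iff_eq_or_eq_neg.1 h with h | h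
      · rw [sub_left_injective (hL.inj h)]
      · rw [← hL.neg] at h
        refine (hΘ.fib _ _).2 (Or.inr ?_)
        rwa [show u + v = 2 * z₀ by linear_combination hL.inj h]
    · rw [ex_of_not hc, pow_one, pow_one] at h
      rw [sub_left_injective (hL.inj h)]
  have ho : IsOpenMap ((Θ '' ball z₀ r).domRestrict F) := by
    intro V hV
    obtain ⟨W, hW, rfl⟩ := isOpen_induced_iff.1 hV
    have : NeZero (ex z₀) := ⟨(ex_pos z₀).ne'⟩
    have : (Θ '' ball z₀ r).domRestrict F '' (Subtype.val ⁻¹' W) =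
        (fun w => w ^ ex z₀) '' (L '' ((fun z => z - z₀) '' (ball z₀ r ∩ Θ ⁻¹' W))) := by
      rw [image_image, image_image]
      ext w
      constructor
      · rintro ⟨⟨_, z, hz, rfl⟩, h, rfl⟩
        exact ⟨z, ⟨hz, h⟩, (e z hz).symm⟩
      · rintro ⟨z, hz, rfl⟩
        exact ⟨⟨_, z, hz.1, rfl⟩, hz.2, e z hz.1⟩
    rw [this]
    exact (isOpenQuotientMap_pow _).isOpenMap _ (hL.opn _
      (isOpenMap_sub_right z₀ _ (isOpen_ball.inter (hW.preimage hΘ.cont))))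
  have : Nonempty S2 := ⟨Θ 0⟩
  exact ⟨OpenPartialHomeomorph.ofContinuousOpenRestrict (hi.toPartialEquiv F _) hF ho
    (hΘ.opn _ isOpen_ball), rfl, e⟩

end Ch

end Pool.Agent.P.MP_cb5d8b_an
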