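import Pool.Agent.P.MP_cb5d8b_an.Base

/-! Two periodic curves with independent periods meet. -/

open Set Complex
open scoped Real

namespace Pool.Agent.P.MP_cb5d8b_an.Cross

/-- a continuous map of the plane at bounded distance from the identity has a zero -/
theorem exists_zero_of_bounded (F : ℂ → ℂ) (hF : Continuous F) (C : ℝ)
    (hC : ∀ z, ‖F z - z‖ ≤ C) : ∃ z, F z = 0 := by
  by_contra hne
  push Not at hne
  have hsc : IsSimplyConnected (univ : Set ℂ) := by
    have : ContractibleSpace (univ : Set ℂ) := convex_univ.contractibleSpace univ_nonempty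
    exact (inferInstance : SimplyConnectedSpace (univ : Set ℂ))
  obtain ⟨h, hc, hh⟩ := exists_continuousOn_eqOn_exp_comp hsc isOpen_univ hF.continuousOn
    (by rintro ⟨z, -, hz⟩; exact hne z hz)
  rw [continuousOn_univ] at hc
  have C0 : 0 ≤ C := (norm_nonneg _).trans (hC 0)
  set R : ℝ := C + 1 with hR
  have R0 : 0 < R := by linarith
  have R0' : (R : ℂ) ≠ 0 := by exact_mod_cast R0.ne'
  set z : ℝ → ℂ := fun t => R * exp (t * I) with hz
  have zc : Continuous z := by fun_prop
  have zn : ∀ t, ‖z t‖ = R := fun t => by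
    simp [hz, norm_exp_ofReal_mul_I, abs_of_pos R0]
  have z0 : ∀ t, z t ≠ 0 := fun t h0 => by
    have := zn t
    rw [h0, norm_zero] at this
    linarith
  set w : ℝ → ℂ := fun t => F (z t) / z t with hw
  have wc : Continuous w := (hF.comp zc).div zc z0
  have ws : ∀ t, w t ∈ slitPlane := fun t => by
    have e : w t = 1 + (F (z t) - z t) / z t := by
      rw [hw]
      field_simp [z0 t]
      ring
    rw [e]
    refine mem_slitPlane_of_norm_lt_one ?_
    rw [norm_div, zn, div_lt_one R0]
    linarith [hC (z t)]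
  set k : ℝ → ℂ := fun t => h (z t) - log R - t * I - log (w t) with hk
  have kc : Continuous k := by
    have : Continuous fun t => log (w t) := wc.clog ws
    have h2 : Continuous fun t => h (z t) := hc.comp zc
    fun_prop
  have ke : ∀ t, exp (k t) = 1 := fun t => by
    have h1 : exp (h (z t)) = F (z t) := hh (mem_univ _)
    have h2 : w t ≠ 0 := slitPlane_ne_zero (ws t)
    rw [hk]
    simp only [exp_sub, h1, exp_log R0', exp_log h2]
    rw [hw]
    have := hne (z t)
    have h3 := z0 t
    have h4 := exp_ne_zero (t * I)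
    simp only [hz] at this h3 ⊢
    field_simp
  have key : k 0 = k (2 * π) := by
    have hd : IsPreconnected (univ : Set ℝ) := isPreconnected_univ
    have hm : MapsTo k univ (AddSubgroup.zmultiples (2 * π * I : ℂ) : Set ℂ) := fun t _ => by
      obtain ⟨n, hn⟩ := exp_eq_one_iff.1 (ke t)
      exact ⟨n, by simp [hn]⟩
    have hdis : IsDiscrete (AddSubgroup.zmultiples (2 * π * I : ℂ) : Set ℂ) :=
      ⟨inferInstanceAs (DiscreteTopology (AddSubgroup.zmultiples (2 * π * I : ℂ)))⟩
    exact hd.constant_of_mapsTo hdis kc.continuousOn hm (mem_univ _) (mem_univ _)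
  have z2 : z (2 * π) = z 0 := by
    simp [hz]
  have w2 : w (2 * π) = w 0 := by
    simp only [hw, z2]
  simp only [hk, z2, w2] at key
  have : (2 * π * I : ℂ) = 0 := by
    push_cast at key
    linear_combination key
  exact two_pi_I_ne_zero this

/-- the periodic curve through a path -/
theorem exists_periodic {A : Set ℂ} {x u : ℂ} (h : JoinedIn A x (x + u)) :
    ∃ (G : ℝ → ℂ) (C : ℝ), Continuous G ∧ (∀ s : ℝ, ‖G s - s * u‖ ≤ C) ∧
      ∀ s, ∃ a ∈ A, ∃ i : ℤ, G s = a + i * u := by
  obtain ⟨p, hp⟩ := h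
  set g : ℝ → ℂ := fun t => p.extend t - t * u with hg
  have gc : Continuous g := by
    have := p.continuous_extend
    fun_prop
  have g01 : g 0 = g 1 := by simp [hg]
  have c1 : Continuous (g ∘ Int.fract) := gc.continuousOn.comp_fract'' g01
  obtain ⟨C, hC⟩ := (isCompact_Icc (a := (0 : ℝ)) (b := 1)).exists_bound_of_continuousOn
    gc.continuousOn
  have fm : ∀ s : ℝ, Int.fract s ∈ Icc (0 : ℝ) 1 := fun s =>
    ⟨Int.fract_nonneg s, (Int.fract_lt_one s).le⟩
  refine ⟨fun s => g (Int.fract s) + s * u, C, c1.add (by fun_prop), fun s => ?_, fun s => ?_⟩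
  · simpa using hC _ (fm s)
  · refine ⟨p.extend (Int.fract s), ?_, ⌊s⌋, ?_⟩
    · rw [p.extend_apply (fm s)]
      exact hp _
    · simp only [hg]
      rw [Int.fract]
      push_cast
      ring

/-- two periodic curves with independent periods meet -/
theorem cross {A B : Set ℂ} {x y u v : ℂ} (hA : JoinedIn A x (x + u)) (hB : JoinedIn B y (y + v))
    (hd : u.re * v.im - u.im * v.re ≠ 0) :
    ∃ a ∈ A, ∃ b ∈ B, ∃ i j : ℤ, a + i * u = b + j * v := by
  obtain ⟨G, C, Gc, GC, GA⟩ := exists_periodic hA
  obtain ⟨H, D, Hc, HD, HB⟩ := exists_periodic hB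
  set δ : ℝ := u.re * v.im - u.im * v.re with hδ
  -- coordinates of a vector in the basis `u, -v`
  set M : ℂ → ℂ := fun p => ((p.re * v.im - p.im * v.re) / δ : ℝ) +
    ((p.re * u.im - p.im * u.re) / δ : ℝ) * I with hM
  have Mc : Continuous M := by fun_prop
  set K : ℝ := (|v.im| + |v.re| + |u.im| + |u.re|) / |δ| with hK
  have d0 : 0 < |δ| := abs_pos.2 hd
  have Mb : ∀ p, ‖M p‖ ≤ K * ‖p‖ := fun p => by
    have h1 : |p.re| ≤ ‖p‖ := abs_re_le_norm p
    have h2 : |p.im| ≤ ‖p‖ := abs_im_le_norm p
    have e1 : ∀ a b : ℝ, |(p.re * a - p.im * b) / δ| ≤ (|a| + |b|) / |δ| * ‖p‖ := fun a b => by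
      rw [abs_div, div_mul_eq_mul_div]
      refine div_le_div_of_nonneg_right ?_ d0.le
      refine (abs_sub _ _).trans ?_
      rw [abs_mul, abs_mul]
      nlinarith [abs_nonneg a, abs_nonneg b]
    refine (norm_add_le _ _).trans ?_
    rw [norm_mul, norm_I, mul_one, norm_real, norm_real, Real.norm_eq_abs, Real.norm_eq_abs]
    refine (add_le_add (e1 _ _) (e1 _ _)).trans (le_of_eq ?_)
    rw [hK]
    ring
  have K0 : 0 ≤ K := by positivity
  have Mre : ∀ p, (M p).re = (p.re * v.im - p.im * v.re) / δ := fun p => by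
    simp only [hM, add_re, ofReal_re, mul_re, I_re, ofReal_im, I_im]
    ring
  have Mim : ∀ p, (M p).im = (p.re * u.im - p.im * u.re) / δ := fun p => by
    simp only [hM, add_im, ofReal_re, mul_im, I_re, ofReal_im, I_im]
    ring
  obtain ⟨z, hz⟩ := exists_zero_of_bounded (fun z => M (G z.re - H z.im)) (by fun_prop)
    (K * (C + D)) fun z => by
      have e : M (G z.re - H z.im) - z = M ((G z.re - z.re * u) - (H z.im - z.im * v)) := by
        apply Complex.ext
        · simp only [sub_re, Mre, sub_im, mul_re, mul_im, ofReal_re, ofReal_im]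
          field_simp
          rw [hδ]
          ring
        · simp only [sub_re, Mim, sub_im, mul_re, mul_im, ofReal_re, ofReal_im]
          field_simp
          rw [hδ]
          ring
      rw [e]
      refine (Mb _).trans (mul_le_mul_of_nonneg_left ?_ K0)
      exact (norm_sub_le _ _).trans (add_le_add (GC _) (HD _))
  set p := G z.re - H z.im with hp
  have h1 : p.re * v.im - p.im * v.re = 0 := by
    have := congrArg Complex.re hz
    rw [Mre, zero_re, div_eq_zero_iff] at this
    exact this.resolve_right hd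
  have h2 : p.re * u.im - p.im * u.re = 0 := by
    have := congrArg Complex.im hz
    rw [Mim, zero_im, div_eq_zero_iff] at this
    exact this.resolve_right hd
  have p1 : p.re = 0 := by
    have : p.re * δ = 0 := by rw [hδ]; linear_combination u.re * h1 - v.re * h2
    exact (mul_eq_zero.1 this).resolve_right hd
  have p2 : p.im = 0 := by
    have : p.im * δ = 0 := by rw [hδ]; linear_combination u.im * h1 - v.im * h2
    exact (mul_eq_zero.1 this).resolve_right hd
  have p0 : G z.re = H z.im := sub_eq_zero.1 (Complex.ext p1 p2)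
  obtain ⟨a, ha, i, hi⟩ := GA z.re
  obtain ⟨b, hb, j, hj⟩ := HB z.im
  exact ⟨a, ha, b, hb, i, j, by rw [← hi, ← hj, p0]⟩

end Pool.Agent.P.MP_cb5d8b_an.Cross
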