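import Mathlib

/-!
Thurston maps of the 2-sphere, expansion, graphs and trees.
-/

namespace Pool.Agent.P.MP_cb5d8b_an

open Set Metric Filter Topology

/-- The round 2-sphere in Euclidean 3-space. -/
abbrev S2 : Type := sphere (0 : EuclideanSpace ℝ (Fin 3)) 1

variable {X : Type} [TopologicalSpace X]

/-- The charts `φ` and `ψ` give the same orientation at `x`: the quotient
`(φ y - φ x) / (ψ y - ψ x)` has a continuous logarithm on a punctured neighbourhood of `x`, that
is, small loops around `x` have the same winding number in both charts. -/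
def SameOrientation (φ ψ : OpenPartialHomeomorph X ℂ) (x : X) : Prop :=
  ∃ U ∈ 𝓝 x, ∃ L : X → ℂ, ContinuousOn L (U \ {x}) ∧
    ∀ y ∈ U \ {x}, φ y - φ x = Complex.exp (L y) * (ψ y - ψ x)

/-- An oriented atlas of topological charts. -/
def IsOrientedAtlas (𝒜 : Set (OpenPartialHomeomorph X ℂ)) : Prop :=
  (∀ x : X, ∃ φ ∈ 𝒜, x ∈ φ.source) ∧
    ∀ φ ∈ 𝒜, ∀ ψ ∈ 𝒜, ∀ x ∈ φ.source ∩ ψ.source, SameOrientation φ ψ x

/-- An orientation-preserving branched covering: a continuous surjection which near every point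
has the form `z ↦ z ^ d`, `d ≥ 1`, in charts of one oriented atlas. -/
def IsBranchedCovering (f : X → X) : Prop :=
  Continuous f ∧ Function.Surjective f ∧
    ∃ 𝒜 : Set (OpenPartialHomeomorph X ℂ), IsOrientedAtlas 𝒜 ∧
      ∀ p : X, ∃ φ ∈ 𝒜, ∃ ψ ∈ 𝒜, ∃ d : ℕ, 1 ≤ d ∧ p ∈ φ.source ∧ f p ∈ ψ.source ∧
        φ p = 0 ∧ ψ (f p) = 0 ∧ ∀ᶠ x in 𝓝 p, ψ (f x) = φ x ^ d

/-- The points where `f` is not a local homeomorphism. -/
def crit (f : X → X) : Set X := {p | ¬ IsLocalHomeomorphOn f {p}}

/-- The postcritical set. -/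
def post (f : X → X) : Set X := ⋃ n ≥ 1, f^[n] '' crit f

/-- The degree of a branched covering is `d`: every point that is not a critical value has
exactly `d` preimages. -/
def HasDegree (f : X → X) (d : ℕ) : Prop := ∀ y ∉ f '' crit f, (f ⁻¹' {y}).ncard = d

/-- A Thurston map: an orientation-preserving branched covering of degree at least two with
finite postcritical set. -/
def IsThurston (f : X → X) : Prop :=
  IsBranchedCovering f ∧ (∃ d : ℕ, 2 ≤ d ∧ HasDegree f d) ∧ (post f).Finite

/-- A Jordan curve. -/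
def IsJordanCurve (C : Set X) : Prop :=
  ∃ γ : Circle → X, Continuous γ ∧ Function.Injective γ ∧ range γ = C

/-- Expansion: for some Jordan curve `C` through the postcritical set the diameters of the
components of the complement of the preimage of `C` under the `n`-th iterate tend to zero
uniformly. -/
def IsExpanding {X : Type} [MetricSpace X] (f : X → X) : Prop :=
  ∃ C : Set X, IsJordanCurve C ∧ post f ⊆ C ∧
    ∀ ε : ℝ, 0 < ε → ∀ᶠ n : ℕ in atTop, ∀ x : X,
      diam (connectedComponentIn (f^[n] ⁻¹' C)ᶜ x) ≤ ε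

/-- A graph: a connected finite union of arcs, two of which meet at most in common endpoints. -/
def IsGraph (G : Set X) : Prop :=
  IsConnected G ∧ ∃ (m : ℕ) (a : Fin m → unitInterval → X),
    (∀ i, Continuous (a i) ∧ Function.Injective (a i)) ∧ G = ⋃ i, range (a i) ∧
      ∀ i j, i ≠ j → range (a i) ∩ range (a j) ⊆ {a i 0, a i 1} ∩ {a j 0, a j 1}

/-- A tree: a graph with connected complement. -/
def IsTree (T : Set X) : Prop := IsGraph T ∧ IsConnected Tᶜ

end Pool.Agent.P.MP_cb5d8b_an
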