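import Pool.Agent.P.MP_cb5d8b_an.Cross

/-! The index of the lattice spanned by two integer vectors is at least the determinant. -/

open Set

namespace Pool.Agent.P.MP_cb5d8b_an.Idx

/-- integer form: labels in `s`, one integer vector for each label, a labelled vector in every
class modulo `(a, b)` and `(c, d)` -/
theorem int_le {ι : Type*} (s : Finset ι) (P : ι → ℤ → ℤ → Prop) (a b c d : ℤ)
    (hP : ∀ i ∈ s, ∀ x y x' y', P i x y → P i x' y' → x = x' ∧ y = y')
    (h : ∀ x y : ℤ, ∃ i ∈ s, ∃ m n : ℤ, P i (x + m * a + n * c) (y + m * b + n * d)) :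
    |a * d - b * c| ≤ s.card := by
  classical
  rcases eq_or_ne (a * d - b * c) 0 with h0 | h0
  · rw [h0, abs_zero]
    positivity
  have g0 : 0 < Int.gcd b d := Int.gcd_pos_iff.2 (by
    by_contra hc
    push Not at hc
    simp [hc.1, hc.2] at h0)
  obtain ⟨b', d', hcop, hb, hd⟩ := Int.exists_gcd_one g0
  set g : ℤ := (Int.gcd b d : ℤ) with hg
  have g1 : 0 < g := Int.natCast_pos.2 g0
  set e : ℤ := a * d' - b' * c with he
  have hde : a * d - b * c = e * g := by rw [hb, hd, he]; ring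
  choose i hi m n hmn using h
  have key := Finset.card_le_card_of_injOn (s := Finset.Ico 0 |e| ×ˢ Finset.Ico 0 g) (t := s)
    (fun p => i p.1 p.2) (fun p _ => hi p.1 p.2) (by
      rintro ⟨x, y⟩ hp ⟨x', y'⟩ hp' hii
      simp only [Finset.coe_product, Finset.coe_Ico, mem_prod, mem_Ico] at hp hp' hii
      obtain ⟨h1, h2⟩ := hP _ (hi x y) _ _ _ _ (hmn x y) (hii ▸ hmn x' y')
      set M := m x' y' - m x y with hM
      set N := n x' y' - n x y with hN
      have e1 : x - x' = M * a + N * c := by rw [hM, hN]; linarith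
      have e2 : y - y' = (M * b' + N * d') * g := by
        rw [hM, hN]
        linear_combination h2 + (m x' y' - m x y) * hb + (n x' y' - n x y) * hd
      have e3 : y - y' = 0 := Int.eq_zero_of_abs_lt_dvd ⟨_, e2.trans (mul_comm _ _)⟩
        (abs_lt.2 ⟨by linarith [hp.2.1, hp'.2.2], by linarith [hp.2.2, hp'.2.1]⟩)
      have e4 : M * b' + N * d' = 0 := (mul_eq_zero.1 (e2.symm.trans e3)).resolve_right g1.ne'
      obtain ⟨p, q, hpq⟩ := Int.isCoprime_iff_gcd_eq_one.2 hcop
      have e5 : x - x' = e * (q * M - p * N) := by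
        rw [e1, he]
        linear_combination (-(M * a + N * c)) * hpq + (a * p + c * q) * e4
      have e6 : x - x' = 0 := Int.eq_zero_of_abs_lt_dvd ((abs_dvd _ _).2 ⟨_, e5⟩)
        (abs_lt.2 ⟨by linarith [hp.1.1, hp'.1.2], by linarith [hp.1.2, hp'.1.1]⟩)
      exact Prod.ext (sub_eq_zero.1 e6) (sub_eq_zero.1 e3))
  rw [Finset.card_product, Int.card_Ico, Int.card_Ico] at key
  zify at key
  rw [Int.toNat_of_nonneg (by simp), Int.toNat_of_nonneg (by simp [g1.le])] at key
  rw [hde, abs_mul, abs_of_pos g1]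
  simpa using key

/-- labelled form in the complex plane -/
theorem det_le {ι : Type*} (s : Finset ι) (P : ι → ℂ → Prop) {u v : ℂ} (hu : u ∈ Lat)
    (hv : v ∈ Lat) (hP : ∀ i ∈ s, ∀ w w', P i w → P i w' → w = w')
    (h : ∀ z ∈ Lat, ∃ i ∈ s, ∃ m n : ℤ, P i (z + m * u + n * v)) :
    |u.re * v.im - u.im * v.re| ≤ s.card := by
  obtain ⟨a, b, ha, hb⟩ := hu
  obtain ⟨c, d, hc, hd⟩ := hv
  have := int_le s (fun i x y => P i ⟨x, y⟩) a b c d (fun i hi x y x' y' h1 h2 => by
    have := hP i hi _ _ h1 h2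
    simp only [Complex.mk.injEq, Int.cast_inj] at this
    exact this) fun x y => by
    obtain ⟨i, hi, m, n, h1⟩ := h ⟨x, y⟩ ⟨x, y, rfl, rfl⟩
    refine ⟨i, hi, m, n, ?_⟩
    convert h1 using 1
    apply Complex.ext <;> simp [ha, hb, hc, hd]
  rw [ha, hb, hc, hd]
  exact_mod_cast this

/-- a finite set that meets every class has at least `|det u v|` points -/
theorem det_le_card (D : Finset ℂ) {u v : ℂ} (hu : u ∈ Lat) (hv : v ∈ Lat)
    (h : ∀ z ∈ Lat, ∃ w ∈ D, ∃ m n : ℤ, w = z + m * u + n * v) :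
    |u.re * v.im - u.im * v.re| ≤ D.card :=
  det_le D (fun i w => i = w) hu hv (fun _ _ _ _ h1 h2 => h1.symm.trans h2) h

end Pool.Agent.P.MP_cb5d8b_an.Idx
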