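import Pool.Agent.P.MP_cb5d8b_an.Cross

/-! The plane theorem. -/

open Set Complex

namespace Pool.Agent.P.MP_cb5d8b_an

namespace Plane

theorem lat_finite (R : ℝ) : {l ∈ Lat | ‖l‖ ≤ R}.Finite := by
  obtain ⟨N, hN⟩ := exists_nat_ge R
  refine (((finite_Icc (-(N : ℤ)) N).prod (finite_Icc (-(N : ℤ)) N)).image
    fun p : ℤ × ℤ => (⟨p.1, p.2⟩ : ℂ)).subset ?_
  rintro l ⟨⟨m, n, h1, h2⟩, hl⟩
  have a1 := (abs_re_le_norm l).trans (hl.trans hN)
  have a2 := (abs_im_le_norm l).trans (hl.trans hN)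
  rw [h1] at a1
  rw [h2] at a2
  have b1 : |m| ≤ (N : ℤ) := by exact_mod_cast a1
  have b2 : |n| ≤ (N : ℤ) := by exact_mod_cast a2
  exact ⟨(m, n), ⟨abs_le.1 b1, abs_le.1 b2⟩, Complex.ext h1.symm h2.symm⟩

theorem lat_int_mul {z : ℂ} (hz : z ∈ Lat) (k : ℤ) : k * z ∈ Lat := by
  obtain ⟨m, n, h1, h2⟩ := hz
  exact ⟨k * m, k * n, by simp [h1], by simp [h2]⟩

theorem lat_int (k : ℤ) : (k : ℂ) ∈ Lat := ⟨k, 0, by simp, by simp⟩

theorem Bm_int_mul (a c k : ℤ) (z : ℂ) : Bm a c (k * z) = k * Bm a c z :=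
  Complex.ext (by simp [Bm]; ring) (by simp [Bm]; ring)

/-- the class modulo the lattice of a point whose image is a cone point -/
def Cl (a c : ℤ) (x : ℂ) (r s : ℤ) : Prop :=
  ∃ k l : ℤ, 2 * a * x.im = 2 * a * k + r ∧ 2 * a * x.re + 2 * c * x.im = 2 * c * k + 2 * a * l + s

theorem cl_exists {a c : ℤ} (ha : 1 ≤ a) {x : ℂ} (hx : Bm a c x ∈ Cone) :
    ∃ r ∈ Finset.Ico 0 (2 * a), ∃ s ∈ Finset.Ico 0 (2 * a), Cl a c x r s := by
  obtain ⟨m, n, h1, h2⟩ := hx
  simp [Bm] at h1 h2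
  have a0 : (0 : ℤ) < 2 * a := by omega
  refine ⟨n % (2 * a), Finset.mem_Ico.2 ⟨Int.emod_nonneg _ a0.ne', Int.emod_lt_of_pos _ a0⟩,
    (m - 2 * c * (n / (2 * a))) % (2 * a),
    Finset.mem_Ico.2 ⟨Int.emod_nonneg _ a0.ne', Int.emod_lt_of_pos _ a0⟩,
    n / (2 * a), (m - 2 * c * (n / (2 * a))) / (2 * a), ?_, ?_⟩
  · have := Int.mul_ediv_add_emod n (2 * a)
    have h3 : ((2 * a * (n / (2 * a)) + n % (2 * a) : ℤ) : ℝ) = n := by rw [this]
    push_cast at h3 ⊢
    linarith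
  · have := Int.mul_ediv_add_emod (m - 2 * c * (n / (2 * a))) (2 * a)
    have h3 : ((2 * a * ((m - 2 * c * (n / (2 * a))) / (2 * a)) +
        (m - 2 * c * (n / (2 * a))) % (2 * a) : ℤ) : ℝ) = (m - 2 * c * (n / (2 * a)) : ℤ) := by
      rw [this]
    generalize (m - 2 * c * (n / (2 * a))) / (2 * a) = u at *
    generalize (m - 2 * c * (n / (2 * a))) % (2 * a) = v at *
    generalize n / (2 * a) = w at *
    push_cast at h3 ⊢
    linarith

theorem cl_unique {a c : ℤ} (ha : 1 ≤ a) {x x' : ℂ} {r s : ℤ} (h : Cl a c x r s)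
    (h' : Cl a c x' r s) : x - x' ∈ Lat := by
  obtain ⟨k, l, h1, h2⟩ := h
  obtain ⟨k', l', h1', h2'⟩ := h'
  have a0 : (2 * a : ℝ) ≠ 0 := by
    have : (1 : ℝ) ≤ a := by exact_mod_cast ha
    positivity
  have e1 : x.im - x'.im = k - k' := mul_left_cancel₀ a0 (by linarith)
  have e2 : x.re - x'.re = l - l' :=
    mul_left_cancel₀ a0 (by linear_combination h2 - h2' - 2 * (c : ℝ) * e1)
  exact ⟨l - l', k - k', by simp [e2], by simp [e1]⟩

theorem rel_of_eq {e e' : ℤ} (he : e = 1 ∨ e = -1) (he' : e' = 1 ∨ e' = -1) {y y' l l' : ℂ}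
    (hl : l ∈ Lat) (hl' : l' ∈ Lat) (h : e * y + l = e' * y' + l') : Rel y y' := by
  rcases he with rfl | rfl <;> rcases he' with rfl | rfl <;> push_cast at h
  · exact Or.inl (by rw [show y - y' = l' - l by linear_combination h]; exact Lat.sub hl' hl)
  · exact Or.inr (by rw [show y + y' = l' - l by linear_combination h]; exact Lat.sub hl' hl)
  · exact Or.inr (by rw [show y + y' = l - l' by linear_combination -h]; exact Lat.sub hl hl')
  · exact Or.inl (by rw [show y - y' = l - l' by linear_combination -h]; exact Lat.sub hl hl')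

/-- a translate of `D` that meets the image of `D` meets it in a cone point -/
theorem exists_cone {D : Set ℂ} {a c : ℤ} (hc : IsCompact D) (hp : IsPreconnected D)
    (hi : ∀ x ∈ D, ∀ y ∈ D, Rel x y → x = y) {p : ℂ} (hpD : p ∈ D) (hpc : p ∈ Cone)
    (hB : ∀ x ∈ D, ∃ y ∈ D, Rel (Bm a c x) y) {e : ℤ} (he : e = 1 ∨ e = -1) {l : ℂ}
    (hl : l ∈ Lat) {x y : ℂ} (hx : x ∈ D) (hy : y ∈ D) (h : Bm a c x = e * y + l) :
    ∃ x' ∈ D, ∃ y' ∈ D, Bm a c x' ∈ Cone ∧ Bm a c x' = e * y' + l := by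
  by_contra hne
  push Not at hne
  obtain ⟨R, hR⟩ := hc.exists_bound_of_continuousOn continuousOn_id
  obtain ⟨R', hR'⟩ := hc.exists_bound_of_continuousOn (Bm_cont a c).continuousOn
  set X : ℤ × ℂ → Set ℂ := fun g => Bm a c ⁻¹' ((fun y => g.1 * y + g.2) '' D) with hX
  have Xc : ∀ g, IsClosed (X g) := fun g =>
    (hc.image (by fun_prop)).isClosed.preimage (Bm_cont a c)
  set S : Set (ℤ × ℂ) := (({1, -1} : Set ℤ) ×ˢ {l ∈ Lat | ‖l‖ ≤ R' + R}) \ {(e, l)} with hS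
  have Sf : S.Finite := ((toFinite _).prod (lat_finite _)).sdiff
  have hcov : D ⊆ X (e, l) ∪ ⋃ g ∈ S, X g := by
    intro z hz
    obtain ⟨w, hw, hr⟩ := hB z hz
    have : ∃ g ∈ ({1, -1} : Set ℤ) ×ˢ {l ∈ Lat | ‖l‖ ≤ R' + R}, z ∈ X g := by
      rcases hr with hr | hr
      · exact ⟨(1, Bm a c z - w), ⟨by simp, hr,
          (norm_sub_le _ _).trans (add_le_add (hR' z hz) (hR w hw))⟩, w, hw, by simp⟩
      · exact ⟨(-1, Bm a c z + w), ⟨by simp, hr,
          (norm_add_le _ _).trans (add_le_add (hR' z hz) (hR w hw))⟩, w, hw, by simp⟩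
    obtain ⟨g, hg, hz⟩ := this
    by_cases hge : g = (e, l)
    · exact Or.inl (hge ▸ hz)
    · exact Or.inr (mem_biUnion (show g ∈ S from ⟨hg, hge⟩) hz)
  obtain ⟨z, hz, ⟨w, hw, h1⟩, h2⟩ := isPreconnected_closed_iff.1 hp _ _ (Xc (e, l))
    (Sf.isClosed_biUnion fun g _ => Xc g) hcov ⟨x, hx, y, hy, h.symm⟩
    ⟨p, hpD, (hcov hpD).resolve_left fun ⟨w, hw, h1⟩ =>
      hne p hpD w hw (Bm_cone a c hpc) h1.symm⟩
  obtain ⟨⟨e', l'⟩, ⟨⟨he', hl', -⟩, hne'⟩, w', hw', h3⟩ := mem_iUnion₂.1 h2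
  clear h2
  simp only at h1 h3 hl'
  have he'' : e' = 1 ∨ e' = -1 := by simpa using he'
  have hww : w = w' := hi w hw w' hw' (rel_of_eq he he'' hl hl' (h1.trans h3.symm))
  subst hww
  refine hne z hz w hw ?_ h1.symm
  by_cases hee : e' = e
  · subst hee
    have : l' = l := add_left_cancel (h3.trans h1.symm)
    exact absurd (by simp [this]) hne'
  · have : e' = -e := by omega
    subst this
    show 2 * Bm a c z ∈ Lat
    rw [show 2 * Bm a c z = l + l' by push_cast at h3; linear_combination -h1 - h3]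
    exact Lat.add hl hl'

/-- a path between cone points together with its image under the half turn about the end -/
theorem joinedIn_double {D : Set ℂ} {p p' : ℂ} (h : JoinedIn D p p') :
    JoinedIn {z | ∃ e : ℤ, (e = 1 ∨ e = -1) ∧ ∃ y ∈ D, z = e * y + (1 - e) * p'} p
      (p + 2 * (p' - p)) := by
  obtain ⟨γ, hγ⟩ := h
  refine JoinedIn.trans (y := p') ⟨γ, fun t => ⟨1, Or.inl rfl, γ t, hγ t, by simp⟩⟩ ?_
  refine JoinedIn.symm ⟨(γ.map (f := fun z => 2 * p' - z) (by fun_prop)).cast (by ring) (by ring),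
    fun t => ⟨-1, Or.inr rfl, γ t, hγ t, ?_⟩⟩
  simp
  ring

end Plane

open Plane in
theorem p_PLANE : S_PLANE := by
  intro D a c ha hc hp hi hcone hB
  rcases eq_or_ne c 0 with rfl | c0
  · simp only [abs_zero]
    positivity
  obtain ⟨p, hpD, hp0⟩ := hcone 0 (by simpa [Cone] using Lat.zero)
  have hI : I / 2 ∈ Cone := ⟨0, 1, by simp, by simp⟩
  obtain ⟨p', hpD', hp1⟩ := hcone (I / 2) hI
  have pc : p ∈ Cone := hp0.cone (by simpa [Cone] using Lat.zero)
  have pc' : p' ∈ Cone := hp1.cone hI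
  set v : ℂ := 2 * (p' - p) with hv
  have vl : v ∈ Lat := by
    rw [hv, mul_sub]
    exact Lat.sub pc' pc
  obtain ⟨n, hn, n0⟩ : ∃ n : ℤ, v.im = n ∧ n ≠ 0 := by
    obtain ⟨s, hs⟩ : ∃ s : ℤ, p.im = s := by
      rcases hp0 with ⟨-, s, -, h⟩ | ⟨-, s, -, h⟩ <;> exact ⟨s, by simpa using h⟩
    obtain ⟨t, ht⟩ : ∃ t : ℤ, 2 * p'.im = 2 * t + 1 := by
      rcases hp1 with ⟨-, t, -, h⟩ | ⟨-, t, -, h⟩
      · exact ⟨t, by simp at h; linarith⟩
      · exact ⟨t - 1, by simp at h; push_cast; linarith⟩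
    refine ⟨2 * t + 1 - 2 * s, ?_, by omega⟩
    simp [hv, hs]
    linarith
  have hJ := joinedIn_double (hp.joinedIn p hpD p' hpD')
  set A := {z | ∃ e : ℤ, (e = 1 ∨ e = -1) ∧ ∃ y ∈ D, z = e * y + (1 - e) * p'} with hA
  have hJB : JoinedIn (Bm a c '' A) (Bm a c p) (Bm a c p + Bm a c v) := by
    obtain ⟨γ, hγ⟩ := hJ
    rw [← Bm_add]
    exact ⟨γ.map (Bm_cont a c), fun t => ⟨γ t, hγ t, rfl⟩⟩
  have hdet : v.re * (Bm a c v).im - v.im * (Bm a c v).re ≠ 0 := by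
    have : v.re * (Bm a c v).im - v.im * (Bm a c v).re = -(c * n ^ 2 : ℤ) := by
      simp [Bm, hn]
      ring
    rw [this, neg_ne_zero]
    exact_mod_cast mul_ne_zero c0 (pow_ne_zero 2 n0)
  have main : ∀ k : ℤ, ∃ d : ℤ × ℤ × ℤ × ℤ, d ∈ ({1, -1} : Finset ℤ) ×ˢ ({1, -1} : Finset ℤ) ×ˢ
      Finset.Ico 0 (2 * a) ×ˢ Finset.Ico 0 (2 * a) ∧ ∃ i j : ℤ, ∃ x ∈ D, ∃ y ∈ D,
        Cl a c x d.2.2.1 d.2.2.2 ∧ Bm a c x = (d.1 * d.2.1 : ℤ) * y +
          d.2.1 * ((1 - d.1) * p' - (1 - d.2.1) * Bm a c p' + (k + i * v - j * Bm a c v)) := by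
    intro k
    have hJk : JoinedIn ((fun z : ℂ => z + k) '' A) (p + k) (p + k + v) := by
      obtain ⟨γ, hγ⟩ := hJ
      exact ⟨(γ.map (f := fun z : ℂ => z + k) (by fun_prop)).cast rfl (by rw [hv]; ring),
        fun t => ⟨γ t, hγ t, by simp⟩⟩
    obtain ⟨_, ⟨_, ⟨e, he, y, hy, rfl⟩, rfl⟩, _, ⟨_, ⟨e', he', x, hx, rfl⟩, rfl⟩, i, j, h⟩ :=
      Cross.cross hJk hJB hdet
    have hee : e * e' = 1 ∨ e * e' = -1 := by
      rcases he with rfl | rfl <;> rcases he' with rfl | rfl <;> simp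
    have hl : e' * ((1 - e) * p' - (1 - e') * Bm a c p' + (k + i * v - j * Bm a c v)) ∈ Lat := by
      refine lat_int_mul (Lat.add (Lat.sub ?_ ?_) (Lat.sub (Lat.add (lat_int k)
        (lat_int_mul vl i)) (lat_int_mul (Bm_lat a c vl) j))) e'
      · rcases he with rfl | rfl
        · simpa using Lat.zero
        · convert (show 2 * p' ∈ Lat from pc') using 2
          push_cast
          ring
      · rcases he' with rfl | rfl
        · simpa using Lat.zero
        · convert (show 2 * Bm a c p' ∈ Lat from Bm_cone a c pc') using 2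
          push_cast
          ring
    have hx0 : Bm a c x = (e * e' : ℤ) * y +
        e' * ((1 - e) * p' - (1 - e') * Bm a c p' + (k + i * v - j * Bm a c v)) := by
      have e1 : (1 - (e' : ℂ)) = ((1 - e' : ℤ) : ℂ) := by push_cast; ring
      rw [Bm_add, Bm_int_mul, e1, Bm_int_mul] at h
      rcases he' with rfl | rfl
      · push_cast at h ⊢
        linear_combination -h
      · push_cast at h ⊢
        linear_combination h
    obtain ⟨x', hx', y', hy', h1, h2⟩ :=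
      exists_cone hc hp.isConnected.isPreconnected hi hpD pc hB hee hl hx hy hx0
    obtain ⟨r, hr, s, hs, hcl⟩ := cl_exists ha h1
    refine ⟨(e, e', r, s), ?_, i, j, x', hx', y', hy', hcl, h2⟩
    simp only [Finset.mem_product, Finset.mem_insert, Finset.mem_singleton]
    exact ⟨he, he', hr, hs⟩
  choose d hd i j x hx y hy hcl hxy using main
  obtain ⟨k, hk, k', hk', hne, hdd⟩ := Finset.exists_ne_map_eq_of_card_lt_of_maps_to
    (s := Finset.Icc 0 (16 * a ^ 2)) (f := d) (by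
      simp only [Finset.card_product, Int.card_Ico, Int.card_Icc]
      rw [show ({1, -1} : Finset ℤ).card = 2 from rfl]
      zify
      rw [Int.toNat_of_nonneg (by omega), Int.toNat_of_nonneg (by nlinarith)]
      nlinarith) fun k _ => hd k
  have xx : x k = x k' := hi _ (hx k) _ (hx k') (Or.inl (cl_unique ha (hcl k) (hdd ▸ hcl k')))
  have h1 := hxy k
  have h2 := hxy k'
  have hdk := hd k
  rw [← hdd, ← xx, h1] at h2
  generalize d k = dk at *
  obtain ⟨e, e', r, s⟩ := dk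
  simp only [Finset.mem_product, Finset.mem_insert, Finset.mem_singleton] at hdk h2
  obtain ⟨he, he', -⟩ := hdk
  have hw : ∀ t : ℤ, (t + i t * v - j t * Bm a c v : ℂ) ∈ Lat := fun t =>
    Lat.sub (Lat.add (lat_int t) (lat_int_mul vl _)) (lat_int_mul (Bm_lat a c vl) _)
  have e0 : (e' : ℂ) ≠ 0 := by rcases he' with rfl | rfl <;> simp
  have yy : y k = y k' := by
    refine hi _ (hy k) _ (hy k') (rel_of_eq he he (hw k) (hw k') (mul_left_cancel₀ e0 ?_))
    push_cast at h2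
    linear_combination h2
  rw [yy] at h2
  have h3 : (k + i k * v - j k * Bm a c v : ℂ) = k' + i k' * v - j k' * Bm a c v :=
    mul_left_cancel₀ e0 (by linear_combination h2)
  have h4 := congrArg Complex.re h3
  have h5 := congrArg Complex.im h3
  simp [Bm, hn] at h4 h5
  have n0' : (n : ℝ) ≠ 0 := by exact_mod_cast n0
  have h6 : (i k : ℝ) - j k * a = i k' - j k' * a :=
    mul_right_cancel₀ n0' (by linear_combination h5)
  have h7 : k - k' = c * (n * (j k - j k')) := by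
    have : (k : ℝ) - k' = c * (n * (j k - j k')) := by linear_combination h4 - v.re * h6
    exact_mod_cast this
  have h8 : |c| ≤ |k - k'| := Int.le_of_dvd (abs_pos.2 (sub_ne_zero.2 hne))
    ((abs_dvd_abs _ _).2 ⟨_, h7⟩)
  rw [Finset.mem_Icc] at hk hk'
  have h9 : |k - k'| ≤ 16 * a ^ 2 := abs_le.2 ⟨by linarith, by linarith⟩
  nlinarith [sq_nonneg a]

end Pool.Agent.P.MP_cb5d8b_an
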