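import Pool.Agent.P.MP_cb5d8b_an.Base

/-! A tree contains no loop. -/

namespace Pool.Agent.P.MP_cb5d8b_an

open Set Metric Filter Topology

namespace Jct

/-- off an arc from `p` to `q` the function `(z - p) / (z - q)` has a logarithm -/
theorem log_off {A : Set ℂ} {p q : ℂ} (h : ArcSet A p q) :
    HasLog (fun z => (z - p) / (z - q)) Aᶜ := by
  classical
  obtain ⟨c, s, t, hst, hc, -, rfl, rfl, rfl⟩ := h
  have hm : ∀ u : unitInterval, s + (u : ℝ) * (t - s) ∈ Icc s t := fun u =>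
    ⟨by nlinarith [u.2.1], by nlinarith [u.2.2]⟩
  have h0 : ∀ (z : ↥(c '' Icc s t)ᶜ) (u : ℝ), u ∈ Icc s t → (z : ℂ) - c u ≠ 0 := fun z u hu e =>
    z.2 ⟨u, hu, (sub_eq_zero.1 e).symm⟩
  let H : C(unitInterval × ↥(c '' Icc s t)ᶜ, {z : ℂ // z ≠ 0}) :=
    ⟨fun x => ⟨((x.2 : ℂ) - c s) / ((x.2 : ℂ) - c (s + (x.1 : ℝ) * (t - s))),
      div_ne_zero (h0 _ _ (left_mem_Icc.2 hst)) (h0 _ _ (hm _))⟩,
      Continuous.subtype_mk (Continuous.div (by fun_prop) (by fun_prop) fun x => h0 _ _ (hm _)) _⟩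
  have H0 : ∀ z, H (0, z) = (fun w : ℂ => (⟨_, w.exp_ne_zero⟩ : {z : ℂ // z ≠ 0}))
      ((ContinuousMap.const ↥(c '' Icc s t)ᶜ (0 : ℂ)) z) := fun z => Subtype.ext (by
    simp [H, div_self (h0 z s (left_mem_Icc.2 hst))])
  let G := Complex.isCoveringMap_exp.liftHomotopy H _ H0
  have hG : ∀ x, Complex.exp (G x) = (H x : ℂ) := fun x =>
    congrArg Subtype.val (congrFun (Complex.isCoveringMap_exp.liftHomotopy_lifts H _ H0) x)
  refine ⟨fun z => if h : z ∈ (c '' Icc s t)ᶜ then G (1, ⟨z, h⟩) else 0, ?_, fun z hz => ?_⟩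
  · rw [continuousOn_iff_continuous_restrict]
    have : Continuous fun z : ↥(c '' Icc s t)ᶜ => G (1, z) := by fun_prop
    refine this.congr fun z => ?_
    simp only [restrict_apply, dif_pos z.2]
  · simp only [dif_pos hz, hG]
    simp [H]

/-- a loop made of two arcs separates the plane -/
theorem plane {A A' : Set ℂ} {p q : ℂ} (h : ArcSet A p q) (h' : ArcSet A' p q) (hpq : p ≠ q)
    (hi : A ∩ A' ⊆ {p, q}) : ¬ IsPreconnected (A ∪ A')ᶜ := by
  classical
  intro hc
  obtain ⟨L, hL, e⟩ := log_off h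
  obtain ⟨L', hL', e'⟩ := log_off h'
  rw [compl_union] at hc
  obtain ⟨k, k1, k2⟩ : ∃ k, Complex.exp k = 1 ∧ ∀ z ∈ Aᶜ ∩ A'ᶜ, L z - L' z = k := by
    rcases (Aᶜ ∩ A'ᶜ).eq_empty_or_nonempty with h0 | ⟨w, hw⟩
    · exact ⟨0, Complex.exp_zero, by simp [h0]⟩
    · refine ⟨L w - L' w, ?_, fun z hz => Lg.const _ L L' hc (hL.mono inter_subset_left)
        (hL'.mono inter_subset_right) (fun z hz => (e z hz.1).trans (e' z hz.2).symm) z hz w hw⟩
      rw [Complex.exp_sub, e w hw.1, ← e' w hw.2, div_self (Complex.exp_ne_zero _)]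
  have hM : HasLog (fun z => (z - p) / (z - q)) (Aᶜ ∪ A'ᶜ) := by
    refine ⟨Aᶜ.piecewise L fun z => L' z + k, ContinuousOn.union_of_isOpen ?_ ?_
      h.compact.isClosed.isOpen_compl h'.compact.isClosed.isOpen_compl, ?_⟩
    · exact hL.congr fun z hz => piecewise_eq_of_mem _ _ _ hz
    · refine (hL'.add continuousOn_const (g := fun _ => k)).congr fun z hz => ?_
      by_cases hz' : z ∈ Aᶜ
      · rw [piecewise_eq_of_mem _ _ _ hz', ← k2 z ⟨hz', hz⟩]; simp
      · exact piecewise_eq_of_notMem _ _ _ hz'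
    · intro z hz
      by_cases hz' : z ∈ Aᶜ
      · rw [piecewise_eq_of_mem _ _ _ hz', e z hz']
      · rw [piecewise_eq_of_notMem _ _ _ hz', Complex.exp_add, k1, mul_one,
          e' z (hz.resolve_left hz')]
  have hr : 0 < dist q p / 2 := half_pos (dist_pos.2 hpq.symm)
  have hq : ∀ z ∈ closedBall p (dist q p / 2), z - q ≠ 0 := fun z hz e0 => by
    rw [sub_eq_zero.1 e0, mem_closedBall] at hz
    linarith
  have h1 : HasLog (fun z => z - q) (closedBall p (dist q p / 2)) :=
    Lg.conv _ _ (convex_closedBall _ _) (by fun_prop) hq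
  have h2 : sphere p (dist q p / 2) ⊆ Aᶜ ∪ A'ᶜ := fun z hz => by
    rw [← compl_inter]
    intro hz'
    rcases hi hz' with rfl | rfl
    · simp only [mem_sphere, dist_self] at hz; linarith
    · exact hq z (sphere_subset_closedBall hz) (sub_self _)
  have := Lg.circ p _ hr 1 (Lg.congr (Lg.mul (Lg.mono hM h2) (Lg.mono h1 sphere_subset_closedBall))
    fun z hz => by rw [zpow_one, div_mul_cancel₀ _ (hq z (sphere_subset_closedBall hz))])
  exact one_ne_zero this

/-- an arc of the plane has dense complement -/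
theorem dense_arc {a : unitInterval → ℂ} (hc : Continuous a) (hi : Function.Injective a) :
    Dense (range a)ᶜ := by
  rw [← interior_eq_empty_iff_dense_compl, eq_empty_iff_forall_notMem]
  intro z hz
  obtain ⟨r, hr, hb⟩ := Metric.isOpen_iff.1 isOpen_interior z hz
  have hE := (hc.isClosedEmbedding hi).isEmbedding
  have hm : ∀ t : ℝ, circleMap z (r / 2) t ∈ range a := fun t =>
    interior_subset (hb (by
      have := circleMap_mem_sphere z (half_pos hr).le t
      rw [mem_sphere] at this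
      rw [mem_ball, this]; linarith))
  choose g hg using hm
  have gc : Continuous g := by
    rw [hE.continuous_iff]
    have : a ∘ g = circleMap z (r / 2) := funext hg
    rw [this]; exact continuous_circleMap _ _
  have hper : g (Real.pi + Real.pi) = g 0 := hi (by
    rw [hg, hg, ← two_mul, ← periodic_circleMap z (r / 2) 0, zero_add])
  obtain ⟨t, ht⟩ : ∃ t, (g (t + Real.pi) : ℝ) - g t = 0 := by
    have hF : Continuous fun t => (g (t + Real.pi) : ℝ) - g t := by fun_prop
    have := intermediate_value_uIcc (a := 0) (b := Real.pi) hF.continuousOn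
    obtain ⟨t, -, ht⟩ := this (show (0 : ℝ) ∈ _ by
      simp only [zero_add, hper, mem_uIcc]
      rcases le_total (g 0 : ℝ) (g Real.pi) with h | h
      · right; constructor <;> linarith
      · left; constructor <;> linarith)
    exact ⟨t, ht⟩
  have e1 : circleMap z (r / 2) (t + Real.pi) = circleMap z (r / 2) t := by
    rw [← hg, ← hg, Subtype.ext (sub_eq_zero.1 ht)]
  simp only [circleMap, add_right_inj] at e1
  push_cast at e1
  rw [add_mul, Complex.exp_add, Complex.exp_pi_mul_I] at e1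
  have h2 : (r : ℂ) * Complex.exp (t * Complex.I) = 0 := by linear_combination -e1
  rcases mul_eq_zero.1 h2 with h | h
  · exact hr.ne' (by exact_mod_cast h)
  · exact Complex.exp_ne_zero _ h

theorem punct {X : Type*} [TopologicalSpace X] [T1Space X] {U V : Set X} {o : X}
    (hU : IsPreconnected U) (hV : IsOpen V) (ho : o ∈ V) (hVU : V ⊆ U)
    (hp : IsPreconnected (V \ {o})) : IsPreconnected (U \ {o}) := by
  have key : ∀ u v : Set X, IsOpen u → IsOpen v → U \ {o} ⊆ u ∪ v → U \ {o} ∩ (u ∩ v) = ∅ →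
      V \ {o} ⊆ u → U \ {o} ⊆ u ∨ U \ {o} ⊆ v := by
    intro u v hu hv hc hd hs
    rcases isPreconnected_iff_subset_of_disjoint.1 hU (u ∪ V) (v \ {o}) (hu.union hV)
      (hv.sdiff isClosed_singleton) (fun z hz => by
        by_cases e : z = o
        · exact Or.inl (Or.inr (e ▸ ho))
        · rcases hc ⟨hz, e⟩ with h | h
          · exact Or.inl (Or.inl h)
          · exact Or.inr ⟨h, e⟩) (by
        rw [eq_empty_iff_forall_notMem] at hd ⊢
        rintro z ⟨hz, h1, h2, h3⟩
        exact hd z ⟨⟨hz, h3⟩, h1.elim id fun h => hs ⟨h, h3⟩, h2⟩) with h | h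
    · exact Or.inl fun z hz => (h hz.1).elim id fun h' => hs ⟨h', hz.2⟩
    · exact Or.inr fun z hz => (h hz.1).1
  rw [isPreconnected_iff_subset_of_disjoint]
  intro u v hu hv hc hd
  rcases isPreconnected_iff_subset_of_disjoint.1 hp u v hu hv
    ((diff_subset_diff_left hVU).trans hc) (by
      rw [eq_empty_iff_forall_notMem] at hd ⊢
      exact fun z hz => hd z ⟨diff_subset_diff_left hVU hz.1, hz.2⟩) with h | h
  · exact key u v hu hv hc hd h
  · exact (key v u hv hu (union_comm u v ▸ hc) (inter_comm u v ▸ hd) h).symm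

theorem outside (R : ℝ) (hR : 0 ≤ R) : IsPreconnected (closedBall (0 : ℂ) R)ᶜ := by
  have : (closedBall (0 : ℂ) R)ᶜ =
      (fun x : ℝ × ℝ => (x.1 : ℂ) * Complex.exp (x.2 * Complex.I)) '' (Ioi R ×ˢ univ) := by
    ext z
    simp only [mem_compl_iff, mem_closedBall_zero_iff, not_le]
    constructor
    · exact fun h => ⟨(‖z‖, z.arg), ⟨h, trivial⟩, Complex.norm_mul_exp_arg_mul_I z⟩
    · rintro ⟨x, ⟨hx, -⟩, rfl⟩
      have hx' : R < x.1 := hx
      simpa [abs_of_nonneg (hR.trans hx'.le)] using hx'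
  rw [this]
  exact (isPreconnected_Ioi.prod isPreconnected_univ).image _ (by fun_prop)

theorem chart (o : S2) : ∃ (g : ℂ → S2) (e : S2 → ℂ), IsEmbedding g ∧ (∀ z, g z ≠ o) ∧
    ContinuousOn e {o}ᶜ ∧ ∀ y, y ≠ o → g (e y) = y := by
  have : Fact (Module.finrank ℝ (EuclideanSpace ℝ (Fin 3)) = 2 + 1) := ⟨by simp⟩
  let φ := (stereographic' 2 o).transHomeomorph
    Complex.orthonormalBasisOneI.repr.symm.toHomeomorph
  have hs : φ.source = {o}ᶜ := by simp [φ]
  have ht : φ.target = univ := by simp [φ]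
  refine ⟨φ.symm, φ, (φ.symm.to_isOpenEmbedding ht).isEmbedding, fun z => ?_,
    hs ▸ φ.continuousOn, fun y hy => φ.left_inv (hs ▸ hy)⟩
  have := φ.map_target (ht ▸ mem_univ z)
  rwa [hs] at this

theorem pull {o : S2} {g : ℂ → S2} {e : S2 → ℂ} (hg : IsEmbedding g)
    (he : ContinuousOn e {o}ᶜ) (hge : ∀ y, y ≠ o → g (e y) = y) {A : Set S2} {p q : S2}
    (h : ArcSet A p q) (ho : o ∉ A) : ArcSet (g ⁻¹' A) (e p) (e q) := by
  obtain ⟨c, s, t, hst, hc, hi, rfl, rfl, rfl⟩ := h
  have h0 : ∀ u ∈ Icc s t, c u ≠ o := fun u hu e => ho ⟨u, hu, e⟩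
  refine ⟨fun u => e (c (projIcc s t hst u)), s, t, hst,
    he.comp_continuous (by fun_prop) fun u => h0 _ (projIcc s t hst u).2, ?_, by simp, by simp, ?_⟩
  · intro u hu v hv h
    simp only [projIcc_of_mem hst hu, projIcc_of_mem hst hv] at h
    exact hi hu hv (by rw [← hge _ (h0 u hu), h, hge _ (h0 v hv)])
  · ext z
    constructor
    · rintro ⟨u, hu, rfl⟩
      simp only [projIcc_of_mem hst hu]
      exact ⟨u, hu, (hge _ (h0 u hu)).symm⟩
    · rintro ⟨u, hu, h⟩
      refine ⟨u, hu, hg.injective ?_⟩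
      simp only [projIcc_of_mem hst hu]
      rw [hge _ (h0 u hu), h]

end Jct

theorem p_JCT : S_JCT := by
  rintro T ⟨⟨-, m, a, ha, hT, -⟩, ⟨o, ho⟩, hc⟩ A A' p q h h' hpq s s' hi
  obtain ⟨g, e, hg, hgo, he, hge⟩ := Jct.chart o
  have hao : ∀ i u, a i u ≠ o := fun i u e => ho (hT ▸ mem_iUnion.2 ⟨i, u, e⟩)
  have ec : ∀ i, Continuous fun u => e (a i u) := fun i => he.comp_continuous (ha i).1 (hao i)
  have hT' : g ⁻¹' T = ⋃ i, range fun u => e (a i u) := by
    ext z
    simp only [hT, mem_preimage, mem_iUnion, mem_range]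
    refine exists_congr fun i => exists_congr fun u => ⟨fun h => hg.injective ?_, fun h => ?_⟩
    · rw [hge _ (hao i u), h]
    · rw [← h, hge _ (hao i u)]
  have hK : IsCompact (g ⁻¹' T) := hT' ▸ isCompact_iUnion fun i => isCompact_range (ec i)
  have hD : Dense (g ⁻¹' T)ᶜ := by
    rw [hT', compl_iUnion]
    exact dense_iInter_of_isOpen (fun i => (isCompact_range (ec i)).isClosed.isOpen_compl)
      fun i => Jct.dense_arc (ec i) fun u v h =>
        (ha i).2 (by rw [← hge _ (hao i u), h, hge _ (hao i v)])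
  obtain ⟨R, hR, hb⟩ := hK.isBounded.subset_closedBall_lt 0 0
  have im : ∀ W : Set ℂ, g '' Wᶜ = (g '' W)ᶜ \ {o} := fun W => by
    ext y
    constructor
    · rintro ⟨z, hz, rfl⟩
      exact ⟨fun ⟨w, hw, e⟩ => hz (hg.injective e ▸ hw), hgo z⟩
    · exact fun ⟨h1, h2⟩ => ⟨e y, fun h => h1 ⟨e y, h, hge y h2⟩, hge y h2⟩
  have hgT : g '' (g ⁻¹' T) = T := image_preimage_eq_of_subset fun y hy =>
    ⟨e y, hge y fun e => ho (e ▸ hy)⟩
  have hP : IsPreconnected (g ⁻¹' T)ᶜ := by
    rw [← hg.isInducing.isPreconnected_image, im, hgT]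
    refine Jct.punct hc (V := (g '' closedBall 0 R)ᶜ)
      ((isCompact_closedBall _ _).image hg.continuous).isClosed.isOpen_compl
      (fun ⟨z, _, e⟩ => hgo z e) (compl_subset_compl.2 (hgT ▸ image_mono hb)) ?_
    rw [← im]
    exact (Jct.outside R hR.le).image _ hg.continuous.continuousOn
  have hp : p ≠ o := fun e => ho (e ▸ s h.left)
  have hq : q ≠ o := fun e => ho (e ▸ s h.right)
  refine Jct.plane (Jct.pull hg he hge h fun x => ho (s x)) (Jct.pull hg he hge h' fun x => ho (s' x))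
    (fun x => hpq (by rw [← hge p hp, x, hge q hq])) (fun z hz => ?_)
    (hP.subset_closure (compl_subset_compl.2 (union_subset (preimage_mono s) (preimage_mono s')))
      fun z _ => hD z)
  rcases hi hz with x | x
  · exact Or.inl (hg.injective (by rw [hge p hp]; exact x))
  · exact Or.inr (hg.injective (by rw [hge q hq]; exact x))

end Pool.Agent.P.MP_cb5d8b_an
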