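import Pool.Agent.P.MP_cb5d8b_an.Chart

/-! Arcs lift through the pillowcase map. -/

namespace Pool.Agent.P.MP_cb5d8b_an

open Set Metric Filter Topology Complex

namespace LiftA

open Ch

theorem log_real {S : Set ℝ} (hS : Convex ℝ S) {W : ℝ → ℂ} (hW : ContinuousOn W S)
    (h0 : ∀ r ∈ S, W r ≠ 0) : ∃ ζ : ℝ → ℂ, ContinuousOn ζ S ∧ ∀ r ∈ S, ζ r ^ 2 = W r := by
  obtain ⟨L, hL, e⟩ := Lg.conv {z : ℂ | z.re ∈ S} (fun z => W z.re)
    (hS.linear_preimage reLm) (hW.comp (by fun_prop) fun z hz => hz) fun z hz => h0 _ hz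
  refine ⟨fun r => exp (L r / 2), ((hL.comp continuous_ofReal.continuousOn
    fun r hr => by simpa using hr).div_const 2).cexp, fun r hr => ?_⟩
  have := e r (by simpa using hr)
  rw [sq, ← exp_add, add_halves, this]
  simp

/-- A continuous square root of a path with at most one zero. -/
theorem sqrt {u v m : ℝ} {W : ℝ → ℂ} (hW : ContinuousOn W (Icc u v)) (hm : W m = 0)
    (h0 : ∀ r ∈ Icc u v, W r = 0 → r = m) :
    ∃ ζ : ℝ → ℂ, ContinuousOn ζ (Icc u v) ∧ ∀ r ∈ Icc u v, ζ r ^ 2 = W r := by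
  obtain ⟨a, ha, ea⟩ := log_real (S := Icc u v ∩ Iio m) ((convex_Icc _ _).inter (convex_Iio _))
    (hW.mono inter_subset_left) fun r hr h => hr.2.ne (h0 r hr.1 h)
  obtain ⟨b, hb, eb⟩ := log_real (S := Icc u v ∩ Ioi m) ((convex_Icc _ _).inter (convex_Ioi _))
    (hW.mono inter_subset_left) fun r hr h => hr.2.ne' (h0 r hr.1 h)
  obtain ⟨ζ, hζ⟩ : ∃ ζ : ℝ → ℂ, ζ = fun r => if r < m then a r else if m < r then b r else 0 :=
    ⟨_, rfl⟩
  have e1 : ∀ r, r < m → ζ r = a r := fun r h => by simp [hζ, h]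
  have e2 : ∀ r, m < r → ζ r = b r := fun r h => by simp [hζ, h, h.not_gt]
  have e3 : ζ m = 0 := by simp [hζ]
  have e : ∀ r ∈ Icc u v, ζ r ^ 2 = W r := fun r hr => by
    rcases lt_trichotomy r m with h | rfl | h
    · rw [e1 r h, ea r ⟨hr, h⟩]
    · rw [e3, hm]; simp
    · rw [e2 r h, eb r ⟨hr, h⟩]
  refine ⟨ζ, fun r hr => ?_, e⟩
  rcases lt_trichotomy r m with h | rfl | h
  · rw [← continuousWithinAt_inter (Iio_mem_nhds h)]
    exact (ha r ⟨hr, h⟩).congr (fun x hx => e1 x hx.2) (e1 r h)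
  · rw [ContinuousWithinAt, e3, tendsto_zero_iff_norm_tendsto_zero]
    have t : Tendsto (fun x => √‖W x‖) (𝓝[Icc u v] r) (𝓝 0) := by
      have := ((hW r hr).norm).sqrt
      rwa [ContinuousWithinAt, hm, norm_zero, Real.sqrt_zero] at this
    refine t.congr' ?_
    filter_upwards [self_mem_nhdsWithin] with x hx
    rw [← e x hx, norm_pow, Real.sqrt_sq (norm_nonneg _)]
  · rw [← continuousWithinAt_inter (Ioi_mem_nhds h)]
    exact (hb r ⟨hr, h⟩).congr (fun x hx => e2 x hx.2) (e2 r h)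

variable {Θ : ℂ → S2} {a : ℝ → S2} {s t : ℝ}

/-- `a` lifts on the interval. -/
def Lf (Θ : ℂ → S2) (a : ℝ → S2) (u v : ℝ) : Prop :=
  ∃ c : ℝ → ℂ, ContinuousOn c (Icc u v) ∧ ∀ r ∈ Icc u v, Θ (c r) = a r

theorem Lf.adjust (hΘ : Pil Θ) {u v m : ℝ} (h : Lf Θ a u v) (hm : m ∈ Icc u v) {w : ℂ}
    (hw : Θ w = a m) :
    ∃ c : ℝ → ℂ, ContinuousOn c (Icc u v) ∧ (∀ r ∈ Icc u v, Θ (c r) = a r) ∧ c m = w := by
  obtain ⟨c, hc, e⟩ := h
  rcases (hΘ.fib _ _).1 (hw.trans (e m hm).symm) with h | h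
  · exact ⟨fun r => c r + (w - c m), hc.add continuousOn_const, fun r hr =>
      ((hΘ.fib _ _).2 (Or.inl (by simpa using h))).trans (e r hr), by ring⟩
  · exact ⟨fun r => w + c m - c r, continuousOn_const.sub hc, fun r hr =>
      ((hΘ.fib _ _).2 (Or.inr (by simpa using h))).trans (e r hr), by ring⟩

theorem Lf.mono {u v u' v' : ℝ} (h : Lf Θ a u v) (hs : Icc u' v' ⊆ Icc u v) : Lf Θ a u' v' := by
  obtain ⟨c, hc, e⟩ := h
  exact ⟨c, hc.mono hs, fun r hr => e r (hs hr)⟩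

theorem Lf.glue (hΘ : Pil Θ) {u m v : ℝ} (h : Lf Θ a u m) (h' : Lf Θ a m v) (hu : u ≤ m)
    (hv : m ≤ v) : Lf Θ a u v := by
  obtain ⟨c, hc, e⟩ := h
  obtain ⟨c', hc', e', em⟩ := h'.adjust hΘ (left_mem_Icc.2 hv) (e m (right_mem_Icc.2 hu))
  have k : ∀ r ∈ Icc m v, (if r ≤ m then c r else c' r) = c' r := fun r hr => by
    by_cases h : r ≤ m
    · rw [if_pos h, le_antisymm h hr.1, em]
    · rw [if_neg h]
  refine ⟨fun r => if r ≤ m then c r else c' r, ?_, fun r hr => ?_⟩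
  · rw [← Icc_union_Icc_eq_Icc hu hv]
    exact ContinuousOn.union_of_isClosed (hc.congr fun r hr => if_pos hr.2) (hc'.congr k)
      isClosed_Icc isClosed_Icc
  · beta_reduce
    by_cases h : r ≤ m
    · rw [if_pos h, e r ⟨hr.1, h⟩]
    · rw [if_neg h, e' r ⟨(not_le.1 h).le, hr.2⟩]

theorem loc (hΘ : Pil Θ) (ha : Continuous a) (hi : InjOn a (Icc s t)) {m : ℝ}
    (hm : m ∈ Icc s t) : ∃ δ, 0 < δ ∧ Lf Θ a (max s (m - δ)) (min t (m + δ)) := by
  obtain ⟨z, hz⟩ := hΘ.surj (a m)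
  obtain ⟨r, hr⟩ := exists_good z
  obtain ⟨φ, hs, e⟩ := chart hΘ hr lin_id
  have hm' : a m ∈ φ.source := hs ▸ ⟨z, mem_ball_self hr.1, hz⟩
  obtain ⟨δ, hδ, hb⟩ := Metric.nhds_basis_closedBall.mem_iff.1
    ((φ.open_source.preimage ha).mem_nhds hm')
  rw [Real.closedBall_eq_Icc] at hb
  have s1 : Icc (max s (m - δ)) (min t (m + δ)) ⊆ Icc s t :=
    Icc_subset_Icc (le_max_left _ _) (min_le_left _ _)
  have s2 : MapsTo a (Icc (max s (m - δ)) (min t (m + δ))) φ.source := fun x hx =>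
    hb (Icc_subset_Icc (le_max_right _ _) (min_le_right _ _) hx)
  have hW := φ.continuousOn.comp ha.continuousOn s2
  have h0 : φ (a m) = 0 := by
    rw [← hz, e z (mem_ball_self hr.1), sub_self, id, zero_pow (ex_pos _).ne']
  refine ⟨δ, hδ, ?_⟩
  by_cases hc : z ∈ Cone
  · obtain ⟨ζ, hζ, eζ⟩ := sqrt (m := m) hW h0 fun x hx h =>
      hi (s1 hx) hm (φ.injOn (s2 hx) hm' (h.trans h0.symm))
    refine ⟨fun x => z + ζ x, continuousOn_const.add hζ, fun x hx => ?_⟩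
    obtain ⟨w, hw, ew⟩ : a x ∈ Θ '' ball z r := hs ▸ s2 hx
    have := eζ x hx
    rw [Function.comp, ← ew, e w hw, ex_of hc, id] at this
    beta_reduce
    rw [← ew]
    rcases sq_eq_sq_iff_eq_or_eq_neg.1 this with h | h
    · rw [h, add_sub_cancel]
    · refine (hΘ.fib _ _).2 (Or.inr ?_)
      rwa [h, show z + -(w - z) + w = 2 * z by ring]
  · refine ⟨fun x => z + (φ ∘ a) x, continuousOn_const.add hW, fun x hx => ?_⟩
    obtain ⟨w, hw, ew⟩ : a x ∈ Θ '' ball z r := hs ▸ s2 hx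
    beta_reduce
    rw [Function.comp, ← ew, e w hw, ex_of_not hc, pow_one, id, add_sub_cancel]

theorem all (hΘ : Pil Θ) (ha : Continuous a) (hi : InjOn a (Icc s t)) (hst : s ≤ t) :
    Lf Θ a s t := by
  have h0 : s ∈ {v | v ∈ Icc s t ∧ Lf Θ a s v} := by
    obtain ⟨z, hz⟩ := hΘ.surj (a s)
    exact ⟨left_mem_Icc.2 hst, fun _ => z, continuousOn_const, fun r hr => by
      rw [le_antisymm hr.2 hr.1, hz]⟩
  have hb : BddAbove {v | v ∈ Icc s t ∧ Lf Θ a s v} := ⟨t, fun v hv => hv.1.2⟩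
  obtain ⟨m, hm⟩ : ∃ m, m = sSup {v | v ∈ Icc s t ∧ Lf Θ a s v} := ⟨_, rfl⟩
  have m1 : m ∈ Icc s t := hm ▸ ⟨le_csSup hb h0, csSup_le ⟨s, h0⟩ fun v hv => hv.1.2⟩
  obtain ⟨δ, hδ, hl⟩ := loc hΘ ha hi m1
  obtain ⟨v, hv, hlt⟩ := exists_lt_of_lt_csSup ⟨s, h0⟩ (show m - δ < _ from hm ▸ sub_lt_self m hδ)
  have hvm : v ≤ m := hm ▸ le_csSup hb hv
  have hv' : v ≤ min t (m + δ) := le_min hv.1.2 (by linarith)
  have key := hv.2.glue hΘ (hl.mono (Icc_subset_Icc_left (max_le hv.1.1 hlt.le))) hv.1.1 hv'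
  have : min t (m + δ) ≤ m := hm ▸ le_csSup hb ⟨⟨hv.1.1.trans (hm ▸ hv'), min_le_left _ _⟩, hm ▸ key⟩
  rcases min_choice t (m + δ) with h | h
  · rwa [h] at key
  · linarith

end LiftA

theorem p_LIFT : S_LIFT := by
  rintro Θ hΘ A p q w ⟨a, s, t, hst, ha, hi, rfl, rfl, rfl⟩ hw
  obtain ⟨c, hc, e, hs⟩ := (LiftA.all hΘ ha hi hst).adjust hΘ (left_mem_Icc.2 hst) hw
  have k : ∀ r ∈ Icc s t, c (projIcc s t hst r) = c r := fun r hr => by rw [projIcc_of_mem hst hr]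
  refine ⟨c '' Icc s t, c t, ⟨fun r => c (projIcc s t hst r), s, t, hst,
    hc.comp_continuous (continuous_subtype_val.comp continuous_projIcc) fun r => (projIcc s t hst r).2,
    fun u hu v hv h => hi hu hv ?_, (k s (left_mem_Icc.2 hst)).trans hs, k t (right_mem_Icc.2 hst),
    image_congr k⟩, ?_, ?_, e t (right_mem_Icc.2 hst)⟩
  · beta_reduce at h
    rw [k u hu, k v hv] at h
    rw [← e u hu, ← e v hv, h]
  · rw [image_image]
    exact image_congr e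
  · rintro _ ⟨u, hu, rfl⟩ _ ⟨v, hv, rfl⟩ h
    rw [e u hu, e v hv] at h
    rw [hi hu hv h]

end Pool.Agent.P.MP_cb5d8b_an
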