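import Pool.Agent.P.MP_cb5d8b_an.Base

/-! A graph without loops has a section. -/

namespace Pool.Agent.P.MP_cb5d8b_an

open Set Metric Filter Topology

namespace Sec

theorem arc_range {a : unitInterval → S2} (hc : Continuous a) (hi : Function.Injective a) :
    ArcSet (range a) (a 0) (a 1) := by
  refine ⟨fun u => a (projIcc 0 1 zero_le_one u), 0, 1, zero_le_one,
    hc.comp continuous_projIcc, ?_, by simp, by simp, ?_⟩
  · intro u hu v hv e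
    have := hi e
    rw [projIcc_of_mem _ hu, projIcc_of_mem _ hv] at this
    exact congrArg Subtype.val this
  · ext w
    constructor
    · rintro ⟨u, -, rfl⟩
      exact ⟨_, rfl⟩
    · rintro ⟨u, rfl⟩
      exact ⟨u.1, u.2, by simp⟩

theorem arcwise {T : Set S2} (hT : IsGraph T) {x y : S2} (hx : x ∈ T) (hy : y ∈ T) :
    ∃ A, A ⊆ T ∧ ArcSet A x y := by
  obtain ⟨hc, m, a, ha, hG, -⟩ := hT
  have sub : ∀ i, range (a i) ⊆ T := fun i => hG ▸ subset_iUnion (fun i => range (a i)) i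
  have cl : ∀ P : Fin m → Prop, IsClosed (⋃ i ∈ {i | P i}, range (a i)) := fun P =>
    (toFinite _).isClosed_biUnion fun i _ => (isCompact_range (ha i).1).isClosed
  by_contra hn
  obtain ⟨z, -, hz1, hz2⟩ := isPreconnected_closed_iff.1 hc.isPreconnected _ _
    (cl fun i => ∃ A, A ⊆ T ∧ ArcSet A x (a i 0)) (cl fun i => ¬ ∃ A, A ⊆ T ∧ ArcSet A x (a i 0))
    (by
      intro w hw
      rw [hG] at hw
      obtain ⟨i, hi⟩ := mem_iUnion.1 hw
      by_cases h : ∃ A, A ⊆ T ∧ ArcSet A x (a i 0)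
      · exact Or.inl (mem_biUnion (s := {i | ∃ A, A ⊆ T ∧ ArcSet A x (a i 0)}) h hi)
      · exact Or.inr (mem_biUnion (s := {i | ¬ ∃ A, A ⊆ T ∧ ArcSet A x (a i 0)}) h hi))
    (by
      have hx' := hx
      rw [hG] at hx'
      obtain ⟨i, hi⟩ := mem_iUnion.1 hx'
      obtain ⟨B, sB, hB⟩ := (arc_range (ha i).1 (ha i).2).between hi ⟨0, rfl⟩
      exact ⟨x, hx, mem_biUnion (s := {i | ∃ A, A ⊆ T ∧ ArcSet A x (a i 0)})
        ⟨B, sB.trans (sub i), hB⟩ hi⟩)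
    (by
      have hy' := hy
      rw [hG] at hy'
      obtain ⟨i, hi⟩ := mem_iUnion.1 hy'
      refine ⟨y, hy, mem_biUnion (s := {i | ¬ ∃ A, A ⊆ T ∧ ArcSet A x (a i 0)}) ?_ hi⟩
      rintro ⟨A, sA, hA⟩
      obtain ⟨B, sB, hB⟩ := (arc_range (ha i).1 (ha i).2).between ⟨0, rfl⟩ hi
      obtain ⟨C, sC, hC⟩ := hA.trans hB
      exact hn ⟨C, sC.trans (union_subset sA (sB.trans (sub i))), hC⟩)
  obtain ⟨i, ⟨A, sA, hA⟩, hi⟩ := mem_iUnion₂.1 hz1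
  obtain ⟨j, hj, hj'⟩ := mem_iUnion₂.1 hz2
  obtain ⟨B, sB, hB⟩ := (arc_range (ha i).1 (ha i).2).between ⟨0, rfl⟩ hi
  obtain ⟨B', sB', hB'⟩ := (arc_range (ha j).1 (ha j).2).between hj' ⟨0, rfl⟩
  obtain ⟨C, sC, hC⟩ := hA.trans hB
  obtain ⟨C', sC', hC'⟩ := hC.trans hB'
  exact hj ⟨C', sC'.trans (union_subset (sC.trans (union_subset sA (sB.trans (sub i))))
    (sB'.trans (sub j))), hC'⟩

/-- A compact tree-like set on which the map is injective. -/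
structure Nice (Θ : ℂ → S2) (T : Set S2) (w : ℂ) (D : Set ℂ) : Prop where
  cpt : IsCompact D
  inj : InjOn Θ D
  sub : Θ '' D ⊆ T
  mem : w ∈ D
  arc : ∀ x ∈ D, ∃ A, A ⊆ D ∧ ArcSet A w x

theorem step (hLIFT : S_LIFT) {Θ : ℂ → S2} (hΘ : Pil Θ) {T : Set S2} (hT : IsGraph T) {w : ℂ}
    {D : Set ℂ} (hD : Nice Θ T w D) {p : S2} (hp : p ∈ T) :
    ∃ D', Nice Θ T w D' ∧ D ⊆ D' ∧ p ∈ Θ '' D' := by
  obtain ⟨A, sA, hA⟩ := arcwise hT hp (hD.sub ⟨w, hD.mem, rfl⟩)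
  obtain ⟨A₁, _, ⟨z, hz, rfl⟩, s1, a1, i1⟩ :=
    hA.first (hD.cpt.image hΘ.cont).isClosed ⟨w, hD.mem, rfl⟩
  obtain ⟨B, w', hB, e, iB, hw'⟩ := hLIFT Θ hΘ A₁ _ _ z a1.symm rfl
  have key : ∀ x ∈ D, ∀ y ∈ B, Θ x = Θ y → x = z ∧ y = z := by
    intro x hx y hy h
    have h1 : Θ y = Θ z := i1 ⟨e ▸ ⟨y, hy, rfl⟩, ⟨x, hx, h⟩⟩
    exact ⟨hD.inj hx hz (h.trans h1), iB hy hB.left h1⟩
  refine ⟨D ∪ B, ⟨hD.cpt.union hB.compact, ?_, ?_, Or.inl hD.mem, ?_⟩, subset_union_left,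
    ⟨w', Or.inr hB.right, hw'⟩⟩
  · rintro x (hx | hx) y (hy | hy) h
    · exact hD.inj hx hy h
    · obtain ⟨h1, h2⟩ := key x hx y hy h
      rw [h1, h2]
    · obtain ⟨h1, h2⟩ := key y hy x hx h.symm
      rw [h1, h2]
    · exact iB hx hy h
  · rw [image_union, e]
    exact union_subset hD.sub (s1.trans sA)
  · rintro x (hx | hx)
    · obtain ⟨C, sC, hC⟩ := hD.arc x hx
      exact ⟨C, sC.trans subset_union_left, hC⟩
    · obtain ⟨C, sC, hC⟩ := hD.arc z hz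
      obtain ⟨B₁, B₂, b1, -, e', -⟩ := hB.split hx
      obtain ⟨E, sE, hE⟩ := hC.trans b1
      exact ⟨E, sE.trans (union_subset_union sC (e' ▸ subset_union_left)), hE⟩

theorem many (hLIFT : S_LIFT) {Θ : ℂ → S2} (hΘ : Pil Θ) {T : Set S2} (hT : IsGraph T) {w : ℂ}
    (hw : Θ w ∈ T) (l : List S2) (hl : ∀ p ∈ l, p ∈ T) :
    ∃ D, Nice Θ T w D ∧ ∀ p ∈ l, p ∈ Θ '' D := by
  induction l with
  | nil =>
    exact ⟨{w}, ⟨isCompact_singleton, by simp, by simpa using hw, rfl,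
      fun x hx => ⟨{w}, Subset.rfl, (show x = w from hx) ▸ ArcSet.point _⟩⟩, by simp⟩
  | cons q l ih =>
    obtain ⟨D, hD, h⟩ := ih fun p hp => hl p (List.mem_cons_of_mem _ hp)
    obtain ⟨D', hD', s, hq⟩ := step hLIFT hΘ hT hD (hl q List.mem_cons_self)
    refine ⟨D', hD', fun p hp => ?_⟩
    rcases List.mem_cons.1 hp with rfl | hp
    · exact hq
    · exact image_mono s (h p hp)

theorem joined {A : Set ℂ} {x y : ℂ} (h : ArcSet A x y) : JoinedIn A x y := by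
  have hx := h.left
  have hy := h.right
  obtain ⟨c, s, t, hst, hc, -, -, -, rfl⟩ := h
  exact (((convex_Icc s t).isPathConnected ⟨s, left_mem_Icc.2 hst⟩).image hc).joinedIn x hx y hy

end Sec

theorem p_SEC (hLIFT : S_LIFT) : S_SEC := by
  intro Θ hΘ T hT hN
  obtain ⟨x₀, hx₀⟩ := hT.1.nonempty
  obtain ⟨w, rfl⟩ := hΘ.surj x₀
  obtain ⟨-, m, a, ha, hG, -⟩ := id hT
  have sub : ∀ i, range (a i) ⊆ T := fun i => hG ▸ subset_iUnion (fun i => range (a i)) i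
  obtain ⟨D, hD, h⟩ := Sec.many hLIFT hΘ hT hx₀
    (List.ofFn (fun i => a i 0) ++ List.ofFn fun i => a i 1) (by
      intro p hp
      rcases List.mem_append.1 hp with hp | hp <;> obtain ⟨i, rfl⟩ := List.mem_ofFn.1 hp <;>
        exact sub i ⟨_, rfl⟩)
  refine ⟨D, hD.cpt, ⟨w, hD.mem, fun y hy => ?_⟩, hD.inj, hD.sub.antisymm ?_⟩
  · obtain ⟨A, sA, hA⟩ := hD.arc y hy
    exact (Sec.joined hA).mono sA
  · intro p hp
    rw [hG] at hp
    obtain ⟨i, hi⟩ := mem_iUnion.1 hp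
    obtain ⟨x, hx, ex⟩ := h (a i 0) (List.mem_append_left _ (List.mem_ofFn.2 ⟨i, rfl⟩))
    obtain ⟨y, hy, ey⟩ := h (a i 1) (List.mem_append_right _ (List.mem_ofFn.2 ⟨i, rfl⟩))
    obtain ⟨A, sA, hA⟩ := hD.arc x hx
    obtain ⟨B, sB, hB⟩ := hD.arc y hy
    obtain ⟨C, sC, hC⟩ := hA.symm.trans hB
    have sD : C ⊆ D := sC.trans (union_subset sA sB)
    have hI := hC.image hΘ.cont (hD.inj.mono sD)
    rw [ex, ey] at hI
    have := hN.unique (Sec.arc_range (ha i).1 (ha i).2) hI (sub i) ((image_mono sD).trans hD.sub)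
    exact image_mono sD (this ▸ hi)

end Pool.Agent.P.MP_cb5d8b_an
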