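import Pool.Agent.P.MP_cb5d8b_an.Base

/-! Expansion of the quotient of the shear map. -/

namespace Pool.Agent.P.MP_cb5d8b_an

open Set Metric Filter Topology

namespace Expd

/-- The equator. -/
def Eqt : Set S2 := {p | p.1 2 = 0}

theorem jordan : IsJordanCurve Eqt := by
  have hn : ∀ ζ : Circle, (ζ : ℂ).re ^ 2 + (ζ : ℂ).im ^ 2 = 1 := fun ζ => by
    have h := Complex.sq_norm (ζ : ℂ)
    rw [Circle.norm_coe, Complex.normSq_apply] at h
    nlinarith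
  refine ⟨fun ζ => ⟨!₂[(ζ : ℂ).re, (ζ : ℂ).im, 0], ?_⟩, ?_, ?_, ?_⟩
  · rw [mem_sphere_zero_iff_norm, EuclideanSpace.norm_eq, Fin.sum_univ_three]
    simp [hn ζ]
  · refine Continuous.subtype_mk ?_ _
    refine (PiLp.continuous_toLp 2 _).comp (continuous_pi fun i => ?_)
    fin_cases i
    · exact Complex.continuous_re.comp continuous_subtype_val
    · exact Complex.continuous_im.comp continuous_subtype_val
    · exact continuous_const
  · intro ζ ζ' h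
    have h0 := congrArg (fun p : S2 => p.1 0) h
    have h1 := congrArg (fun p : S2 => p.1 1) h
    exact Circle.ext (Complex.ext (by simpa using h0) (by simpa using h1))
  · ext p
    constructor
    · rintro ⟨ζ, rfl⟩
      simp [Eqt]
    · intro hp
      have hp2 : p.1 2 = 0 := hp
      have h1 : ‖p.1‖ = 1 := mem_sphere_zero_iff_norm.mp p.2
      rw [EuclideanSpace.norm_eq, Fin.sum_univ_three, hp2, Real.sqrt_eq_one] at h1
      simp only [Real.norm_eq_abs, sq_abs] at h1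
      have h2 : ‖(⟨p.1 0, p.1 1⟩ : ℂ)‖ = 1 := by
        rw [Complex.norm_eq_sqrt_sq_add_sq, Real.sqrt_eq_one]
        simp only
        linarith
      refine ⟨⟨⟨p.1 0, p.1 1⟩, mem_sphere_zero_iff_norm.mpr h2⟩, Subtype.ext ?_⟩
      ext i
      fin_cases i
      · rfl
      · rfl
      · exact hp2.symm

/-- The open cells. -/
def Q (a c : ℤ) (k : ℤ × ℤ) : Set ℂ :=
  {z | ((k.1 : ℝ) < 2 * (Bm a c z).re ∧ 2 * (Bm a c z).re < k.1 + 1) ∧
    ((k.2 : ℝ) < 2 * (Bm a c z).im ∧ 2 * (Bm a c z).im < k.2 + 1)}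

theorem isOpen_Q (a c : ℤ) (k : ℤ × ℤ) : IsOpen (Q a c k) := by
  have h := Bm_cont a c
  have h1 : Continuous fun z => 2 * (Bm a c z).re := by fun_prop
  have h2 : Continuous fun z => 2 * (Bm a c z).im := by fun_prop
  exact ((isOpen_lt continuous_const h1).inter (isOpen_lt h1 continuous_const)).inter
    ((isOpen_lt continuous_const h2).inter (isOpen_lt h2 continuous_const))

theorem shift {k k' m : ℤ} {x y : ℝ} (hx : (k : ℝ) < x ∧ x < k + 1)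
    (hx' : (k' : ℝ) < x - 2 * m ∧ x - 2 * m < k' + 1) (hy : (k : ℝ) < y ∧ y < k + 1) :
    (k' : ℝ) < y - 2 * m ∧ y - 2 * m < k' + 1 := by
  have h1 : k - 2 * m < k' + 1 := by
    have : (k : ℝ) - 2 * m < k' + 1 := by linarith [hx.1, hx'.2]
    exact_mod_cast this
  have h2 : k' < k + 1 - 2 * m := by
    have : (k' : ℝ) < k + 1 - 2 * m := by linarith [hx.2, hx'.1]
    exact_mod_cast this
  have h3 : (k' : ℝ) = k - 2 * m := by
    have : k' = k - 2 * m := by omega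
    exact_mod_cast this
  exact ⟨by linarith [hy.1], by linarith [hy.2]⟩

theorem flip {k k' m : ℤ} {x y : ℝ} (hx : (k : ℝ) < x ∧ x < k + 1)
    (hx' : (k' : ℝ) < 2 * m - x ∧ 2 * m - x < k' + 1) (hy : (k : ℝ) < y ∧ y < k + 1) :
    (k' : ℝ) < 2 * m - y ∧ 2 * m - y < k' + 1 := by
  have h1 : 2 * m - k - 1 < k' + 1 := by
    have : 2 * (m : ℝ) - k - 1 < k' + 1 := by linarith [hx.2, hx'.2]
    exact_mod_cast this
  have h2 : k' < 2 * m - k := by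
    have : (k' : ℝ) < 2 * m - k := by linarith [hx.1, hx'.1]
    exact_mod_cast this
  have h3 : (k' : ℝ) = 2 * m - k - 1 := by
    have : k' = 2 * m - k - 1 := by omega
    exact_mod_cast this
  exact ⟨by linarith [hy.2], by linarith [hy.1]⟩

theorem move {a c : ℤ} {k k' : ℤ × ℤ} {u v : ℂ} (hu : u ∈ Q a c k) (hv : v ∈ Q a c k')
    (h : Rel u v) {z : ℂ} (hz : z ∈ Q a c k) : ∃ w ∈ Q a c k', Rel z w := by
  rcases h with h | h
  · obtain ⟨m, n, h1, h2⟩ := Bm_lat a c h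
    have e : ∀ y, 2 * (Bm a c (y - (u - v))).re = 2 * (Bm a c y).re - 2 * m ∧
        2 * (Bm a c (y - (u - v))).im = 2 * (Bm a c y).im - 2 * n := fun y => by
      rw [Bm_sub a c y, Complex.sub_re, Complex.sub_im, h1, h2]
      exact ⟨by ring, by ring⟩
    have eu := e u
    rw [sub_sub_cancel] at eu
    refine ⟨z - (u - v), ⟨?_, ?_⟩, Or.inl (by rwa [sub_sub_cancel])⟩
    · rw [(e z).1]
      exact shift hu.1 (eu.1 ▸ hv.1) hz.1
    · rw [(e z).2]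
      exact shift hu.2 (eu.2 ▸ hv.2) hz.2
  · obtain ⟨m, n, h1, h2⟩ := Bm_lat a c h
    have e : ∀ y, 2 * (Bm a c (u + v - y)).re = 2 * m - 2 * (Bm a c y).re ∧
        2 * (Bm a c (u + v - y)).im = 2 * n - 2 * (Bm a c y).im := fun y => by
      rw [Bm_sub a c _ y, Complex.sub_re, Complex.sub_im, h1, h2]
      exact ⟨by ring, by ring⟩
    have eu := e u
    rw [add_sub_cancel_left] at eu
    refine ⟨u + v - z, ⟨?_, ?_⟩, Or.inr (by rwa [add_sub_cancel])⟩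
    · rw [(e z).1]
      exact flip hu.1 (eu.1 ▸ hv.1) hz.1
    · rw [(e z).2]
      exact flip hu.2 (eu.2 ▸ hv.2) hz.2

theorem floor_lt {x : ℝ} (h : ¬ ∃ m : ℤ, x = m) : ((⌊x⌋ : ℤ) : ℝ) < x ∧ x < (⌊x⌋ : ℤ) + 1 :=
  ⟨(Int.floor_le x).lt_of_ne fun e => h ⟨_, e.symm⟩, Int.lt_floor_add_one x⟩

theorem sub_cell {Θ : ℂ → S2} (hΘ : Pil Θ) (a c : ℤ) (g : S2 → S2)
    (hg : ∀ z, g (Θ z) = Θ (Bm a c z)) (W : Set S2) (hW : IsPreconnected W)
    (hsub : W ⊆ (g ⁻¹' Eqt)ᶜ) : ∃ k, W ⊆ Θ '' Q a c k := by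
  have hcov : ∀ x ∈ W, ∃ k, x ∈ Θ '' Q a c k := by
    intro x hx
    obtain ⟨z, rfl⟩ := hΘ.surj x
    have h1 : ¬ (Θ (Bm a c z)).1 2 = 0 := fun h => hsub hx (by
      show (g (Θ z)).1 2 = 0
      rw [hg]
      exact h)
    rw [hΘ.equ, not_or] at h1
    exact ⟨(⌊2 * (Bm a c z).re⌋, ⌊2 * (Bm a c z).im⌋), z, ⟨floor_lt h1.1, floor_lt h1.2⟩, rfl⟩
  have hle : ∀ k k', ∀ x ∈ Θ '' Q a c k, x ∈ Θ '' Q a c k' → Θ '' Q a c k ⊆ Θ '' Q a c k' := by
    rintro k k' _ ⟨u, hu, rfl⟩ ⟨v, hv, e⟩ _ ⟨z, hz, rfl⟩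
    obtain ⟨w, hw, hr⟩ := move hu hv ((hΘ.fib u v).mp e.symm) hz
    exact ⟨w, hw, ((hΘ.fib z w).mpr hr).symm⟩
  rcases W.eq_empty_or_nonempty with rfl | ⟨x, hx⟩
  · exact ⟨(0, 0), empty_subset _⟩
  obtain ⟨k, hk⟩ := hcov x hx
  refine ⟨k, hW.subset_left_of_subset_union
    (v := ⋃ k' ∈ {k' | Θ '' Q a c k' ≠ Θ '' Q a c k}, Θ '' Q a c k')
    (hΘ.opn _ (isOpen_Q a c k)) (isOpen_biUnion fun k' _ => hΘ.opn _ (isOpen_Q a c k')) ?_ ?_
    ⟨x, hx, hk⟩⟩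
  · rw [disjoint_left]
    intro y h1 h2
    obtain ⟨k', hk', h3⟩ := mem_iUnion₂.mp h2
    exact hk' (Subset.antisymm (hle _ _ y h3 h1) (hle _ _ y h1 h3))
  · intro y hy
    obtain ⟨k', h1⟩ := hcov y hy
    by_cases h2 : Θ '' Q a c k' = Θ '' Q a c k
    · exact Or.inl (h2 ▸ h1)
    · exact Or.inr (mem_iUnion₂.mpr ⟨k', h2, h1⟩)

theorem dist_cell (b : ℤ) (n : ℕ) (k : ℤ × ℤ) {u v : ℂ}
    (hu : u ∈ Q (2 ^ (n + 1)) ((n + 1) * 2 ^ n * b) k)
    (hv : v ∈ Q (2 ^ (n + 1)) ((n + 1) * 2 ^ n * b) k) :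
    dist u v ≤ (1 / 2) ^ n + (n * (1 / 2) ^ n + (1 / 2) ^ n) * |(b : ℝ)| := by
  obtain ⟨⟨h1, h2⟩, h3, h4⟩ := hu
  obtain ⟨⟨h5, h6⟩, h7, h8⟩ := hv
  simp only [Bm] at h1 h2 h3 h4 h5 h6 h7 h8
  push_cast at h1 h2 h3 h4 h5 h6 h7 h8
  rw [pow_succ] at h1 h2 h3 h4 h5 h6 h7 h8
  have hA : (0 : ℝ) < 2 ^ n := by positivity
  have hB : (1 / 2 : ℝ) ^ n * 2 ^ n = 1 := by rw [← mul_pow]; norm_num
  have hB0 : (0 : ℝ) < (1 / 2) ^ n := by positivity
  have hn : (0 : ℝ) ≤ n := Nat.cast_nonneg n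
  generalize (2 : ℝ) ^ n = A at *
  generalize (1 / 2 : ℝ) ^ n = B at *
  have key : ∀ x y : ℝ, |A * x| ≤ y → |x| ≤ B * y := fun x y h => by
    rw [abs_mul, abs_of_pos hA] at h
    have := mul_le_mul_of_nonneg_left h hB0.le
    rwa [← mul_assoc, hB, one_mul] at this
  have a1 : |A * (u.im - v.im)| ≤ 1 / 4 := abs_le.mpr ⟨by linarith, by linarith⟩
  have a2 : |A * (2 * (u.re - v.re) + (n + 1) * b * (u.im - v.im))| ≤ 1 / 2 :=
    abs_le.mpr ⟨by linarith, by linarith⟩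
  have a3 := key _ _ a1
  have a4 := abs_le.mp (key _ _ a2)
  have a5 : |((n : ℝ) + 1) * b * (u.im - v.im)| ≤ (n + 1) * |(b : ℝ)| * (B * (1 / 4)) := by
    rw [abs_mul, abs_mul, abs_of_nonneg (by linarith : (0 : ℝ) ≤ n + 1)]
    exact mul_le_mul_of_nonneg_left a3 (by positivity)
  have a6 := abs_le.mp a5
  have a7 : 0 ≤ ((n : ℝ) + 1) * |(b : ℝ)| * B := by positivity
  have a8 : |u.re - v.re| ≤ B / 4 + (n + 1) * |(b : ℝ)| * B :=
    abs_le.mpr ⟨by linarith, by linarith⟩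
  have a9 := Complex.norm_le_abs_re_add_abs_im (u - v)
  rw [Complex.sub_re, Complex.sub_im] at a9
  rw [dist_eq_norm]
  linarith

end Expd

theorem p_EXP : S_EXP := by
  intro Θ hΘ b f hf hpost
  refine ⟨Expd.Eqt, Expd.jordan, hpost.trans ?_, fun ε hε => ?_⟩
  · rintro _ ⟨z, ⟨m, n, h1, -⟩, rfl⟩
    exact (hΘ.equ z).mpr (Or.inl ⟨m, by simpa using h1⟩)
  obtain ⟨δ, hδ, H⟩ := Metric.uniformContinuous_iff.mp hΘ.unif ε hε
  have t1 : Tendsto (fun n : ℕ => (1 / 2 : ℝ) ^ n) atTop (𝓝 0) :=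
    tendsto_pow_atTop_nhds_zero_of_lt_one (by norm_num) (by norm_num)
  have t2 : Tendsto (fun n : ℕ => (n : ℝ) * (1 / 2 : ℝ) ^ n) atTop (𝓝 0) :=
    tendsto_self_mul_const_pow_of_lt_one (by norm_num) (by norm_num)
  have t3 := t1.add ((t2.add t1).mul_const |(b : ℝ)|)
  rw [add_zero, zero_mul, add_zero] at t3
  obtain ⟨N, hN⟩ := eventually_atTop.mp (t3.eventually (gt_mem_nhds hδ))
  filter_upwards [eventually_ge_atTop (N + 1)] with n hn x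
  obtain ⟨n, rfl⟩ : ∃ m, n = m + 1 := ⟨n - 1, by omega⟩
  obtain ⟨k, hk⟩ := Expd.sub_cell hΘ _ _ _ (iter hf n) _ isPreconnected_connectedComponentIn
    (connectedComponentIn_subset _ x)
  refine diam_le_of_forall_dist_le hε.le fun p hp q hq => ?_
  obtain ⟨u, hu, rfl⟩ := hk hp
  obtain ⟨v, hv, rfl⟩ := hk hq
  exact (H ((Expd.dist_cell b n k hu hv).trans_lt (hN n (by omega)))).le

end Pool.Agent.P.MP_cb5d8b_an
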