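import Pool.Agent.P.MP_cb5d8b_an.Base

/-! The pillowcase map. -/

namespace Pool.Agent.P.MP_cb5d8b_an

open Set Metric Filter Topology Real

namespace PilA

/-- The pillowcase surface. -/
noncomputable def Nv (z : ℂ) : EuclideanSpace ℝ (Fin 3) :=
  !₂[cos (2 * π * z.re), cos (2 * π * z.im), sin (2 * π * z.re) * sin (2 * π * z.im)]

theorem Nv0 (z : ℂ) : Nv z 0 = cos (2 * π * z.re) := rfl
theorem Nv1 (z : ℂ) : Nv z 1 = cos (2 * π * z.im) := rfl
theorem Nv2 (z : ℂ) : Nv z 2 = sin (2 * π * z.re) * sin (2 * π * z.im) := rfl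

theorem Nv_cont : Continuous Nv := by
  unfold Nv
  fun_prop

theorem surf (z : ℂ) : Nv z 2 ^ 2 = (1 - Nv z 0 ^ 2) * (1 - Nv z 1 ^ 2) := by
  rw [Nv0, Nv1, Nv2, mul_pow, sin_sq, sin_sq]

theorem Nv_ne (z : ℂ) : Nv z ≠ 0 := fun h => by
  have := surf z
  rw [h] at this
  simp at this

theorem scale {z w : ℂ} {t : ℝ} (ht : 1 ≤ t) (h : Nv z = t • Nv w) : t = 1 := by
  by_contra hne
  have ht' : 1 < t ^ 2 := by nlinarith [lt_of_le_of_ne ht (Ne.symm hne)]
  have s1 := surf z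
  have s2 := surf w
  have b0 : Nv z 0 ^ 2 ≤ 1 := by rw [Nv0]; exact cos_sq_le_one _
  have b1 : Nv z 1 ^ 2 ≤ 1 := by rw [Nv1]; exact cos_sq_le_one _
  rw [h] at s1 b0 b1
  simp only [PiLp.smul_apply, smul_eq_mul, mul_pow] at s1 b0 b1
  set a := Nv w 0 ^ 2
  set b := Nv w 1 ^ 2
  set c := Nv w 2 ^ 2
  set s := t ^ 2
  have ha : 0 ≤ a := sq_nonneg _
  have hb : 0 ≤ b := sq_nonneg _
  have ha1 : a < 1 := by nlinarith
  have hb1 : b < 1 := by nlinarith
  have hc : 0 < c := by rw [s2]; exact mul_pos (by linarith) (by linarith)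
  have : (1 - s * a) * (1 - s * b) ≤ (1 - a) * (1 - b) :=
    mul_le_mul (by nlinarith) (by nlinarith) (by linarith) (by linarith)
  nlinarith

/-- The pillowcase map onto the sphere. -/
noncomputable def Th (z : ℂ) : S2 :=
  ⟨‖Nv z‖⁻¹ • Nv z, by
    rw [mem_sphere_zero_iff_norm, norm_smul, norm_inv, norm_norm,
      inv_mul_cancel₀ (norm_ne_zero_iff.2 (Nv_ne z))]⟩

theorem Th_cont : Continuous Th :=
  ((Nv_cont.norm.inv₀ fun z => norm_ne_zero_iff.2 (Nv_ne z)).smul Nv_cont).subtype_mk _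

theorem Th_eq {z w : ℂ} : Th z = Th w ↔ Nv z = Nv w := by
  refine ⟨fun h => ?_, fun h => Subtype.ext (by simp only [Th, h])⟩
  have key : ∀ {z w : ℂ}, Th z = Th w → ‖Nv w‖ ≤ ‖Nv z‖ → Nv z = Nv w := by
    intro z w h hle
    have e : ‖Nv z‖⁻¹ • Nv z = ‖Nv w‖⁻¹ • Nv w := congrArg Subtype.val h
    have hz := norm_pos_iff.2 (Nv_ne z)
    have hw := norm_pos_iff.2 (Nv_ne w)
    have e' : Nv z = (‖Nv z‖ * ‖Nv w‖⁻¹) • Nv w := by
      rw [mul_smul, ← e, smul_smul, mul_inv_cancel₀ hz.ne', one_smul]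
    have := scale (by rw [← div_eq_mul_inv, one_le_div hw]; exact hle) e'
    rwa [this, one_smul] at e'
  rcases le_total ‖Nv w‖ ‖Nv z‖ with h' | h'
  · exact key h h'
  · exact (key h.symm h').symm

theorem cos_iff {x y : ℝ} (h : cos (2 * π * x) = cos (2 * π * y)) :
    (∃ k : ℤ, x - y = k) ∨ ∃ k : ℤ, x + y = k := by
  obtain ⟨k, h | h⟩ := cos_eq_cos_iff.1 h.symm
  · exact Or.inl ⟨k, mul_left_cancel₀ two_pi_pos.ne' (by linarith)⟩
  · exact Or.inr ⟨k, mul_left_cancel₀ two_pi_pos.ne' (by linarith)⟩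

theorem sin_iff {x : ℝ} : sin (2 * π * x) = 0 ↔ ∃ m : ℤ, 2 * x = m := by
  rw [sin_eq_zero_iff]
  exact ⟨fun ⟨m, h⟩ => ⟨m, mul_left_cancel₀ pi_pos.ne' (by linarith)⟩,
    fun ⟨m, h⟩ => ⟨m, by rw [← h]; ring⟩⟩

theorem sin_add' {x y : ℝ} {k : ℤ} (h : x - y = k) : sin (2 * π * x) = sin (2 * π * y) := by
  rw [show 2 * π * x = 2 * π * y + k * (2 * π) by rw [← h]; ring, sin_add_int_mul_two_pi]

theorem cos_add' {x y : ℝ} {k : ℤ} (h : x - y = k) : cos (2 * π * x) = cos (2 * π * y) := by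
  rw [show 2 * π * x = 2 * π * y + k * (2 * π) by rw [← h]; ring, cos_add_int_mul_two_pi]

theorem sin_sub' {x y : ℝ} {k : ℤ} (h : x + y = k) : sin (2 * π * x) = -sin (2 * π * y) := by
  rw [sin_add' (y := -y) (k := k) (by linarith), mul_neg, sin_neg]

theorem cos_sub' {x y : ℝ} {k : ℤ} (h : x + y = k) : cos (2 * π * x) = cos (2 * π * y) := by
  rw [cos_add' (y := -y) (k := k) (by linarith), mul_neg, cos_neg]

theorem fib (z w : ℂ) : Th z = Th w ↔ Rel z w := by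
  rw [Th_eq]
  constructor
  · intro h
    have h0 : Nv z 0 = Nv w 0 := by rw [h]
    have h1 : Nv z 1 = Nv w 1 := by rw [h]
    have h2 : Nv z 2 = Nv w 2 := by rw [h]
    rw [Nv0, Nv0] at h0
    rw [Nv1, Nv1] at h1
    rw [Nv2, Nv2] at h2
    rcases cos_iff h0 with ⟨k, hk⟩ | ⟨k, hk⟩ <;> rcases cos_iff h1 with ⟨l, hl⟩ | ⟨l, hl⟩
    · exact Or.inl ⟨k, l, by simpa using hk, by simpa using hl⟩
    · rw [sin_add' hk, sin_sub' hl] at h2
      rcases mul_eq_zero.1 (show sin (2 * π * w.re) * sin (2 * π * w.im) = 0 by linarith) with h | h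
      · obtain ⟨m, hm⟩ := sin_iff.1 h
        exact Or.inr ⟨k + m, l, by simp; linarith, by simpa using hl⟩
      · obtain ⟨m, hm⟩ := sin_iff.1 h
        exact Or.inl ⟨k, l - m, by simpa using hk, by simp; linarith⟩
    · rw [sin_sub' hk, sin_add' hl] at h2
      rcases mul_eq_zero.1 (show sin (2 * π * w.re) * sin (2 * π * w.im) = 0 by linarith) with h | h
      · obtain ⟨m, hm⟩ := sin_iff.1 h
        exact Or.inl ⟨k - m, l, by simp; linarith, by simpa using hl⟩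
      · obtain ⟨m, hm⟩ := sin_iff.1 h
        exact Or.inr ⟨k, l + m, by simpa using hk, by simp; linarith⟩
    · exact Or.inr ⟨k, l, by simpa using hk, by simpa using hl⟩
  · rintro (⟨k, l, hk, hl⟩ | ⟨k, l, hk, hl⟩)
    · rw [Complex.sub_re] at hk
      rw [Complex.sub_im] at hl
      unfold Nv
      rw [cos_add' hk, cos_add' hl, sin_add' hk, sin_add' hl]
    · rw [Complex.add_re] at hk
      rw [Complex.add_im] at hl
      unfold Nv
      rw [cos_sub' hk, cos_sub' hl, sin_sub' hk, sin_sub' hl, neg_mul_neg]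

theorem equ (z : ℂ) : (Th z).1 2 = 0 ↔ (∃ m : ℤ, 2 * z.re = m) ∨ ∃ m : ℤ, 2 * z.im = m := by
  rw [← sin_iff, ← sin_iff, ← mul_eq_zero, ← Nv2]
  simp [Th, Nv_ne z]

theorem point {a b c : ℝ} (ha : |a| ≤ 1) (hb : |b| ≤ 1) (h : c ^ 2 = (1 - a ^ 2) * (1 - b ^ 2)) :
    ∃ z, Nv z = !₂[a, b, c] := by
  obtain ⟨a1, a2⟩ := abs_le.1 ha
  obtain ⟨b1, b2⟩ := abs_le.1 hb
  have e : ∀ x : ℝ, 2 * π * (x / (2 * π)) = x := fun x => mul_div_cancel₀ _ two_pi_pos.ne'
  have hs : (√(1 - a ^ 2) * √(1 - b ^ 2)) ^ 2 = c ^ 2 := by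
    rw [mul_pow, sq_sqrt (by nlinarith), sq_sqrt (by nlinarith), h]
  rcases sq_eq_sq_iff_eq_or_eq_neg.1 hs with h | h
  · refine ⟨⟨arccos a / (2 * π), arccos b / (2 * π)⟩, ?_⟩
    unfold Nv
    simp only [e, cos_arccos a1 a2, cos_arccos b1 b2, sin_arccos, h]
  · refine ⟨⟨arccos a / (2 * π), -arccos b / (2 * π)⟩, ?_⟩
    unfold Nv
    simp only [e, cos_neg, sin_neg, cos_arccos a1 a2, cos_arccos b1 b2, sin_arccos, mul_neg, h,
      neg_neg]

theorem surj : Function.Surjective Th := by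
  rintro ⟨p, hp⟩
  have hn : ‖p‖ = 1 := mem_sphere_zero_iff_norm.1 hp
  obtain ⟨M, hM⟩ : ∃ M, M = max |p 0| (max |p 1| |p 2|) := ⟨_, rfl⟩
  have m0 : |p 0| ≤ M := hM ▸ le_max_left _ _
  have m1 : |p 1| ≤ M := hM ▸ (le_max_left _ _).trans (le_max_right _ _)
  have m2 : |p 2| ≤ M := hM ▸ (le_max_right _ _).trans (le_max_right _ _)
  have hpos : 0 < M := by
    by_contra hle
    have : p = 0 := by
      ext i
      fin_cases i
      · exact abs_nonpos_iff.1 (m0.trans (not_lt.1 hle))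
      · exact abs_nonpos_iff.1 (m1.trans (not_lt.1 hle))
      · exact abs_nonpos_iff.1 (m2.trans (not_lt.1 hle))
    simp [this] at hn
  have hb : ∀ {x t : ℝ}, |x| ≤ M → t ∈ Icc 0 M⁻¹ → |t * x| ≤ 1 := fun {x t} hx ht => by
    rw [abs_mul, abs_of_nonneg ht.1]
    calc t * |x| ≤ M⁻¹ * M := mul_le_mul ht.2 hx (abs_nonneg _) (inv_pos.2 hpos).le
      _ = 1 := inv_mul_cancel₀ hpos.ne'
  have h1 : ∀ {x : ℝ}, M = |x| → (M⁻¹ * x) ^ 2 = 1 := fun {x} hx => by
    rw [mul_pow, ← sq_abs x, ← hx, ← mul_pow, inv_mul_cancel₀ hpos.ne', one_pow]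
  have hI : M⁻¹ ∈ Icc 0 M⁻¹ := right_mem_Icc.2 (inv_pos.2 hpos).le
  obtain ⟨t, ht, e⟩ := intermediate_value_Icc (inv_pos.2 hpos).le
    (f := fun t => (t * p 2) ^ 2 - (1 - (t * p 0) ^ 2) * (1 - (t * p 1) ^ 2)) (by fun_prop)
    (show (0 : ℝ) ∈ _ from ⟨by simp, by
      have c0 := (sq_le_one_iff_abs_le_one _).2 (hb m0 hI)
      have c1 := (sq_le_one_iff_abs_le_one _).2 (hb m1 hI)
      beta_reduce
      rcases max_choice |p 0| (max |p 1| |p 2|) with h | h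
      · rw [h1 (hM.trans h)]; simp; positivity
      · rcases max_choice |p 1| |p 2| with h' | h'
        · rw [h1 (hM.trans (h.trans h'))]; simp; positivity
        · rw [h1 (hM.trans (h.trans h'))]
          nlinarith [sq_nonneg (M⁻¹ * p 0), sq_nonneg (M⁻¹ * p 1)]⟩)
  beta_reduce at e
  have ht0 : 0 < t := lt_of_le_of_ne ht.1 fun h => by simp [← h] at e
  obtain ⟨z, hz⟩ := point (hb m0 ht) (hb m1 ht) (sub_eq_zero.1 e)
  have hz' : Nv z = t • p := by
    rw [hz]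
    ext i
    fin_cases i <;> simp
  refine ⟨z, Subtype.ext ?_⟩
  simp only [Th, hz', norm_smul, hn, mul_one, Real.norm_eq_abs, abs_of_pos ht0, smul_smul,
    inv_mul_cancel₀ ht0.ne', one_smul]

theorem reduce (z : ℂ) : ∃ l ∈ Lat, ‖z - l‖ ≤ 2 := by
  refine ⟨⟨⌊z.re⌋, ⌊z.im⌋⟩, ⟨_, _, rfl, rfl⟩, (Complex.norm_le_abs_re_add_abs_im _).trans ?_⟩
  have h : ∀ x : ℝ, |x - ⌊x⌋| ≤ 1 := fun x =>
    abs_le.2 ⟨by linarith [Int.floor_le x], by linarith [Int.lt_floor_add_one x]⟩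
  have := h z.re
  have := h z.im
  simp only [Complex.sub_re, Complex.sub_im]
  linarith

theorem shift {z l : ℂ} (hl : l ∈ Lat) : Th (z - l) = Th z :=
  (fib _ _).2 (Or.inl (by simpa using Lat.neg hl))

theorem opn : IsOpenMap Th := by
  have hq : IsQuotientMap Th := by
    have : CompactSpace (closedBall (0 : ℂ) 2) := isCompact_iff_compactSpace.1 (isCompact_closedBall _ _)
    have hc : Continuous (Th ∘ ((↑) : closedBall (0 : ℂ) 2 → ℂ)) :=
      Th_cont.comp continuous_subtype_val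
    refine IsQuotientMap.of_comp continuous_subtype_val Th_cont
      (hc.isClosedMap.isQuotientMap hc fun p => ?_)
    obtain ⟨z, rfl⟩ := surj p
    obtain ⟨l, hl, h⟩ := reduce z
    exact ⟨⟨z - l, by simpa using h⟩, shift hl⟩
  intro U hU
  rw [← hq.isOpen_preimage]
  have : Th ⁻¹' (Th '' U) = ⋃ l ∈ Lat, ((fun z => z - l) ⁻¹' U ∪ (fun z => l - z) ⁻¹' U) := by
    ext z
    simp only [mem_preimage, mem_image, mem_iUnion, mem_union]
    constructor
    · rintro ⟨w, hw, e⟩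
      rcases (fib _ _).1 e.symm with h | h
      · exact ⟨_, h, Or.inl (by simpa using hw)⟩
      · exact ⟨_, h, Or.inr (by simpa using hw)⟩
    · rintro ⟨l, hl, h | h⟩
      · exact ⟨_, h, shift hl⟩
      · exact ⟨_, h, (fib _ _).2 (Or.inr (by simpa using hl))⟩
  rw [this]
  exact isOpen_biUnion fun l _ => (hU.preimage (by fun_prop)).union (hU.preimage (by fun_prop))

theorem unif : UniformContinuous Th := by
  have h := (isCompact_closedBall (0 : ℂ) 3).uniformContinuousOn_of_continuous Th_cont.continuousOn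
  rw [Metric.uniformContinuousOn_iff] at h
  rw [Metric.uniformContinuous_iff]
  intro ε hε
  obtain ⟨δ, hδ, h⟩ := h ε hε
  refine ⟨min δ 1, lt_min hδ one_pos, fun {a b} hab => ?_⟩
  obtain ⟨l, hl, ha⟩ := reduce a
  have h1 := hab.trans_le (min_le_right _ _)
  rw [← shift (z := a) hl, ← shift (z := b) hl]
  refine h _ (by simpa using ha.trans (by norm_num)) _ ?_
    (by simpa using hab.trans_le (min_le_left _ _))
  rw [mem_closedBall_zero_iff]
  rw [dist_eq_norm] at h1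
  have : ‖b - l‖ ≤ ‖a - l‖ + ‖a - b‖ := by
    have := norm_sub_le (a - l) (a - b)
    rwa [show a - l - (a - b) = b - l by ring] at this
  linarith

end PilA

theorem p_PIL : S_PIL :=
  ⟨PilA.Th, PilA.Th_cont, PilA.surj, PilA.fib, PilA.equ, PilA.opn, PilA.unif⟩

end Pool.Agent.P.MP_cb5d8b_an
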