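import Pool.Agent.P.MP_cb5d8b_an.Base

/-! Critical points, postcritical set and degree of the quotient of the shear map. -/

namespace Pool.Agent.P.MP_cb5d8b_an

open Set Metric Filter Topology

namespace Post

/-- The inverse of the shear map. -/
noncomputable def Ai (j : ℤ) (w : ℂ) : ℂ := ⟨(w.re - j * w.im) / 2, w.im / 2⟩

theorem A_Ai (j : ℤ) (w : ℂ) : Bm 2 (2 * j) (Ai j w) = w :=
  Complex.ext (by simp [Bm, Ai]; ring) (by simp [Bm, Ai]; ring)

theorem Ai_A (j : ℤ) (z : ℂ) : Ai j (Bm 2 (2 * j) z) = z :=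
  Complex.ext (by simp [Bm, Ai]; ring) (by simp [Bm, Ai])

theorem Ai_cont (j : ℤ) : Continuous (Ai j) := by
  have : Ai j = fun w => (((w.re - j * w.im) / 2 : ℝ) : ℂ) + ((w.im / 2 : ℝ) : ℂ) * Complex.I :=
    funext fun z => Complex.ext (by simp [Ai]) (by simp [Ai])
  rw [this]
  fun_prop

/-- The shear map as a homeomorphism. -/
noncomputable def Ah (j : ℤ) : ℂ ≃ₜ ℂ where
  toFun := Bm 2 (2 * j)
  invFun := Ai j
  left_inv := Ai_A j
  right_inv := A_Ai j
  continuous_toFun := Bm_cont _ _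
  continuous_invFun := Ai_cont j

theorem A_inj (j : ℤ) : Function.Injective (Bm 2 (2 * j)) := (Ah j).injective

theorem A_lat (j : ℤ) (z : ℂ) : Bm 2 (2 * j) z ∈ Lat ↔ z ∈ Cone := by
  constructor
  · rintro ⟨m, n, h1, h2⟩
    simp only [Bm] at h1 h2
    push_cast at h1 h2
    refine ⟨m - j * n, n, ?_, ?_⟩
    · simp only [Complex.mul_re, Complex.re_ofNat, Complex.im_ofNat]
      push_cast
      rw [← h1, ← h2]; ring
    · simp only [Complex.mul_im, Complex.re_ofNat, Complex.im_ofNat]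
      rw [← h2]; ring
  · rintro ⟨m, n, h1, h2⟩
    simp only [Complex.mul_re, Complex.mul_im, Complex.re_ofNat, Complex.im_ofNat] at h1 h2
    refine ⟨m + j * n, n, ?_, ?_⟩
    · simp only [Bm]
      push_cast
      rw [← h1, ← h2]; ring
    · simp only [Bm]
      push_cast
      rw [← h2]; ring

theorem near {z u v : ℂ} {r : ℝ} (hr : r ≤ 1 / 4) (hu : u ∈ ball z r) (hv : v ∈ ball z r) :
    ‖u - v‖ < 1 ∧ ‖u + v - 2 * z‖ < 1 := by
  rw [mem_ball, dist_eq_norm] at hu hv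
  have a1 := norm_sub_le (u - z) (v - z)
  have a2 := norm_add_le (u - z) (v - z)
  rw [show u - z - (v - z) = u - v by ring] at a1
  rw [show u - z + (v - z) = u + v - 2 * z by ring] at a2
  constructor <;> linarith

theorem loc1 {z : ℂ} (hz : z ∉ Cone) :
    ∃ r > 0, ∀ u ∈ ball z r, ∀ v ∈ ball z r, Rel u v → u = v := by
  obtain ⟨r, hr, hb⟩ := Metric.isOpen_iff.1 Cone.closed.isOpen_compl z hz
  refine ⟨min r (1 / 4), lt_min hr (by norm_num), fun u hu v hv h => ?_⟩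
  rcases h with h | h
  · exact sub_eq_zero.1 (Lat.eq_zero h (near (min_le_right _ _) hu hv).1)
  · exfalso
    have hm : (1 / 2 : ℝ) • u + (1 / 2 : ℝ) • v ∈ ball z (min r (1 / 4)) :=
      convex_ball z _ hu hv (by norm_num) (by norm_num) (by norm_num)
    refine hb (ball_subset_ball (min_le_left _ _) hm) ?_
    change 2 * _ ∈ Lat
    rwa [show 2 * ((1 / 2 : ℝ) • u + (1 / 2 : ℝ) • v) = u + v by
      simp only [Complex.real_smul]; push_cast; ring]

theorem loc2 {z : ℂ} (hz : z ∈ Cone) :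
    ∀ u ∈ ball z (1 / 4), ∀ v ∈ ball z (1 / 4), Rel u v → u = v ∨ u + v = 2 * z := by
  intro u hu v hv h
  rcases h with h | h
  · exact Or.inl (sub_eq_zero.1 (Lat.eq_zero h (near le_rfl hu hv).1))
  · exact Or.inr (sub_eq_zero.1 (Lat.eq_zero (Lat.sub h hz) (near le_rfl hu hv).2))

/-- The four half periods. -/
noncomputable def hh (p : Fin 2 × Fin 2) : ℂ := ⟨(p.1 : ℕ) / 2, (p.2 : ℕ) / 2⟩

theorem hh_cone (p : Fin 2 × Fin 2) : hh p ∈ Cone :=
  ⟨(p.1 : ℕ), (p.2 : ℕ), by simp [hh]; ring, by simp [hh]; ring⟩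

theorem hh_inj {p q : Fin 2 × Fin 2} (h : hh p - hh q ∈ Lat) : p = q := by
  obtain ⟨m, n, h1, h2⟩ := h
  simp only [hh, Complex.sub_re, Complex.sub_im] at h1 h2
  have a1 : ((p.1 : ℕ) : ℤ) - (q.1 : ℕ) = 2 * m := by
    have : ((p.1 : ℕ) : ℝ) - (q.1 : ℕ) = 2 * m := by linarith
    exact_mod_cast this
  have a2 : ((p.2 : ℕ) : ℤ) - (q.2 : ℕ) = 2 * n := by
    have : ((p.2 : ℕ) : ℝ) - (q.2 : ℕ) = 2 * n := by linarith
    exact_mod_cast this
  have b1 := p.1.2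
  have b2 := p.2.2
  have b3 := q.1.2
  have b4 := q.2.2
  exact Prod.ext (Fin.ext (by omega)) (Fin.ext (by omega))

theorem cone_hh {c : ℂ} (hc : c ∈ Cone) : ∃ p, c - hh p ∈ Lat := by
  obtain ⟨m, n, h1, h2⟩ := hc
  simp only [Complex.mul_re, Complex.mul_im, Complex.re_ofNat, Complex.im_ofNat] at h1 h2
  have key : ∀ k : ℤ, ∃ (a : Fin 2) (l : ℤ), (k : ℝ) = (a : ℕ) + 2 * l := by
    intro k
    rcases Int.even_or_odd' k with ⟨l, hl | hl⟩
    · exact ⟨0, l, by simp [hl]⟩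
    · exact ⟨1, l, by simp [hl]; ring⟩
  obtain ⟨a, l, ha⟩ := key m
  obtain ⟨b, l', hb⟩ := key n
  refine ⟨(a, b), l, l', ?_, ?_⟩
  · simp only [hh, Complex.sub_re]; linarith
  · simp only [hh, Complex.sub_im]; linarith

variable {Θ : ℂ → S2} {j : ℤ} {f : S2 → S2}

theorem f_cont (hΘ : Pil Θ) (hf : ∀ z, f (Θ z) = Θ (Bm 2 (2 * j) z)) : Continuous f := by
  rw [(hΘ.opn.isQuotientMap hΘ.cont hΘ.surj).continuous_iff]
  have : f ∘ Θ = Θ ∘ Bm 2 (2 * j) := funext hf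
  rw [this]
  exact hΘ.cont.comp (Bm_cont _ _)

theorem f_open (hΘ : Pil Θ) (hf : ∀ z, f (Θ z) = Θ (Bm 2 (2 * j) z)) : IsOpenMap f := by
  intro U hU
  have : f '' U = Θ '' (Ah j '' (Θ ⁻¹' U)) := by
    ext y
    constructor
    · rintro ⟨x, hx, rfl⟩
      obtain ⟨z, rfl⟩ := hΘ.surj x
      exact ⟨_, ⟨z, hx, rfl⟩, (hf z).symm⟩
    · rintro ⟨_, ⟨z, hz, rfl⟩, rfl⟩
      exact ⟨Θ z, hz, hf z⟩
  rw [this]
  exact hΘ.opn _ ((Ah j).isOpenMap _ (hU.preimage hΘ.cont))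

theorem loc_of_inj (hc : Continuous f) (ho : IsOpenMap f) {U : Set S2} (hU : IsOpen U)
    (hi : InjOn f U) {p : S2} (hp : p ∈ U) : IsLocalHomeomorphOn f {p} := by
  have : Nonempty S2 := ⟨p⟩
  rintro x rfl
  exact ⟨OpenPartialHomeomorph.ofContinuousOpen (hi.toPartialEquiv f U) hc.continuousOn ho hU,
    hp, rfl⟩

theorem not_crit (hΘ : Pil Θ) (hf : ∀ z, f (Θ z) = Θ (Bm 2 (2 * j) z)) {z : ℂ}
    (hz : z ∈ Cone ∨ Bm 2 (2 * j) z ∉ Cone) : Θ z ∉ crit f := by
  intro hcr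
  apply hcr
  have main : ∀ r > 0, (∀ u ∈ Bm 2 (2 * j) ⁻¹' ball (Bm 2 (2 * j) z) r,
      ∀ v ∈ Bm 2 (2 * j) ⁻¹' ball (Bm 2 (2 * j) z) r,
        Rel (Bm 2 (2 * j) u) (Bm 2 (2 * j) v) → Rel u v) → IsLocalHomeomorphOn f {Θ z} := by
    intro r hr h
    refine loc_of_inj (f_cont hΘ hf) (f_open hΘ hf)
      (hΘ.opn _ ((isOpen_ball (x := Bm 2 (2 * j) z) (ε := r)).preimage (Bm_cont _ _))) ?_
      ⟨z, mem_ball_self hr, rfl⟩
    rintro _ ⟨u, hu, rfl⟩ _ ⟨v, hv, rfl⟩ huv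
    rw [hf, hf, hΘ.fib] at huv
    exact (hΘ.fib _ _).2 (h u hu v hv huv)
  rcases hz with hz | hz
  · refine main (1 / 4) (by norm_num) fun u hu v hv h => ?_
    rcases loc2 (Bm_cone 2 (2 * j) hz) _ hu _ hv h with h | h
    · rw [A_inj j h]; exact Rel.refl _
    · rw [← Bm_add, ← Bm_two] at h
      exact Or.inr (A_inj j h ▸ hz)
  · obtain ⟨r, hr, h1⟩ := loc1 hz
    refine main r hr fun u hu v hv h => ?_
    rw [A_inj j (h1 _ hu _ hv h)]; exact Rel.refl _

theorem is_crit (hΘ : Pil Θ) (hf : ∀ z, f (Θ z) = Θ (Bm 2 (2 * j) z)) {z : ℂ}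
    (hz : z ∉ Cone) (hA : Bm 2 (2 * j) z ∈ Cone) : Θ z ∈ crit f := by
  intro hl
  obtain ⟨e, he, hfe⟩ := hl _ rfl
  obtain ⟨r, hr, h1⟩ := loc1 hz
  obtain ⟨s, hs, h2⟩ := Metric.isOpen_iff.1 (e.open_source.preimage hΘ.cont) z he
  have ht : 0 < min r s / 2 := by positivity
  have hlt : min r s / 2 < min r s := half_lt_self (lt_min hr hs)
  set t : ℝ := min r s / 2
  have m1 : z + t ∈ ball z (min r s) := by
    rw [mem_ball, dist_eq_norm, add_sub_cancel_left, Complex.norm_real, Real.norm_eq_abs,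
      abs_of_pos ht]
    exact hlt
  have m2 : z - t ∈ ball z (min r s) := by
    rw [mem_ball, dist_eq_norm, sub_sub_cancel_left, norm_neg, Complex.norm_real,
      Real.norm_eq_abs, abs_of_pos ht]
    exact hlt
  have e1 : f (Θ (z + t)) = f (Θ (z - t)) := by
    rw [hf, hf, hΘ.fib]
    right
    rw [← Bm_add, show z + t + (z - t) = 2 * z by ring, Bm_two]
    exact hA
  rw [hfe] at e1
  have e2 := e.injOn (h2 (ball_subset_ball (min_le_right _ _) m1))
    (h2 (ball_subset_ball (min_le_right _ _) m2)) e1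
  have e3 := h1 _ (ball_subset_ball (min_le_left _ _) m1) _
    (ball_subset_ball (min_le_left _ _) m2) ((hΘ.fib _ _).1 e2)
  have e4 := congrArg Complex.re e3
  simp only [Complex.add_re, Complex.sub_re, Complex.ofReal_re] at e4
  linarith

theorem g_inj (hΘ : Pil Θ) (j : ℤ) {z : ℂ} (hz : z ∈ Cone ∨ Bm 2 (2 * j) z ∉ Cone) :
    Function.Injective fun p => Θ (z + hh p) := by
  intro p q h
  rcases (hΘ.fib _ _).1 h with h | h
  · exact hh_inj (by rwa [add_sub_add_left_eq_sub] at h)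
  · rcases hz with hz | hz
    · have := Lat.sub (Lat.sub h hz) (hh_cone q)
      exact hh_inj (by rwa [show z + hh p + (z + hh q) - 2 * z - 2 * hh q = hh p - hh q by ring]
        at this)
    · exfalso
      apply hz
      have := Lat.sub (Lat.sub (Bm_lat 2 (2 * j) h) ((A_lat j _).2 (hh_cone p)))
        ((A_lat j _).2 (hh_cone q))
      rwa [← Bm_sub, ← Bm_sub, show z + hh p + (z + hh q) - hh p - hh q = 2 * z by ring,
        Bm_two] at this

theorem card4 {g : Fin 2 × Fin 2 → S2} (hg : Function.Injective g) : (range g).ncard = 4 := by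
  rw [← image_univ, ncard_image_of_injective _ hg, ncard_univ]
  simp

theorem fibre (hΘ : Pil Θ) (hf : ∀ z, f (Θ z) = Θ (Bm 2 (2 * j) z)) (z : ℂ) :
    f ⁻¹' {f (Θ z)} = range fun p => Θ (z + hh p) := by
  ext y
  obtain ⟨w, rfl⟩ := hΘ.surj y
  rw [mem_preimage, mem_singleton_iff, hf, hf, hΘ.fib]
  constructor
  · rintro (h | h)
    · rw [← Bm_sub, A_lat] at h
      obtain ⟨p, hp⟩ := cone_hh h
      refine ⟨p, ((hΘ.fib _ _).2 (Or.inl ?_)).symm⟩
      rwa [show w - (z + hh p) = w - z - hh p by ring]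
    · rw [← Bm_add, A_lat] at h
      obtain ⟨p, hp⟩ := cone_hh h
      refine ⟨p, ((hΘ.fib _ _).2 (Or.inr ?_)).symm⟩
      have := Lat.add hp (hh_cone p)
      rwa [show w + z - hh p + 2 * hh p = w + (z + hh p) by ring] at this
  · rintro ⟨p, hp⟩
    have h1 := Bm_rel 2 (2 * j) ((hΘ.fib _ _).1 hp.symm)
    have h2 := (A_lat j _).2 (hh_cone p)
    rw [Bm_add] at h1
    rcases h1 with h1 | h1
    · left
      have := Lat.add h1 h2
      rwa [show ∀ a b c : ℂ, a - (b + c) + c = a - b from fun a b c => by ring] at this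
    · right
      have := Lat.sub h1 h2
      rwa [show ∀ a b c : ℂ, a + (b + c) - c = a + b from fun a b c => by ring] at this

theorem cone_range (hΘ : Pil Θ) : Θ '' Cone = range fun p => Θ (0 + hh p) := by
  ext y
  constructor
  · rintro ⟨c, hc, rfl⟩
    obtain ⟨p, hp⟩ := cone_hh hc
    exact ⟨p, ((hΘ.fib _ _).2 (Or.inl (by rwa [zero_add]))).symm⟩
  · rintro ⟨p, rfl⟩
    exact ⟨_, by rw [zero_add]; exact hh_cone p, rfl⟩

theorem post_eq (hΘ : Pil Θ) (hf : ∀ z, f (Θ z) = Θ (Bm 2 (2 * j) z)) : post f = Θ '' Cone := by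
  have val : ∀ c ∈ Cone, c ∉ Lat → Θ (Ai j c) ∈ crit f := fun c hc hl =>
    is_crit hΘ hf (fun h => hl (by rw [← A_Ai j c, A_lat]; exact h)) (by rwa [A_Ai])
  ext y
  simp only [post, mem_iUnion, exists_prop]
  constructor
  · rintro ⟨n, hn, x, hx, rfl⟩
    obtain ⟨z, rfl⟩ := hΘ.surj x
    have hA : Bm 2 (2 * j) z ∈ Cone := by
      by_contra h
      exact not_crit hΘ hf (Or.inr h) hx
    induction n, hn using Nat.le_induction with
    | base => exact ⟨_, hA, (hf z).symm⟩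
    | succ n _ ih =>
      obtain ⟨c, hc, h⟩ := ih
      rw [Function.iterate_succ_apply', ← h, hf]
      exact ⟨_, Bm_cone _ _ hc, rfl⟩
  · rintro ⟨c, hc, rfl⟩
    by_cases hl : c ∈ Lat
    · have h1 : hh (1, 0) ∉ Lat := fun h => by
        have h0 : hh (0, 0) = 0 := Complex.ext (by simp [hh]) (by simp [hh])
        have : ((1, 0) : Fin 2 × Fin 2) = (0, 0) := hh_inj (by rwa [h0, sub_zero])
        exact absurd this (by decide)
      refine ⟨2, by norm_num, _, val _ (hh_cone _) h1, ?_⟩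
      change f (f _) = _
      rw [hf, A_Ai, hf, hΘ.fib]
      exact Or.inl (Lat.sub ((A_lat j _).2 (hh_cone _)) hl)
    · refine ⟨1, le_rfl, _, val c hc hl, ?_⟩
      change f _ = _
      rw [hf, A_Ai]

end Post

theorem p_POST : S_POST := by
  intro Θ hΘ j f hf
  refine ⟨Post.post_eq hΘ hf, ?_, fun y hy => ?_⟩
  · rw [Post.cone_range hΘ]
    exact Post.card4 (Post.g_inj hΘ j (Or.inl (by
      change 2 * 0 ∈ Lat
      rw [mul_zero]; exact Lat.zero)))
  · obtain ⟨w, rfl⟩ := hΘ.surj y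
    have h1 : f (Θ (Post.Ai j w)) = Θ w := by rw [hf, Post.A_Ai]
    rw [← h1, Post.fibre hΘ hf]
    refine Post.card4 (Post.g_inj hΘ j ?_)
    by_contra h
    rw [not_or, not_not] at h
    exact hy ⟨_, Post.is_crit hΘ hf h.1 h.2, h1⟩

end Pool.Agent.P.MP_cb5d8b_an
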