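import Pool.Agent.P.MP_cb5d8b_an.Plane
import Pool.Agent.P.MP_cb5d8b_an.Idx

/-! A periodic path that crosses a periodic closed set in few small balls. -/

open Set Metric

namespace Pool.Agent.P.MP_cb5d8b_an.Faces

/-- `z` and `w` are joined inside `O` and at most `r` good balls. -/
def Ch (O : Set ℂ) (Good : ℂ → ℝ → Prop) (r : ℕ) (z w : ℂ) : Prop :=
  ∃ s : Finset (ℂ × ℝ), s.card ≤ r ∧ (∀ p ∈ s, Good p.1 p.2) ∧
    JoinedIn (O ∪ ⋃ p ∈ s, ball p.1 p.2) z w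

variable {O : Set ℂ} {Good : ℂ → ℝ → Prop} {r r' : ℕ} {z w x : ℂ}

theorem Ch.of_joined (h : JoinedIn O z w) : Ch O Good 0 z w :=
  ⟨∅, le_rfl, by simp, h.mono subset_union_left⟩

theorem Ch.symm (h : Ch O Good r z w) : Ch O Good r w z := by
  obtain ⟨s, h1, h2, h3⟩ := h
  exact ⟨s, h1, h2, h3.symm⟩

theorem Ch.mono (h : Ch O Good r z w) (hr : r ≤ r') : Ch O Good r' z w := by
  obtain ⟨s, h1, h2, h3⟩ := h
  exact ⟨s, h1.trans hr, h2, h3⟩

theorem Ch.trans (h : Ch O Good r z w) (h' : Ch O Good r' w x) : Ch O Good (r + r') z x := by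
  classical
  obtain ⟨s, h1, h2, h3⟩ := h
  obtain ⟨s', h1', h2', h3'⟩ := h'
  refine ⟨s ∪ s', (Finset.card_union_le _ _).trans (add_le_add h1 h1'), fun p hp => ?_,
    (h3.mono (union_subset_union_right _ ?_)).trans (h3'.mono (union_subset_union_right _ ?_))⟩
  · rcases Finset.mem_union.1 hp with hp | hp
    exacts [h2 p hp, h2' p hp]
  · exact biUnion_subset_biUnion_left fun p hp => Finset.mem_union_left _ hp
  · exact biUnion_subset_biUnion_left fun p hp => Finset.mem_union_right _ hp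

theorem Ch.ball {c : ℂ} {ε : ℝ} (h : Good c ε) (hz : z ∈ ball c ε) (hw : w ∈ ball c ε) :
    Ch O Good 1 z w := by
  refine ⟨{(c, ε)}, by simp, by simpa using h, ?_⟩
  refine (((convex_ball c ε).isPathConnected ⟨z, hz⟩).joinedIn z hz w hw).mono ?_
  simp

theorem Ch.add (hl : ∀ z ∈ O, ∀ l ∈ Lat, z + l ∈ O)
    (hGl : ∀ c ε l, l ∈ Lat → Good c ε → Good (c + l) ε) (h : Ch O Good r z w) {l : ℂ}
    (hl' : l ∈ Lat) : Ch O Good r (z + l) (w + l) := by
  classical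
  obtain ⟨s, h1, h2, h3⟩ := h
  refine ⟨s.image fun p => (p.1 + l, p.2), Finset.card_image_le.trans h1, fun p hp => ?_,
    (h3.map (f := fun y => y + l) (by fun_prop)).mono ?_⟩
  · obtain ⟨q, hq, rfl⟩ := Finset.mem_image.1 hp
    exact hGl _ _ _ hl' (h2 q hq)
  · rintro _ ⟨y, hy | hy, rfl⟩
    · exact Or.inl (hl y hy l hl')
    · obtain ⟨p, hp, hy⟩ := mem_iUnion₂.1 hy
      refine Or.inr (mem_iUnion₂.2 ⟨(p.1 + l, p.2), Finset.mem_image_of_mem _ hp, ?_⟩)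
      simpa [mem_ball, dist_add_right] using hy

/-- a nonempty part of `O` that is closed under single steps is everything -/
theorem closed (hO : IsOpen O) (hd : Dense O)
    (hG : {c | ¬ ∃ ε, 0 < ε ∧ Good c ε}.Countable) {U : Set ℂ} (hU : (U ∩ O).Nonempty)
    (h : ∀ z ∈ U, ∀ w ∈ O, Ch O Good 1 z w → w ∈ U) : O ⊆ U := by
  set X := {c | ¬ ∃ ε, 0 < ε ∧ Good c ε}ᶜ with hX
  have Xc : IsPreconnected X :=
    (hG.isConnected_compl_of_one_lt_rank (by simp [Complex.rank_real_complex])).isPreconnected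
  have Xd : Dense X := hG.dense_compl ℝ
  have op : ∀ W : Set ℂ, IsOpen {c | ∃ ε, 0 < ε ∧ O ∩ ball c ε ⊆ W} := fun W => by
    rw [Metric.isOpen_iff]
    rintro c ⟨ε, e0, he⟩
    refine ⟨ε / 2, half_pos e0, fun c' hc' => ⟨ε / 2, half_pos e0, fun y hy => he ⟨hy.1, ?_⟩⟩⟩
    have h1 := mem_ball.1 hy.2
    have h2 := mem_ball.1 hc'
    exact mem_ball.2 ((dist_triangle y c' c).trans_lt (by linarith))
  have near : ∀ z ∈ O, ∃ c ∈ X, JoinedIn O z c := fun z hz => by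
    obtain ⟨c, h1, h2⟩ := Xd.exists_mem_open (hO.pathComponentIn z) ⟨z, mem_pathComponentIn_self hz⟩
    exact ⟨c, h1, h2⟩
  have key := Xc.subset_or_subset (op U) (op Uᶜ) (by
    rw [Set.disjoint_left]
    rintro c ⟨ε, e0, he⟩ ⟨ε', e0', he'⟩
    obtain ⟨y, h1, h2⟩ := hd.exists_mem_open isOpen_ball (nonempty_ball.2 (lt_min e0 e0') :
      (ball c (min ε ε')).Nonempty)
    exact he' ⟨h1, ball_subset_ball (min_le_right _ _) h2⟩
      (he ⟨h1, ball_subset_ball (min_le_left _ _) h2⟩)) (by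
    intro c hc
    obtain ⟨ε, e0, he⟩ : ∃ ε, 0 < ε ∧ Good c ε := not_not.1 hc
    by_cases hx : ∃ y ∈ O ∩ ball c ε, y ∈ U
    · obtain ⟨y, hy, hyU⟩ := hx
      exact Or.inl ⟨ε, e0, fun y' hy' => h y hyU y' hy'.1 (Ch.ball he hy.2 hy'.2)⟩
    · exact Or.inr ⟨ε, e0, fun y hy hyU => hx ⟨y, hy, hyU⟩⟩)
  rcases key with key | key
  · intro z hz
    obtain ⟨c, h1, h2⟩ := near z hz
    obtain ⟨ε, e0, he⟩ := key h1
    exact h c (he ⟨h2.target_mem, mem_ball_self e0⟩) z hz ((Ch.of_joined h2.symm).mono (by omega))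
  · obtain ⟨z, hzU, hz⟩ := hU
    obtain ⟨c, h1, h2⟩ := near z hz
    obtain ⟨ε, e0, he⟩ := key h1
    exact absurd (h z hzU c h2.target_mem ((Ch.of_joined h2).mono (by omega)))
      (he ⟨h2.target_mem, mem_ball_self e0⟩)

/-- the transversal -/
theorem transversal (hO : IsOpen O) (hd : Dense O) (hl : ∀ z ∈ O, ∀ l ∈ Lat, z + l ∈ O)
    (P : Finset ℂ) (hP : ∀ z ∈ O, ∃ p ∈ P, ∃ l ∈ Lat, JoinedIn O z (p + l))
    (hG : {c | ¬ ∃ ε, 0 < ε ∧ Good c ε}.Countable)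
    (hGl : ∀ c ε l, l ∈ Lat → Good c ε → Good (c + l) ε) :
    ∃ z u, u ∈ Lat ∧ u.im ≠ 0 ∧ Ch O Good (2 * P.card) z (z + u) := by
  classical
  obtain ⟨z0, hz0⟩ := hd.nonempty
  set U : ℕ → Set ℂ := fun r => {z | ∃ l ∈ Lat, Ch O Good r z0 (z + l)} with hU
  have Um : ∀ r, U r ⊆ U (r + 1) := fun r z ⟨l, h1, h2⟩ => ⟨l, h1, h2.mono (by omega)⟩
  have Uj : ∀ r k z w l, l ∈ Lat → z ∈ U r → Ch O Good k z (w + l) → w ∈ U (r + k) := by
    rintro r k z w l h0 ⟨l', h1, h2⟩ h3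
    refine ⟨l + l', Lat.add h0 h1, ?_⟩
    rw [← add_assoc]
    exact h2.trans (h3.add hl hGl h1)
  have U0 : ∀ r, z0 ∈ U r := fun r =>
    ⟨0, Lat.zero, by simpa using (Ch.of_joined (JoinedIn.refl hz0)).mono (Nat.zero_le r)⟩
  set S : ℕ → Finset ℂ := fun r => P.filter (· ∈ U r) with hS
  obtain ⟨r, hr, hSr⟩ : ∃ r, r < P.card ∧ S r = S (r + 1) := by
    by_contra hne
    push Not at hne
    have : ∀ r, r ≤ P.card → r + 1 ≤ (S r).card := by
      intro r
      induction r with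
      | zero =>
        intro _
        obtain ⟨p, h1, l, h2, h3⟩ := hP z0 hz0
        exact Finset.card_pos.2 ⟨p, Finset.mem_filter.2
          ⟨h1, Uj 0 0 _ _ _ h2 (U0 0) (Ch.of_joined h3)⟩⟩
      | succ r ih =>
        intro h
        have h1 := ih (by omega)
        have h2 : S r ⊂ S (r + 1) := Finset.ssubset_iff_subset_ne.2
          ⟨Finset.monotone_filter_right _ fun p _ hp => Um r hp, hne r (by omega)⟩
        have := Finset.card_lt_card h2
        omega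
    have h1 := this _ le_rfl
    have h2 : (S P.card).card ≤ P.card := Finset.card_filter_le _ _
    omega
  have all : O ⊆ U r := closed hO hd hG ⟨z0, U0 r, hz0⟩ fun z hz w hw h => by
    have h1 : w ∈ U (r + 1) := Uj r 1 z w 0 Lat.zero hz (by simpa using h)
    obtain ⟨p, h2, l, h3, h4⟩ := hP w hw
    have h5 : p ∈ S (r + 1) :=
      Finset.mem_filter.2 ⟨h2, Uj (r + 1) 0 _ _ _ h3 h1 (Ch.of_joined h4)⟩
    rw [← hSr] at h5
    refine Uj r 0 p w (-l) (Lat.neg h3) (Finset.mem_filter.1 h5).2 ?_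
    simpa using (Ch.of_joined h4.symm).add hl hGl (Lat.neg h3)
  by_contra hne
  push Not at hne
  have hI : Complex.I ∈ Lat := ⟨0, 1, by simp, by simp⟩
  have all' : O ⊆ {z | ∃ l ∈ Lat, l.im = 0 ∧ Ch O Good r z0 (z + l)} :=
    closed hO hd hG ⟨z0, ⟨0, Lat.zero, by simp,
      by simpa using (Ch.of_joined (JoinedIn.refl hz0)).mono (Nat.zero_le r)⟩, hz0⟩ (by
      rintro z ⟨l, h1, h2, h3⟩ w hw h
      obtain ⟨l', h4, h5⟩ := all hw
      refine ⟨l', h4, ?_, h5⟩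
      by_contra h6
      refine hne (w + l') (l - l') (Lat.sub h1 h4) (by simpa [h2] using h6) ?_
      rw [show w + l' + (l - l') = w + l by ring]
      exact ((h5.symm.trans h3).trans (h.add hl hGl h1)).mono (by omega))
  obtain ⟨l, h1, h2, h3⟩ := all' (hl z0 hz0 _ hI)
  refine hne z0 (Complex.I + l) (Lat.add hI h1) (by simp [h2]) ?_
  rw [← add_assoc]
  exact h3.mono (by omega)

/-- small balls that meet a translate of `K` only if the centre lies in it -/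
theorem exists_radius {K : Set ℂ} (hK : IsCompact K) (c : ℂ) :
    ∃ ε, 0 < ε ∧ ∀ l ∈ Lat, ∀ b ∈ K, b + l ∈ ball c ε → ∃ b' ∈ K, b' + l = c := by
  obtain ⟨R, hR⟩ := hK.exists_bound_of_continuousOn continuousOn_id
  set F : Set ℂ := {l ∈ {l ∈ Lat | ‖l‖ ≤ R + ‖c‖ + 1} | ¬ ∃ b' ∈ K, b' + l = c} with hF
  have Ff : F.Finite := (Plane.lat_finite _).subset fun l hl => hl.1
  have Zc : IsClosed (⋃ l ∈ F, (fun b => b + l) '' K) :=
    Ff.isClosed_biUnion fun l _ => (hK.image (by fun_prop)).isClosed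
  obtain ⟨ε, e0, he⟩ := Metric.isOpen_iff.1 Zc.isOpen_compl c (by
    intro hc
    obtain ⟨l, h1, h2⟩ := mem_iUnion₂.1 hc
    exact h1.2 h2)
  refine ⟨min ε 1, lt_min e0 one_pos, fun l hl b hb h => ?_⟩
  by_contra hn
  refine he (ball_subset_ball (min_le_left _ _) h) (mem_iUnion₂.2 ⟨l, ⟨⟨hl, ?_⟩, hn⟩, b, hb, rfl⟩)
  have h1 : ‖b + l - c‖ < 1 := by
    simpa [mem_ball, dist_eq_norm] using ball_subset_ball (min_le_right _ _) h
  have h2 : ‖b‖ ≤ R := hR b hb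
  calc ‖l‖ = ‖(b + l - c) - b + c‖ := by congr 1; ring
    _ ≤ ‖b + l - c‖ + ‖b‖ + ‖c‖ := (norm_add_le _ _).trans (by gcongr; exact norm_sub_le _ _)
    _ ≤ R + ‖c‖ + 1 := by linarith

/-- counting the crossings -/
theorem count {K : Set ℂ} (hK : ∀ b ∈ K, ∀ l ∈ Lat, b + l ∉ O) {z u y v : ℂ} (hu : u ∈ Lat)
    (hv : v ∈ Lat) (hA : Ch O Good r z (z + u)) (hB : JoinedIn K y (y + v)) (q : ℕ)
    (hG : ∀ c ε, Good c ε → (∀ l ∈ Lat, ∀ b ∈ K, b + l ∈ ball c ε → ∃ b' ∈ K, b' + l = c) ∧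
      ∃ D : Finset ℂ, D.card ≤ q ∧ ∀ l ∈ Lat, (∃ b ∈ K, b + l = c) → l ∈ D) :
    |u.re * v.im - u.im * v.re| ≤ r * q := by
  classical
  rcases eq_or_ne (u.re * v.im - u.im * v.re) 0 with h0 | h0
  · rw [h0, abs_zero]
    positivity
  obtain ⟨s, h1, h2, h3⟩ := hA
  have : ∀ p : ℂ × ℝ, ∃ D : Finset ℂ, D.card ≤ q ∧
      (p ∈ s → ∀ l ∈ Lat, (∃ b ∈ K, b + l = p.1) → l ∈ D) := fun p => by
    by_cases hp : p ∈ s
    · obtain ⟨D, d1, d2⟩ := (hG _ _ (h2 p hp)).2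
      exact ⟨D, d1, fun _ => d2⟩
    · exact ⟨∅, Nat.zero_le _, fun h => absurd h hp⟩
  choose D d1 d2 using this
  have key := Idx.det_le_card (s.biUnion D) hu hv fun l hl => by
    have hJ : JoinedIn ((fun b => b + l) '' K) (y + l) (y + l + v) := by
      rw [add_right_comm]
      exact hB.map (f := fun b => b + l) (by fun_prop)
    obtain ⟨a, ha, _, ⟨b, hb, rfl⟩, i, j, h⟩ := Cross.cross h3 hJ h0
    have hl' : l + (-i : ℤ) * u + j * v ∈ Lat :=
      Lat.add (Lat.add hl (Plane.lat_int_mul hu _)) (Plane.lat_int_mul hv _)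
    have e : a = b + (l + (-i : ℤ) * u + j * v) := by
      push_cast
      linear_combination h
    rcases ha with ha | ha
    · exact absurd (e ▸ ha) (hK b hb _ hl')
    · obtain ⟨p, hp, ha⟩ := mem_iUnion₂.1 ha
      exact ⟨_, Finset.mem_biUnion.2 ⟨p, hp, d2 p hp _ hl'
        ((hG _ _ (h2 p hp)).1 _ hl' b hb (e ▸ ha))⟩, -i, j, rfl⟩
  have h4 : (s.biUnion D).card ≤ r * q :=
    (Finset.card_biUnion_le_card_mul s D q fun p _ => d1 p).trans (Nat.mul_le_mul_right q h1)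
  exact key.trans (by exact_mod_cast h4)

/-- the number of translates of the image of `E` through a generic point -/
theorem mult {E : Set ℂ} {Gen : ℂ → Prop} {a : ℤ} (ha : 1 ≤ a) (c : ℤ) {x : ℂ}
    (hi : ∀ y ∈ E, ∀ y' ∈ E, y - y' ∈ Lat → Gen y → y = y')
    (hx : ∀ y, ∀ l ∈ Lat, Bm a c y + l = x → Gen y) :
    ∃ D : Finset ℂ, D.card ≤ a.toNat ^ 2 ∧ ∀ l ∈ Lat, (∃ b ∈ Bm a c '' E, b + l = x) → l ∈ D := by
  set L : Set ℂ := {l ∈ Lat | ∃ b ∈ Bm a c '' E, b + l = x} with hL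
  set T : Finset (ℤ × ℤ) := Finset.Ico 0 a ×ˢ Finset.Ico 0 a with hT
  set φ : ℂ → ℤ × ℤ := fun l => (⌊l.im⌋ % a, (⌊l.re⌋ - c * (⌊l.im⌋ / a)) % a) with hφ
  have a0 : 0 < a := by omega
  have h1 : ∀ l ∈ L, φ l ∈ (T : Set (ℤ × ℤ)) := fun l _ => by
    simp only [hT, hφ, Finset.coe_product, Finset.coe_Ico, mem_prod, mem_Ico]
    exact ⟨⟨Int.emod_nonneg _ a0.ne', Int.emod_lt_of_pos _ a0⟩,
      Int.emod_nonneg _ a0.ne', Int.emod_lt_of_pos _ a0⟩
  have h2 : InjOn φ L := by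
    rintro l ⟨hl, _, ⟨y, hy, rfl⟩, e⟩ l' ⟨hl', _, ⟨y', hy', rfl⟩, e'⟩ h
    have g := hx y l hl e
    obtain ⟨m, n, hm, hn⟩ := hl
    obtain ⟨m', n', hm', hn'⟩ := hl'
    simp only [hφ, hm, hn, hm', hn', Int.floor_intCast, Prod.mk.injEq] at h
    have k1 := Int.mul_ediv_add_emod n a
    have k2 := Int.mul_ediv_add_emod n' a
    have k3 := Int.mul_ediv_add_emod (m - c * (n / a)) a
    have k4 := Int.mul_ediv_add_emod (m' - c * (n' / a)) a
    rw [h.1] at k1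
    rw [h.2] at k3
    generalize (m - c * (n / a)) / a = s at *
    generalize (m' - c * (n' / a)) / a = s' at *
    generalize n / a = t at *
    generalize n' / a = t' at *
    have k5 : n - n' = a * (t - t') := by linear_combination k2 - k1
    have k6 : m - m' = a * (s - s') + c * (t - t') := by linear_combination k4 - k3
    have k7 : (n : ℝ) - n' = a * (t - t') := by exact_mod_cast k5
    have k8 : (m : ℝ) - m' = a * (s - s') + c * (t - t') := by exact_mod_cast k6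
    have e1 := congrArg Complex.re (e.trans e'.symm)
    have e2 := congrArg Complex.im (e.trans e'.symm)
    simp only [Bm, Complex.add_re, Complex.add_im, hm, hn, hm', hn'] at e1 e2
    have a1 : (a : ℝ) ≠ 0 := by exact_mod_cast a0.ne'
    have e3 : y.im - y'.im = t' - t := mul_left_cancel₀ a1 (by linear_combination e2 - k7)
    have e4 : y.re - y'.re = s' - s :=
      mul_left_cancel₀ a1 (by linear_combination e1 - k8 - (c : ℝ) * e3)
    have e5 := hi y hy y' hy' ⟨s' - s, t' - t, by simp [e4], by simp [e3]⟩ g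
    subst e5
    exact add_left_cancel (e.trans e'.symm)
  have hf : L.Finite := Finite.of_injOn h1 h2 T.finite_toSet
  refine ⟨hf.toFinset, ?_, fun l hl h => hf.mem_toFinset.2 ⟨hl, h⟩⟩
  have h3 := ncard_le_ncard_of_injOn φ h1 h2 T.finite_toSet
  rw [ncard_eq_toFinset_card L hf, ncard_coe_finset, hT, Finset.card_product, Int.card_Ico] at h3
  simpa [sq] using h3

end Pool.Agent.P.MP_cb5d8b_an.Faces
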