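import Pool.Agent.P.MP_cb5d8b_an.Fa1
import Pool.Agent.P.MP_cb5d8b_an.Lift
import Pool.Agent.P.MP_cb5d8b_an.Jct

/-! Invariant graphs with few faces bound the shear. -/

open Set Metric

namespace Pool.Agent.P.MP_cb5d8b_an

/-- An invariant graph through the cone points with at most `M` faces bounds the shear. -/
def S_FACES : Prop := ∀ Θ, Pil Θ → ∀ (G : Set S2) (M : ℕ) (a c : ℤ), 1 ≤ a → IsGraph G →
  Θ '' Cone ⊆ G → (∀ z, Θ z ∈ G → Θ (Bm a c z) ∈ G) →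
  ((fun x => connectedComponentIn Gᶜ x) '' Gᶜ).encard ≤ M → |c| ≤ 16 * M * a ^ 2

namespace Faces

variable {Θ : ℂ → S2}

theorem arc_dense {B : Set ℂ} {w w' : ℂ} (h : ArcSet B w w') : Dense Bᶜ := by
  obtain ⟨c, s, t, hst, hc, hi, -, -, rfl⟩ := h
  rcases hst.eq_or_lt with rfl | hst
  · simpa using dense_compl_singleton (c s)
  have hm : ∀ u : unitInterval, s + (u : ℝ) * (t - s) ∈ Icc s t := fun u =>
    ⟨by nlinarith [u.2.1], by nlinarith [u.2.2]⟩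
  refine (Jct.dense_arc (a := fun u : unitInterval => c (s + (u : ℝ) * (t - s))) (by fun_prop)
    fun u v h => ?_).mono (compl_subset_compl.2 ?_)
  · have := hi (hm u) (hm v) h
    exact Subtype.ext (mul_right_cancel₀ (sub_pos.2 hst).ne' (by linarith))
  · rintro _ ⟨r, hr, rfl⟩
    have h0 := sub_pos.2 hst
    refine ⟨⟨(r - s) / (t - s), div_nonneg (sub_nonneg.2 hr.1) h0.le,
      (div_le_one h0).2 (by linarith [hr.2])⟩, ?_⟩
    simp only
    rw [div_mul_cancel₀ _ h0.ne', add_sub_cancel]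

theorem arc_path {B : Set ℂ} {w w' : ℂ} (h : ArcSet B w w') : IsPathConnected B := by
  obtain ⟨c, s, t, hst, hc, -, -, -, rfl⟩ := h
  exact ((convex_Icc s t).isPathConnected (nonempty_Icc.2 hst)).image hc

theorem arc_range {a : unitInterval → S2} (hc : Continuous a) (hi : Function.Injective a) :
    ArcSet (range a) (a 0) (a 1) := by
  refine ⟨fun r => a (projIcc 0 1 zero_le_one r), 0, 1, zero_le_one,
    hc.comp continuous_projIcc, fun r hr r' hr' h => ?_, by simp, by simp, ?_⟩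
  · have := hi h
    rw [projIcc_of_mem _ hr, projIcc_of_mem _ hr'] at this
    exact congrArg Subtype.val this
  · ext y
    exact ⟨fun ⟨r, _, h⟩ => ⟨_, h⟩, fun ⟨u, h⟩ => ⟨u, u.2, by simpa using h⟩⟩

/-- one lift for each arc -/
theorem exists_lift (hΘ : Pil Θ) {G : Set S2} (hG : IsGraph G) :
    ∃ (E : Set ℂ) (V : Set S2), V.Finite ∧ IsCompact E ∧ IsPathConnected E ∧ Dense Eᶜ ∧
      Θ '' E = G ∧ ∀ x ∈ E, ∀ y ∈ E, Θ x = Θ y → Θ x ∉ V → x = y := by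
  classical
  obtain ⟨hc, m, a, ha, rfl, hm⟩ := hG
  set V : Set S2 := ⋃ i, {a i 0, a i 1} with hV
  set Gd : Finset (Fin m) → Prop := fun I => ∃ E : Set ℂ, IsCompact E ∧ IsPathConnected E ∧
    Dense Eᶜ ∧ Θ '' E = ⋃ i ∈ I, range (a i) ∧
      ∀ x ∈ E, ∀ y ∈ E, Θ x = Θ y → Θ x ∉ V → x = y with hGd
  have hA : ∀ i, ArcSet (range (a i)) (a i 0) (a i 1) := fun i => arc_range (ha i).1 (ha i).2
  obtain ⟨p0, hp0⟩ := hc.nonempty
  obtain ⟨i0, -⟩ := mem_iUnion.1 hp0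
  have g0 : Gd {i0} := by
    obtain ⟨w, hw⟩ := hΘ.surj (a i0 0)
    obtain ⟨B, w', b1, b2, b3, -⟩ := p_LIFT Θ hΘ _ _ _ w (hA i0) hw
    exact ⟨B, b1.compact, arc_path b1, arc_dense b1, by simpa using b2,
      fun x hx y hy h _ => b3 hx hy h⟩
  obtain ⟨I, hI, hmax⟩ := Finset.exists_max_image (Finset.univ.filter Gd) Finset.card
    ⟨{i0}, Finset.mem_filter.2 ⟨Finset.mem_univ _, g0⟩⟩
  obtain ⟨E, e1, e2, e3, e4, e5⟩ := (Finset.mem_filter.1 hI).2
  refine ⟨E, V, finite_iUnion fun i => toFinite _, e1, e2, e3, ?_, e5⟩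
  rw [e4]
  refine Subset.antisymm (iUnion₂_subset fun i _ => subset_iUnion (fun i => range (a i)) i) ?_
  by_contra hne
  obtain ⟨p, hp, hp'⟩ := not_subset.1 hne
  have cl : ∀ J : Finset (Fin m), IsClosed (⋃ i ∈ J, range (a i)) := fun J =>
    J.finite_toSet.isClosed_biUnion fun i _ => (hA i).compact.isClosed
  obtain ⟨x0, hx0⟩ := e2.nonempty
  have hx0' : Θ x0 ∈ ⋃ i ∈ I, range (a i) := e4 ▸ mem_image_of_mem _ hx0
  obtain ⟨q, -, h1, h2⟩ := isPreconnected_closed_iff.1 hc.isPreconnected _ _ (cl I) (cl Iᶜ) (by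
      intro y hy
      obtain ⟨i, hi⟩ := mem_iUnion.1 hy
      by_cases h : i ∈ I
      · exact Or.inl (mem_iUnion₂.2 ⟨i, h, hi⟩)
      · exact Or.inr (mem_iUnion₂.2 ⟨i, Finset.mem_compl.2 h, hi⟩))
    ⟨Θ x0, by
      obtain ⟨i, -, hi⟩ := mem_iUnion₂.1 hx0'
      exact mem_iUnion.2 ⟨i, hi⟩, hx0'⟩
    ⟨p, hp, by
      obtain ⟨i, hi⟩ := mem_iUnion.1 hp
      exact mem_iUnion₂.2 ⟨i, Finset.mem_compl.2 fun h => hp' (mem_iUnion₂.2 ⟨i, h, hi⟩), hi⟩⟩
  obtain ⟨i, hi, h2⟩ := mem_iUnion₂.1 h2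
  have hi' := Finset.mem_compl.1 hi
  have meet : ∀ y ∈ ⋃ j ∈ I, range (a j), y ∈ range (a i) → y ∈ ({a i 0, a i 1} : Set S2) := by
    intro y hy hy'
    obtain ⟨j, hj, hy⟩ := mem_iUnion₂.1 hy
    exact (hm i j (fun h => hi' (h ▸ hj)) ⟨hy', hy⟩).1
  obtain ⟨w, hw, hwq⟩ : q ∈ Θ '' E := e4 ▸ h1
  obtain ⟨B, w', b1, b2, b3⟩ : ∃ B w', ArcSet B w w' ∧ Θ '' B = range (a i) ∧ InjOn Θ B := by
    rcases meet q h1 h2 with h | h
    · obtain ⟨B, w', b1, b2, b3, -⟩ := p_LIFT Θ hΘ _ _ _ w (hA i) (hwq.trans h)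
      exact ⟨B, w', b1, b2, b3⟩
    · obtain ⟨B, w', b1, b2, b3, -⟩ := p_LIFT Θ hΘ _ _ _ w (hA i).symm (hwq.trans h)
      exact ⟨B, w', b1, b2, b3⟩
  have mix : ∀ x ∈ E, ∀ y ∈ B, Θ x = Θ y → Θ x ∈ V := fun x hx y hy h =>
    mem_iUnion.2 ⟨i, meet _ (e4 ▸ mem_image_of_mem _ hx) (h ▸ b2 ▸ mem_image_of_mem _ hy)⟩
  have g1 : Gd (insert i I) := by
    refine ⟨E ∪ B, e1.union b1.compact, e2.union (arc_path b1) ⟨w, hw, b1.left⟩, ?_, ?_, ?_⟩
    · rw [compl_union]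
      exact e3.inter_of_isOpen_left (arc_dense b1) e1.isClosed.isOpen_compl
    · rw [image_union, e4, b2, Finset.set_biUnion_insert, union_comm]
    · rintro x (hx | hx) y (hy | hy) h hv
      · exact e5 x hx y hy h hv
      · exact absurd (mix x hx y hy h) hv
      · exact absurd (h ▸ mix y hy x hx h.symm) hv
      · exact b3 hx hy h
  have := hmax _ (Finset.mem_filter.2 ⟨Finset.mem_univ _, g1⟩)
  rw [Finset.card_insert_of_notMem hi'] at this
  omega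

theorem lat_countable : Lat.Countable := by
  refine (countable_range fun p : ℤ × ℤ => (⟨p.1, p.2⟩ : ℂ)).mono ?_
  rintro l ⟨m, n, h1, h2⟩
  exact ⟨(m, n), Complex.ext h1.symm h2.symm⟩

theorem per (hΘ : Pil Θ) (z : ℂ) {l : ℂ} (hl : l ∈ Lat) : Θ (z + l) = Θ z :=
  (hΘ.fib _ _).2 (Or.inl (by simpa using hl))

theorem per' (hΘ : Pil Θ) (z : ℂ) {l : ℂ} (hl : l ∈ Lat) : Θ (-z + l) = Θ z :=
  (hΘ.fib _ _).2 (Or.inr (by simpa [add_right_comm] using hl))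

theorem fib' (hΘ : Pil Θ) {z w : ℂ} (h : Θ z = Θ w) : ∃ l ∈ Lat, z = w + l ∨ z = -w + l := by
  rcases (hΘ.fib _ _).1 h with h | h
  · exact ⟨_, h, Or.inl (by ring)⟩
  · exact ⟨_, h, Or.inr (by ring)⟩

theorem pre_countable (hΘ : Pil Θ) {V : Set S2} (hV : V.Finite) : (Θ ⁻¹' V).Countable := by
  rw [← biUnion_preimage_singleton]
  refine hV.countable.biUnion fun v _ => ?_
  obtain ⟨w, rfl⟩ := hΘ.surj v
  refine ((lat_countable.image fun l => w + l).union (lat_countable.image fun l => -w + l)).mono ?_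
  intro z hz
  obtain ⟨l, hl, h | h⟩ := fib' hΘ hz
  exacts [Or.inl ⟨l, hl, h.symm⟩, Or.inr ⟨l, hl, h.symm⟩]

theorem pre_dense (hΘ : Pil Θ) {E : Set ℂ} (hc : IsCompact E) (hd : Dense Eᶜ) :
    Dense (Θ ⁻¹' (Θ '' E)ᶜ) := by
  have := lat_countable.to_subtype
  have h3 := dense_iInter_of_isOpen (f := fun l : Lat =>
      (fun z : ℂ => z + l) ⁻¹' Eᶜ ∩ (fun z : ℂ => -z + l) ⁻¹' Eᶜ)
    (fun l => (hc.isClosed.isOpen_compl.preimage (by fun_prop)).inter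
      (hc.isClosed.isOpen_compl.preimage (by fun_prop)))
    fun l => (hd.preimage (isOpenMap_add_right _)).inter_of_isOpen_left
      (hd.preimage ((isOpenMap_add_right _).comp (isOpenMap_neg ℂ)))
      (hc.isClosed.isOpen_compl.preimage (by fun_prop))
  refine h3.mono ?_
  rintro z hz ⟨w, hw, h⟩
  obtain ⟨l, hl, h | h⟩ := fib' hΘ h
  · exact (mem_iInter.1 hz ⟨l, hl⟩).1 (show z + l ∈ E from h ▸ hw)
  · exact (mem_iInter.1 hz ⟨l, hl⟩).2 (show -z + l ∈ E from h ▸ hw)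

/-- the tiles fall into at most `2 M` lattice classes -/
theorem tiles (hΘ : Pil Θ) {W : Set S2} (hW : IsOpen W) {M : ℕ}
    (hM : ((fun x => connectedComponentIn W x) '' W).encard ≤ M) :
    ∃ P : Finset ℂ, P.card ≤ 2 * M ∧
      ∀ z ∈ Θ ⁻¹' W, ∃ p ∈ P, ∃ l ∈ Lat, JoinedIn (Θ ⁻¹' W) z (p + l) := by
  classical
  set O := Θ ⁻¹' W with hO
  have Oo : IsOpen O := hW.preimage hΘ.cont
  have hf : ((fun x => connectedComponentIn W x) '' W).Finite := finite_of_encard_le_coe hM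
  have : ∀ C : Set S2, ∃ z : ℂ, C ∈ (fun x => connectedComponentIn W x) '' W → Θ z ∈ C := by
    intro C
    by_cases h : C ∈ (fun x => connectedComponentIn W x) '' W
    · obtain ⟨x, hx, rfl⟩ := h
      obtain ⟨z, rfl⟩ := hΘ.surj x
      exact ⟨z, fun _ => mem_connectedComponentIn hx⟩
    · exact ⟨0, fun h' => absurd h' h⟩
  choose b hb using this
  have hcard : hf.toFinset.card ≤ M := by
    rw [← hf.cast_ncard_eq, ncard_eq_toFinset_card _ hf] at hM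
    exact_mod_cast hM
  refine ⟨hf.toFinset.image b ∪ hf.toFinset.image fun C => -b C, ?_, fun z hz => ?_⟩
  · have h1 := Finset.card_image_le (s := hf.toFinset) (f := b)
    have h2 := Finset.card_image_le (s := hf.toFinset) (f := fun C => -b C)
    exact (Finset.card_union_le _ _).trans (by omega)
  set R := Θ '' pathComponentIn O z with hR
  have tr : ∀ x y, JoinedIn O x y → Θ y ∈ R → Θ x ∈ R := by
    rintro x y h ⟨w, hw, e⟩
    obtain ⟨l, hl, e | e⟩ := fib' hΘ e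
    · have h1 : JoinedIn O (x + l) w := by
        rw [e]
        refine (h.map (f := fun y => y + l) (by fun_prop)).mono ?_
        rintro _ ⟨y', hy', rfl⟩
        show Θ (y' + l) ∈ W
        rwa [per hΘ _ hl]
      exact ⟨x + l, JoinedIn.trans hw h1.symm, per hΘ _ hl⟩
    · have h1 : JoinedIn O (-x + l) w := by
        rw [e]
        refine (h.map (f := fun y => -y + l) (by fun_prop)).mono ?_
        rintro _ ⟨y', hy', rfl⟩
        show Θ (-y' + l) ∈ W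
        rwa [per' hΘ _ hl]
      exact ⟨-x + l, JoinedIn.trans hw h1.symm, per' hΘ _ hl⟩
  have o2 : IsOpen {w | w ∈ O ∧ Θ w ∉ R} := by
    rw [isOpen_iff_mem_nhds]
    rintro w ⟨h1, h2⟩
    filter_upwards [(Oo.pathComponentIn w).mem_nhds (mem_pathComponentIn_self h1)] with y hy
    exact ⟨JoinedIn.target_mem hy, fun h => h2 (tr w y hy h)⟩
  have hC : connectedComponentIn W (Θ z) ∈ (fun x => connectedComponentIn W x) '' W :=
    ⟨Θ z, hz, rfl⟩
  have sub : connectedComponentIn W (Θ z) ⊆ R :=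
    isPreconnected_connectedComponentIn.subset_left_of_subset_union
      (hΘ.opn _ (Oo.pathComponentIn z)) (hΘ.opn _ o2)
      (by
        rw [Set.disjoint_left]
        rintro _ h ⟨w, hw, rfl⟩
        exact hw.2 h)
      (by
        intro y hy
        obtain ⟨w, rfl⟩ := hΘ.surj y
        by_cases h : Θ w ∈ R
        · exact Or.inl h
        · exact Or.inr ⟨w, ⟨connectedComponentIn_subset W (Θ z) hy, h⟩, rfl⟩)
      ⟨Θ z, mem_connectedComponentIn hz, z, mem_pathComponentIn_self hz, rfl⟩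
  obtain ⟨w, hw, e⟩ := sub (hb _ hC)
  obtain ⟨l, hl, e | e⟩ := fib' hΘ e
  · exact ⟨_, Finset.mem_union_left _ (Finset.mem_image_of_mem _ (hf.mem_toFinset.2 hC)), l, hl,
      e ▸ hw⟩
  · exact ⟨_, Finset.mem_union_right _ (Finset.mem_image_of_mem _ (hf.mem_toFinset.2 hC)), l, hl,
      e ▸ hw⟩

end Faces

open Faces in
theorem p_FACES : S_FACES := by
  classical
  intro Θ hΘ G M a c ha hG hcone hinv hM
  obtain ⟨E, V, hV, e1, e2, e3, rfl, e5⟩ := exists_lift hΘ hG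
  have Wo : IsOpen (Θ '' E)ᶜ := (e1.image hΘ.cont).isClosed.isOpen_compl
  obtain ⟨P, hP, hPj⟩ := tiles hΘ Wo hM
  set O := Θ ⁻¹' (Θ '' E)ᶜ with hO
  have c0 : (0 : ℂ) ∈ Cone := by simpa [Cone] using Lat.zero
  have hI : Complex.I / 2 ∈ Cone := ⟨0, 1, by simp, by simp⟩
  obtain ⟨p, hpE, hp0⟩ := hcone ⟨0, c0, rfl⟩
  obtain ⟨p', hpE', hp1⟩ := hcone ⟨_, hI, rfl⟩
  rw [hΘ.fib] at hp0 hp1
  have pc : p ∈ Cone := hp0.cone c0
  have pc' : p' ∈ Cone := hp1.cone hI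
  have pl' : 2 * p' ∈ Lat := pc'
  set v : ℂ := 2 * (p' - p) with hv
  have vl : v ∈ Lat := by
    rw [hv, mul_sub]
    exact Lat.sub pc' pc
  obtain ⟨n, hn, n0⟩ : ∃ n : ℤ, v.im = n ∧ n ≠ 0 := by
    obtain ⟨s, hs⟩ : ∃ s : ℤ, p.im = s := by
      rcases hp0 with ⟨-, s, -, h⟩ | ⟨-, s, -, h⟩ <;> exact ⟨s, by simpa using h⟩
    obtain ⟨t, ht⟩ : ∃ t : ℤ, 2 * p'.im = 2 * t + 1 := by
      rcases hp1 with ⟨-, t, -, h⟩ | ⟨-, t, -, h⟩
      · exact ⟨t, by simp at h; linarith⟩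
      · exact ⟨t - 1, by simp at h; push_cast; linarith⟩
    refine ⟨2 * t + 1 - 2 * s, ?_, by omega⟩
    simp [hv, hs]
    linarith
  set E2 : Set ℂ := (fun y => -y + 2 * p') '' E with hE2
  have hJ : JoinedIn (E ∪ E2) p (p + v) := by
    have h := e2.joinedIn p hpE p' hpE'
    have h' := (h.map (f := fun y => -y + 2 * p') (by fun_prop)).symm
    rw [show -p' + 2 * p' = p' by ring, show -p + 2 * p' = p + v by rw [hv]; ring] at h'
    exact (h.mono subset_union_left).trans (h'.mono subset_union_right)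
  have Kc : IsCompact (E ∪ E2) := e1.union (e1.image (by fun_prop))
  have KG : ∀ y ∈ E ∪ E2, Θ y ∈ Θ '' E := by
    rintro y (hy | ⟨y, hy, rfl⟩)
    · exact mem_image_of_mem _ hy
    · exact ⟨y, hy, (per' hΘ y pl').symm⟩
  have i1 : ∀ y ∈ E, ∀ y' ∈ E, y - y' ∈ Lat → Θ y ∉ V → y = y' := fun y hy y' hy' h =>
    e5 y hy y' hy' ((hΘ.fib _ _).2 (Or.inl h))
  have i2 : ∀ y ∈ E2, ∀ y' ∈ E2, y - y' ∈ Lat → Θ y ∉ V → y = y' := by
    rintro _ ⟨y, hy, rfl⟩ _ ⟨y', hy', rfl⟩ h g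
    rw [per' hΘ y pl'] at g
    rw [i1 y hy y' hy' (by convert Lat.neg h using 1; ring) g]
  set Gd : ℤ → ℤ → ℂ → ℝ → Prop := fun a c x ε => (∀ y, ∀ l ∈ Lat, Bm a c y + l = x → Θ y ∉ V) ∧
    ∀ l ∈ Lat, ∀ b ∈ Bm a c '' (E ∪ E2), b + l ∈ ball x ε →
      ∃ b' ∈ Bm a c '' (E ∪ E2), b' + l = x with hGd
  have Gl : ∀ a c x ε l, l ∈ Lat → Gd a c x ε → Gd a c (x + l) ε := by
    rintro a c x ε l hl ⟨g1, g2⟩
    refine ⟨fun y l' hl' h => g1 y (l' - l) (Lat.sub hl' hl) (by linear_combination h),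
      fun l' hl' b hb h => ?_⟩
    obtain ⟨b', h1, h2⟩ := g2 (l' - l) (Lat.sub hl' hl) b hb (by
      rw [mem_ball, dist_eq_norm] at h ⊢
      rwa [show b + (l' - l) - x = b + l' - (x + l) by ring])
    exact ⟨b', h1, by linear_combination h2⟩
  have Gc : ∀ a c, {x | ¬ ∃ ε, 0 < ε ∧ ∀ ε' ≤ ε, Gd a c x ε'}.Countable := by
    intro a c
    refine (((pre_countable hΘ hV).prod lat_countable).image
      fun q : ℂ × ℂ => Bm a c q.1 + q.2).mono fun x hx => ?_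
    by_contra hn
    obtain ⟨ε, e0, he⟩ := exists_radius (Kc.image (Bm_cont a c)) x
    exact hx ⟨ε, e0, fun ε' h' => ⟨fun y l hl h g => hn ⟨(y, l), ⟨g, hl⟩, h⟩,
      fun l hl b hb h => he l hl b hb (ball_subset_ball h' h)⟩⟩
  obtain ⟨z, u, hu, u0, hch⟩ := transversal (O := O)
    (Good := fun x ε => Gd a c x ε ∧ Gd 1 0 x ε) (Wo.preimage hΘ.cont) (pre_dense hΘ e1 e3)
    (fun z hz l hl => by
      show Θ (z + l) ∈ (Θ '' E)ᶜ
      rwa [per hΘ z hl]) P hPj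
    (((Gc a c).union (Gc 1 0)).mono fun x hx => by
      by_contra hn
      rw [mem_union, not_or] at hn
      obtain ⟨ε, e0, he⟩ := not_not.1 hn.1
      obtain ⟨ε', e0', he'⟩ := not_not.1 hn.2
      exact hx ⟨min ε ε', lt_min e0 e0', he _ (min_le_left _ _), he' _ (min_le_right _ _)⟩)
    fun x ε l hl h => ⟨Gl _ _ _ _ _ hl h.1, Gl _ _ _ _ _ hl h.2⟩
  have main : ∀ a' c' : ℤ, 1 ≤ a' → (∀ z, Θ z ∈ Θ '' E → Θ (Bm a' c' z) ∈ Θ '' E) →
      (∀ x ε, Gd a c x ε ∧ Gd 1 0 x ε → Gd a' c' x ε) →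
      |u.re * (Bm a' c' v).im - u.im * (Bm a' c' v).re| ≤ 8 * M * (a' : ℝ) ^ 2 := by
    intro a' c' ha' hi hg
    have hJ' := hJ.map (Bm_cont a' c')
    rw [Bm_add] at hJ'
    have := count (K := Bm a' c' '' (E ∪ E2)) (by
        rintro _ ⟨y, hy, rfl⟩ l hl h
        exact h (by rw [per hΘ _ hl]; exact hi y (KG y hy))) hu (Bm_lat a' c' vl) hch hJ'
      (a'.toNat ^ 2 + a'.toNat ^ 2) fun x ε h => by
        obtain ⟨g1, g2⟩ := hg x ε h
        obtain ⟨D, d1, d2⟩ := mult ha' c' i1 g1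
        obtain ⟨D', d1', d2'⟩ := mult ha' c' i2 g1
        refine ⟨g2, D ∪ D', (Finset.card_union_le _ _).trans (add_le_add d1 d1'), ?_⟩
        rintro l hl ⟨_, ⟨y, hy | hy, rfl⟩, e⟩
        · exact Finset.mem_union_left _ (d2 l hl ⟨_, ⟨y, hy, rfl⟩, e⟩)
        · exact Finset.mem_union_right _ (d2' l hl ⟨_, ⟨y, hy, rfl⟩, e⟩)
    refine this.trans ?_
    have h1 : ((a'.toNat : ℕ) : ℝ) = a' := by
      exact_mod_cast Int.toNat_of_nonneg (by omega : 0 ≤ a')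
    have h2 : (P.card : ℝ) ≤ 2 * M := by exact_mod_cast hP
    push_cast
    rw [h1]
    nlinarith [sq_nonneg (a' : ℝ)]
  have k1 := main a c ha hinv fun _ _ h => h.1
  have k2 := main 1 0 le_rfl (fun z hz => by rwa [Bm_one]) fun _ _ h => h.2
  rw [Bm_one] at k2
  obtain ⟨u1, u2, -, hu2⟩ := hu
  have u20 : u2 ≠ 0 := fun h => u0 (by simp [hu2, h])
  have a1 : (1 : ℝ) ≤ a := by exact_mod_cast ha
  have e : (c : ℝ) * (u2 * n) = a * (u.re * v.im - u.im * v.re) -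
      (u.re * (Bm a c v).im - u.im * (Bm a c v).re) := by
    simp only [Bm, hu2, hn]
    ring
  have k3 : (1 : ℝ) ≤ |(u2 : ℝ) * n| := by
    exact_mod_cast Int.one_le_abs (mul_ne_zero u20 n0)
  have k4 : |(c : ℝ)| ≤ |(c : ℝ) * (u2 * n)| := by
    rw [abs_mul]
    exact le_mul_of_one_le_right (abs_nonneg _) k3
  have k5 : |(c : ℝ)| ≤ 16 * M * (a : ℝ) ^ 2 := by
    rw [e] at k4
    have k6 := k4.trans (abs_sub _ _)
    rw [abs_mul, abs_of_pos (by linarith : (0 : ℝ) < a)] at k6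
    have k7 := mul_le_mul_of_nonneg_left k2 (by linarith : (0 : ℝ) ≤ a)
    have M0 : (0 : ℝ) ≤ M := Nat.cast_nonneg M
    have k8 : (0 : ℝ) ≤ M * (a * (a - 1)) := by
      have : (0 : ℝ) ≤ a - 1 := by linarith
      positivity
    push_cast at k7
    nlinarith
  exact_mod_cast k5

end Pool.Agent.P.MP_cb5d8b_an
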