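import Pool.Agent.P.MP_cb5d8b_an.Faces
import Pool.Agent.P.MP_cb5d8b_an.Pil
import Pool.Agent.P.MP_cb5d8b_an.Br
import Pool.Agent.P.MP_cb5d8b_an.Post
import Pool.Agent.P.MP_cb5d8b_an.Expd

/-! No invariant tree and no invariant graph with few faces for the first iterates. -/

namespace Pool.Agent.P.MP_cb5d8b_an

open Set Metric Filter Topology

theorem faces (M N : ℕ) :
    ∃ f : S2 → S2, IsThurston f ∧ IsExpanding f ∧ HasDegree f 4 ∧ (post f).ncard = 4 ∧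
      ∀ n : ℕ, 1 ≤ n → n ≤ N → ¬ ∃ G : Set S2, IsGraph G ∧ post f ⊆ G ∧ f^[n] '' G ⊆ G ∧
        ((fun x => connectedComponentIn Gᶜ x) '' Gᶜ).encard ≤ M := by
  obtain ⟨Θ, hΘ⟩ := p_PIL
  obtain ⟨j, hj⟩ : ∃ j : ℤ, j = 8 * M * 4 ^ N + 1 := ⟨_, rfl⟩
  obtain ⟨f, hf⟩ : ∃ f : S2 → S2, ∀ z, f (Θ z) = Θ (Bm 2 (2 * j) z) :=
    ⟨fun p => Θ (Bm 2 (2 * j) (Function.surjInv hΘ.surj p)), fun z =>
      (hΘ.fib _ _).2 (Bm_rel _ _ ((hΘ.fib _ _).1 (Function.surjInv_eq hΘ.surj _)))⟩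
  obtain ⟨h1, h2, h3⟩ := p_POST Θ hΘ j f hf
  refine ⟨f, ⟨p_BR Θ hΘ _ f hf, ⟨4, by norm_num, h3⟩, ?_⟩, p_EXP Θ hΘ _ f hf h1.le, h3,
    h1 ▸ h2, ?_⟩
  · rw [h1]
    exact finite_of_ncard_ne_zero (by rw [h2]; norm_num)
  rintro n hn hN ⟨G, hG, hp, hi, hM⟩
  obtain ⟨n, rfl⟩ : ∃ m, n = m + 1 := ⟨n - 1, by omega⟩
  have key := p_FACES Θ hΘ G M (2 ^ (n + 1)) ((n + 1) * 2 ^ n * (2 * j))
    (one_le_pow₀ (by norm_num)) hG (h1 ▸ hp) (fun z hz => iter hf n z ▸ hi ⟨Θ z, hz, rfl⟩) hM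
  have a1 : ((2 : ℤ) ^ (n + 1)) ^ 2 ≤ 4 ^ N := by
    rw [← pow_mul, mul_comm, pow_mul]
    exact pow_le_pow_right₀ (by norm_num) hN
  have a2 : (0 : ℤ) ≤ M * 4 ^ N := by positivity
  have a3 : (1 : ℤ) ≤ (n + 1) * 2 ^ n :=
    one_le_mul_of_one_le_of_one_le (by omega) (one_le_pow₀ (by norm_num))
  have a4 := (le_abs_self _).trans key
  have a5 := mul_le_mul_of_nonneg_left a1 (by positivity : (0 : ℤ) ≤ 16 * M)
  nlinarith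

/-- A tree has one face. -/
theorem IsTree.faces {T : Set S2} (h : IsTree T) :
    ((fun x => connectedComponentIn Tᶜ x) '' Tᶜ).encard ≤ 1 := by
  refine (encard_le_encard (t := {Tᶜ}) ?_).trans (by simp)
  rintro _ ⟨x, hx, rfl⟩
  exact h.2.isPreconnected.connectedComponentIn hx

theorem faces_tree (M N : ℕ) :
    ∃ f : S2 → S2, IsThurston f ∧ IsExpanding f ∧ HasDegree f 4 ∧ (post f).ncard = 4 ∧
      ∀ n : ℕ, 1 ≤ n → n ≤ N →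
        (¬ ∃ T : Set S2, IsTree T ∧ post f ⊆ T ∧ f^[n] '' T ⊆ T) ∧
        ¬ ∃ G : Set S2, IsGraph G ∧ post f ⊆ G ∧ f^[n] '' G ⊆ G ∧
          ((fun x => connectedComponentIn Gᶜ x) '' Gᶜ).encard ≤ M := by
  obtain ⟨f, h1, h2, h3, h4, h5⟩ := faces (M + 1) N
  refine ⟨f, h1, h2, h3, h4, fun n hn hN => ⟨?_, ?_⟩⟩
  · rintro ⟨T, hT, a, b⟩
    exact h5 n hn hN ⟨T, hT.1, a, b, hT.faces.trans (by exact_mod_cast Nat.le_add_left 1 M)⟩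
  · rintro ⟨G, hG, a, b, c⟩
    exact h5 n hn hN ⟨G, hG, a, b, c.trans (by exact_mod_cast Nat.le_succ M)⟩

end Pool.Agent.P.MP_cb5d8b_an
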