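import Pool.Agent.P.MP_cb5d8b_an.Arc

/-! Continuous logarithms on plane sets. -/

namespace Pool.Agent.P.MP_cb5d8b_an

open Set Metric Filter Topology Complex

/-- `F` has a continuous logarithm on `K`. -/
def HasLog (F : ℂ → ℂ) (K : Set ℂ) : Prop :=
  ∃ L : ℂ → ℂ, ContinuousOn L K ∧ ∀ z ∈ K, Complex.exp (L z) = F z

namespace Lg

theorem conv (C : Set ℂ) (F : ℂ → ℂ) (hC : Convex ℝ C) (hF : ContinuousOn F C)
    (h0 : ∀ z ∈ C, F z ≠ 0) : HasLog F C := by
  classical
  rcases C.eq_empty_or_nonempty with rfl | hne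
  · exact ⟨fun _ => 0, continuousOn_empty _, fun z hz => hz.elim⟩
  have := hC.contractibleSpace hne
  have := hC.locallyPathConnectedSpace
  obtain ⟨x, hx⟩ := hne
  obtain ⟨f, ⟨-, hf⟩, -⟩ := isCoveringMapOn_exp.existsUnique_continuousMap_lifts
    (⟨C.domRestrict F, continuousOn_iff_continuous_domRestrict.mp hF⟩ : C(C, ℂ)) (a₀ := ⟨x, hx⟩)
    (exp_log (h0 x hx)) (fun z => h0 z z.2)
  obtain ⟨g, hg⟩ : ∃ g : ℂ → ℂ, ∀ z : C, g z = f z :=
    ⟨fun z => if hz : z ∈ C then f ⟨z, hz⟩ else 0, by simp⟩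
  refine ⟨g, ?_, fun z hz => ?_⟩
  · rw [continuousOn_iff_continuous_domRestrict, show C.domRestrict g = f from funext hg]
    exact map_continuous f
  · rw [hg ⟨z, hz⟩]
    exact congrFun hf ⟨z, hz⟩

/-- A continuous function with constant exponential on a preconnected set is constant. -/
theorem const' {X : Type*} [TopologicalSpace X] {K : Set X} (L : X → ℂ) (hK : IsPreconnected K)
    (h : ContinuousOn L K) (c : ℂ) (e : ∀ z ∈ K, exp (L z) = c) :
    ∀ z ∈ K, ∀ w ∈ K, L z = L w := fun _ hz _ hw =>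
  isCoveringMap_exp.constOn_of_comp (g := L) hK h
    (fun a ha b hb => Subtype.ext ((e a ha).trans (e b hb).symm)) hz hw

theorem const (K : Set ℂ) (L L' : ℂ → ℂ) (hK : IsPreconnected K) (h : ContinuousOn L K)
    (h' : ContinuousOn L' K) (e : ∀ z ∈ K, exp (L z) = exp (L' z)) :
    ∀ z ∈ K, ∀ w ∈ K, L z - L' z = L w - L' w :=
  const' (fun z => L z - L' z) hK (h.sub h') 1 fun a ha => by
    rw [exp_sub, e a ha, div_self (exp_ne_zero _)]

theorem circ (a : ℂ) (R : ℝ) (hR : 0 < R) (m : ℤ)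
    (h : HasLog (fun z => (z - a) ^ m) (sphere a R)) : m = 0 := by
  obtain ⟨L, hL, e⟩ := h
  beta_reduce at e
  have hc : Continuous fun t : ℝ => L (circleMap a R t) :=
    hL.comp_continuous (continuous_circleMap a R) fun t => circleMap_mem_sphere a hR.le t
  have key := const' (K := univ) (fun t : ℝ => L (circleMap a R t) - m * (t * I))
    isPreconnected_univ (hc.sub (by fun_prop)).continuousOn ((R : ℂ) ^ m) (fun t _ => by
      rw [exp_sub, e _ (circleMap_mem_sphere a hR.le t), circleMap, add_sub_cancel_left,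
        exp_int_mul, mul_zpow, mul_div_assoc, div_self (zpow_ne_zero _ (exp_ne_zero _)), mul_one])
    0 trivial (2 * Real.pi) trivial
  have h2 : circleMap a R (2 * Real.pi) = circleMap a R 0 := by
    simpa using periodic_circleMap a R 0
  simp only [h2, ofReal_zero, zero_mul, mul_zero, sub_zero] at key
  have := congrArg Complex.im (sub_eq_self.1 key.symm)
  simpa [Real.pi_ne_zero] using this

theorem near (K : Set ℂ) (F G : ℂ → ℂ) (h : HasLog F K) (hG : ContinuousOn G K)
    (hn : ∀ z ∈ K, ‖G z - F z‖ < ‖F z‖) : HasLog G K := by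
  obtain ⟨L, hL, e⟩ := h
  have hs : ∀ z ∈ K, G z / exp (L z) ∈ slitPlane := fun z hz => by
    have h0 : F z ≠ 0 := e z hz ▸ exp_ne_zero _
    rw [e z hz, show G z / F z = 1 + (G z - F z) / F z by field_simp; ring]
    refine mem_slitPlane_of_norm_lt_one ?_
    rw [norm_div, div_lt_one (norm_pos_iff.2 h0)]
    exact hn z hz
  refine ⟨fun z => L z + log (G z / exp (L z)),
    hL.add ((hG.div hL.cexp fun z _ => exp_ne_zero _).clog hs), fun z hz => ?_⟩
  rw [exp_add, exp_log (slitPlane_ne_zero (hs z hz)), mul_div_cancel₀ _ (exp_ne_zero _)]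

/-- Two logarithms that agree on the intersection of two closed sets glue. -/
theorem glue' {A B : Set ℂ} {F L L' : ℂ → ℂ} (hA : IsClosed A) (hB : IsClosed B)
    (hL : ContinuousOn L A) (hL' : ContinuousOn L' B) (e : ∀ z ∈ A, exp (L z) = F z)
    (e' : ∀ z ∈ B, exp (L' z) = F z) (hc : ∀ z ∈ A, z ∈ B → L z = L' z) : HasLog F (A ∪ B) := by
  classical
  have k : ∀ z ∈ B, A.piecewise L L' z = L' z := fun z hz => by
    by_cases h : z ∈ A
    · rw [piecewise_eq_of_mem _ _ _ h, hc z h hz]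
    · rw [piecewise_eq_of_notMem _ _ _ h]
  refine ⟨A.piecewise L L', ContinuousOn.union_of_isClosed
    (hL.congr fun z hz => piecewise_eq_of_mem _ _ _ hz) (hL'.congr k) hA hB, ?_⟩
  rintro z (hz | hz)
  · rw [piecewise_eq_of_mem _ _ _ hz, e z hz]
  · rw [k z hz, e' z hz]

theorem glue (A B : Set ℂ) (F : ℂ → ℂ) (hA : IsClosed A) (hB : IsClosed B)
    (hc : IsPreconnected (A ∩ B)) (h : HasLog F A) (h' : HasLog F B) : HasLog F (A ∪ B) := by
  obtain ⟨L, hL, e⟩ := h
  obtain ⟨L', hL', e'⟩ := h'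
  obtain ⟨c, c1, c2⟩ : ∃ c, exp c = 1 ∧ ∀ z ∈ A ∩ B, L z - L' z = c := by
    rcases (A ∩ B).eq_empty_or_nonempty with h | ⟨w, hw⟩
    · exact ⟨0, exp_zero, fun z hz => by rw [h] at hz; exact hz.elim⟩
    · refine ⟨L w - L' w, ?_, fun z hz => const _ L L' hc (hL.mono inter_subset_left)
        (hL'.mono inter_subset_right) (fun z hz => (e z hz.1).trans (e' z hz.2).symm) z hz w hw⟩
      rw [exp_sub, e w hw.1, ← e' w hw.2, div_self (exp_ne_zero _)]
  exact glue' (L' := fun z => L' z + c) hA hB hL (hL'.add continuousOn_const) e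
    (fun z hz => by rw [exp_add, c1, mul_one, e' z hz])
    fun z h h' => by rw [← c2 z ⟨h, h'⟩, add_sub_cancel]

theorem mul {F G : ℂ → ℂ} {K : Set ℂ} (hF : HasLog F K) (hG : HasLog G K) :
    HasLog (fun z => F z * G z) K := by
  obtain ⟨L, hL, hLe⟩ := hF
  obtain ⟨M, hM, hMe⟩ := hG
  exact ⟨fun z => L z + M z, hL.add hM, fun z hz => by
    rw [Complex.exp_add, hLe z hz, hMe z hz]⟩

theorem congr {F G : ℂ → ℂ} {K : Set ℂ} (hF : HasLog F K) (h : ∀ z ∈ K, F z = G z) :
    HasLog G K := by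
  obtain ⟨L, hL, hLe⟩ := hF
  exact ⟨L, hL, fun z hz => by rw [hLe z hz, h z hz]⟩

theorem mono {F : ℂ → ℂ} {K K' : Set ℂ} (hF : HasLog F K) (h : K' ⊆ K) : HasLog F K' := by
  obtain ⟨L, hL, hLe⟩ := hF
  exact ⟨L, hL.mono h, fun z hz => hLe z (h hz)⟩

theorem ne {F : ℂ → ℂ} {K : Set ℂ} (hF : HasLog F K) {z : ℂ} (hz : z ∈ K) : F z ≠ 0 := by
  obtain ⟨L, -, hLe⟩ := hF
  rw [← hLe z hz]
  exact Complex.exp_ne_zero _

theorem inv {F : ℂ → ℂ} {K : Set ℂ} (hF : HasLog F K) : HasLog (fun z => (F z)⁻¹) K := by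
  obtain ⟨L, hL, hLe⟩ := hF
  exact ⟨fun z => -L z, hL.neg, fun z hz => by rw [Complex.exp_neg, hLe z hz]⟩

theorem one (K : Set ℂ) : HasLog (fun _ => 1) K :=
  ⟨fun _ => 0, continuousOn_const, fun _ _ => Complex.exp_zero⟩

theorem comp {F g : ℂ → ℂ} {K K' : Set ℂ} (hF : HasLog F K) (hg : ContinuousOn g K')
    (hm : MapsTo g K' K) : HasLog (fun z => F (g z)) K' := by
  obtain ⟨L, hL, hLe⟩ := hF
  exact ⟨fun z => L (g z), hL.comp hg hm, fun z hz => hLe _ (hm hz)⟩

theorem near' {K : Set ℂ} {x y : ℂ} (h : ∀ z ∈ K, ‖y - x‖ < ‖z - y‖) :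
    HasLog (fun z => (z - x) / (z - y)) K := by
  have hne : ∀ z ∈ K, z - y ≠ 0 := fun z hz h0 => by
    have h1 := h z hz
    rw [h0, norm_zero] at h1
    exact absurd h1 (not_lt.2 (norm_nonneg _))
  refine near K (fun _ => 1) _ (one K) ?_ ?_
  · exact ContinuousOn.div (by fun_prop) (by fun_prop) hne
  · intro z hz
    have h1 : (z - x) / (z - y) - 1 = (y - x) / (z - y) := by
      field_simp [hne z hz]
      ring
    rw [h1, norm_div, norm_one, div_lt_one (norm_pos_iff.2 (hne z hz))]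
    exact h z hz

/-- Points in one preconnected subset of the complement of a closed set. -/
theorem move {K P : Set ℂ} (hK : IsClosed K) (hP : IsPreconnected P) (hPK : P ⊆ Kᶜ) {a b : ℂ}
    (ha : a ∈ P) (hb : b ∈ P) : HasLog (fun z => (z - a) / (z - b)) K := by
  refine hP.induction₂' (fun x y => HasLog (fun z => (z - x) / (z - y)) K) ?_ ?_ ha hb
  · intro x hx
    obtain ⟨r, hr, hball⟩ := Metric.isOpen_iff.1 hK.isOpen_compl x (hPK hx)
    have hfar : ∀ z ∈ K, r ≤ ‖z - x‖ := fun z hz => by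
      by_contra hlt
      exact hball (by rw [mem_ball, dist_eq_norm]; exact not_le.1 hlt) hz
    refine mem_nhdsWithin_of_mem_nhds ?_
    filter_upwards [ball_mem_nhds x (half_pos hr)] with y hy
    rw [mem_ball, dist_eq_norm] at hy
    refine ⟨near' fun z hz => ?_, near' fun z hz => ?_⟩
    · have h1 := hfar z hz
      have h2 : ‖z - x‖ ≤ ‖z - y‖ + ‖y - x‖ := by
        have := norm_add_le (z - y) (y - x)
        rwa [sub_add_sub_cancel] at this
      linarith
    · have h1 := hfar z hz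
      rw [norm_sub_rev]
      linarith
  · refine fun x y w _ _ _ h1 h2 => congr (mul h1 h2) fun z hz => ?_
    have h3 : z - y ≠ 0 := fun h0 => ne h2 hz (by simp [h0])
    field_simp

/-- The index lemma: if `(z - a) ^ m * g z` has a logarithm on the frontier of a bounded open set
that contains `a`, and `g` has no zero on its closure, then `m = 0`. -/
theorem core {U : Set ℂ} (hU : IsOpen U) (hb : Bornology.IsBounded U) {a : ℂ} (ha : a ∈ U)
    {g : ℂ → ℂ} (hg : ContinuousOn g (closure U)) (hg0 : ∀ z ∈ closure U, g z ≠ 0) (m : ℤ)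
    (hL : HasLog (fun z => (z - a) ^ m * g z) (frontier U)) : m = 0 := by
  classical
  obtain ⟨L, hL, hLe⟩ := hL
  obtain ⟨H, hH⟩ := ContinuousMap.exists_restrict_eq (isClosed_frontier (s := U))
    (⟨(frontier U).domRestrict L, continuousOn_iff_continuous_domRestrict.1 hL⟩ :
      C(frontier U, ℂ))
  have hHL : ∀ z ∈ frontier U, H z = L z := fun z hz =>
    congrArg (fun f : C(frontier U, ℂ) => f ⟨z, hz⟩) hH
  have hne : ∀ z, z ∉ U → z - a ≠ 0 := fun z hz => sub_ne_zero.2 fun h => hz (h ▸ ha)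
  have hcont : Continuous fun z =>
      if z ∈ closure U then Complex.exp (H z) / g z else (z - a) ^ m := by
    refine continuous_if ?_ ?_ ?_
    · intro z hz
      have hz1 : z ∈ frontier U := frontier_closure_subset hz
      rw [hHL z hz1, hLe z hz1]
      field_simp [hg0 z (frontier_subset_closure hz1)]
    · rw [show {x | x ∈ closure U} = closure U from rfl, closure_closure]
      exact ContinuousOn.div (by fun_prop) hg hg0
    · refine ContinuousOn.zpow₀ (by fun_prop) m fun z hz => Or.inl (hne z fun h => ?_)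
      have : closure {x | x ∉ closure U} ⊆ Uᶜ :=
        closure_minimal (fun x hx h => hx (subset_closure h)) hU.isClosed_compl
      exact this hz h
  have hlog := conv univ _ convex_univ hcont.continuousOn fun z _ => by
    by_cases hz : z ∈ closure U
    · rw [if_pos hz]
      exact div_ne_zero (Complex.exp_ne_zero _) (hg0 z hz)
    · rw [if_neg hz]
      exact zpow_ne_zero _ (hne z fun h => hz (subset_closure h))
  obtain ⟨R, hR, hsub⟩ := hb.closure.subset_ball_lt 0 a
  refine circ a R hR m (congr (mono hlog (subset_univ _)) fun z hz => ?_)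
  rw [if_neg fun h => (mem_ball.1 (hsub h)).ne (mem_sphere.1 hz)]

/-- Logarithms exist on arcs. -/
theorem arc {A : Set ℂ} {x y : ℂ} (h : ArcSet A x y) {F : ℂ → ℂ} (hF : ContinuousOn F A)
    (h0 : ∀ z ∈ A, F z ≠ 0) : HasLog F A := by
  obtain ⟨c, s, t, -, hc, hi, -, -, rfl⟩ := h
  have hconv : Convex ℝ {z : ℂ | z.re ∈ Icc s t} :=
    (convex_Icc s t).linear_preimage Complex.reLm
  obtain ⟨L, hL, e⟩ := conv {z : ℂ | z.re ∈ Icc s t} (fun z => F (c z.re)) hconv
    (hF.comp (by fun_prop) fun z hz => ⟨_, hz, rfl⟩) fun z hz => h0 _ ⟨_, hz, rfl⟩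
  have hinv : ∀ u ∈ Icc s t, Function.invFunOn c (Icc s t) (c u) = u := fun u hu =>
    hi.leftInvOn_invFunOn hu
  have hk : ContinuousOn (Function.invFunOn c (Icc s t)) (c '' Icc s t) := by
    rw [continuousOn_iff_isClosed]
    intro Z hZ
    refine ⟨c '' (Icc s t ∩ Z), ((isCompact_Icc.inter_right hZ).image hc).isClosed, ?_⟩
    ext w
    constructor
    · rintro ⟨h1, u, hu, rfl⟩
      exact ⟨⟨u, ⟨hu, by rwa [mem_preimage, hinv u hu] at h1⟩, rfl⟩, u, hu, rfl⟩
    · rintro ⟨⟨u, hu, rfl⟩, h2⟩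
      exact ⟨by rw [mem_preimage, hinv u hu.1]; exact hu.2, h2⟩
  refine ⟨fun w => L (Function.invFunOn c (Icc s t) w : ℝ),
    hL.comp (continuous_ofReal.comp_continuousOn hk) ?_, ?_⟩
  · rintro _ ⟨u, hu, rfl⟩
    simpa [hinv u hu] using hu
  · rintro _ ⟨u, hu, rfl⟩
    beta_reduce
    rw [hinv u hu, e _ (by simpa using hu)]
    simp

end Lg

end Pool.Agent.P.MP_cb5d8b_an
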